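import Mathlib
import Pool.Agent.H469R10.HO.Stmts6
import Pool.Agent.H82R3.Task469L

set_option autoImplicit false

/-!
SELBERG-PROJECT (helper469), TASK O: a fixed point gives the boundary relation.
-/

open Finset MeasureTheory

namespace Pool.Agent.H54R3.T469O

open Pool.Agent.H469R10.HO

lemma PP_add {f g : ℝ → ℝ} (hf : Continuous f) (hg : Continuous g) (j : ℕ) :
    PP (fun x => f x + g x) j = PP f j + PP g j := by
  unfold PP
  rw [← add_div, ← intervalIntegral.integral_add (Continuous.intervalIntegrable (by fun_prop) _ _)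
    (Continuous.intervalIntegrable (by fun_prop) _ _)]
  congr 1
  refine intervalIntegral.integral_congr fun x _ => ?_
  simp only
  ring

lemma PP_sub {f g : ℝ → ℝ} (hf : Continuous f) (hg : Continuous g) (j : ℕ) :
    PP (fun x => f x - g x) j = PP f j - PP g j := by
  unfold PP
  rw [← sub_div, ← intervalIntegral.integral_sub (Continuous.intervalIntegrable (by fun_prop) _ _)
    (Continuous.intervalIntegrable (by fun_prop) _ _)]
  congr 1
  refine intervalIntegral.integral_congr fun x _ => ?_
  simp only
  ring

lemma PP_const_mul (a : ℝ) (f : ℝ → ℝ) (j : ℕ) : PP (fun x => a * f x) j = a * PP f j := by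
  unfold PP
  have : ∀ x, a * f x * Real.cos (xx j * x) = a * (f x * Real.cos (xx j * x)) := fun x => by ring
  simp_rw [this]
  rw [intervalIntegral.integral_const_mul, mul_div_assoc]

lemma PP_cos (i j : ℕ) : PP (fun t => Real.cos (xx i * t)) j = if i = j then 1 else 0 := by
  unfold PP
  rw [int_cos_cos]
  unfold ww
  by_cases h : i = j
  · subst h
    rw [if_pos rfl, if_pos rfl]
    split_ifs <;> norm_num
  · rw [if_neg h, if_neg h, zero_div]

lemma chi_nonneg (x : ℝ) : 0 ≤ chi x := Real.smoothTransition.nonneg _
lemma chi_le_one (x : ℝ) : chi x ≤ 1 := Real.smoothTransition.le_one _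
lemma chi_cont : Continuous chi := by
  unfold chi
  exact Real.smoothTransition.continuous.comp (by fun_prop)
lemma chi_zero {x : ℝ} (hx : 3 / 4 ≤ x) : chi x = 0 := Real.smoothTransition.zero_of_nonpos (by linarith)
lemma chi_one {x : ℝ} (hx : x ≤ 1 / 2) : chi x = 1 := Real.smoothTransition.one_of_one_le (by linarith)

lemma DD_abs {m : ℕ} {f : ℝ → ℝ} {C : ℝ} (hC : ∀ x, |f x| ≤ C) (x : ℝ) : |DD m f x| ≤ x ^ (2 * m) * C := by
  have hC0 : 0 ≤ C := (abs_nonneg _).trans (hC 0)
  have hx : 0 ≤ x ^ (2 * m) := by rw [pow_mul]; positivity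
  unfold DD
  rw [abs_mul, abs_mul, abs_of_nonneg (chi_nonneg x), abs_of_nonneg hx]
  calc chi x * x ^ (2 * m) * |f x⁻¹| ≤ 1 * x ^ (2 * m) * C := by
        gcongr
        · exact chi_le_one x
        · exact hC _
    _ = x ^ (2 * m) * C := by ring

lemma DD_cont {m : ℕ} (hm : 1 ≤ m) {f : ℝ → ℝ} (hf : Continuous f) {C : ℝ} (hC : ∀ x, |f x| ≤ C) :
    Continuous (DD m f) := by
  rw [continuous_iff_continuousAt]
  intro x
  by_cases hx : x = 0
  · subst hx
    have h0 : DD m f 0 = 0 := by
      unfold DD
      rw [zero_pow (by omega)]; ring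
    rw [ContinuousAt, h0]
    refine squeeze_zero_norm (a := fun y => y ^ (2 * m) * C) (fun y => DD_abs hC y) ?_
    have : Continuous fun y : ℝ => y ^ (2 * m) * C := by fun_prop
    have h1 := this.tendsto 0
    rwa [zero_pow (by omega), zero_mul] at h1
  · unfold DD
    exact (chi_cont.continuousAt.mul (continuousAt_id.pow _)).mul
      (hf.continuousAt.comp (continuousAt_inv₀ hx))

lemma PP_hasSum {F : ℕ → ℝ → ℝ} {a : ℕ → ℝ} (hF : ∀ n, Continuous (F n))
    (hb : ∀ n, ∀ x ∈ Set.Icc (0:ℝ) 2, |F n x| ≤ a n) (ha : Summable a) (j : ℕ) {f : ℝ → ℝ}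
    (hf : ∀ x ∈ Set.Icc (0:ℝ) 2, HasSum (fun n => F n x) (f x)) :
    HasSum (fun n => PP (F n) j) (PP f j) := by
  unfold PP
  apply HasSum.div_const
  refine intervalIntegral.hasSum_integral_of_dominated_convergence (fun n _ => a n) ?_ ?_ ?_ ?_ ?_
  · intro n
    have := hF n
    exact (Continuous.aestronglyMeasurable (by fun_prop))
  · intro n
    refine Filter.Eventually.of_forall (fun x hx => ?_)
    rw [Set.uIoc_of_le (by norm_num)] at hx
    rw [Real.norm_eq_abs, abs_mul]
    have h1 := hb n x ⟨hx.1.le, hx.2⟩
    have h2 := Real.abs_cos_le_one (xx j * x)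
    calc |F n x| * |Real.cos (xx j * x)| ≤ |F n x| * 1 := by gcongr
      _ ≤ a n := by rw [mul_one]; exact h1
  · exact Filter.Eventually.of_forall (fun x _ => ha)
  · exact intervalIntegrable_const
  · refine Filter.Eventually.of_forall (fun x hx => ?_)
    rw [Set.uIoc_of_le (by norm_num)] at hx
    exact (hf x ⟨hx.1.le, hx.2⟩).mul_right _

lemma DD_const_mul (m : ℕ) (a : ℝ) (f : ℝ → ℝ) (x : ℝ) : DD m (fun y => a * f y) x = a * DD m f x := by
  unfold DD; ring

lemma jj_of_near {c lam : ℝ} {p j : ℕ} (h : |uu c lam p - xx j| ≤ 1 / 2) : jj c lam p = j := by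
  unfold jj cell
  have hpi := Real.pi_gt_three
  have hpi0 := Real.pi_pos
  rw [abs_le] at h
  have e : 2 / Real.pi * uu c lam p = j + 2 / Real.pi * (uu c lam p - xx j) := by
    unfold xx; field_simp; ring
  have h2 : |2 / Real.pi * (uu c lam p - xx j)| ≤ 1 / 3 := by
    rw [abs_mul, abs_of_pos (by positivity)]
    have h3 : |uu c lam p - xx j| ≤ 1 / 2 := abs_le.mpr h
    have h4 : 2 / Real.pi ≤ 2 / 3 := by gcongr
    calc 2 / Real.pi * |uu c lam p - xx j| ≤ 2 / 3 * (1 / 2) := by gcongr
      _ = 1 / 3 := by norm_num
  rw [abs_le] at h2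
  have h0 : (0:ℝ) ≤ j := Nat.cast_nonneg j
  rw [Nat.floor_eq_iff (by rw [e]; linarith)]
  constructor <;> rw [e] <;> linarith

lemma uu_zero {c lam : ℝ} (hl : 1 ≤ lam) : uu c lam 0 = 0 := by
  unfold uu
  rw [Nat.cast_zero, Real.zero_rpow (by positivity), mul_zero]

lemma uu_one {c lam : ℝ} : uu c lam 1 = c := by
  unfold uu
  rw [Nat.cast_one, Real.one_rpow, mul_one]

lemma jj_zero {c lam : ℝ} (hl : 1 ≤ lam) : jj c lam 0 = 0 := by
  unfold jj cell
  rw [uu_zero hl]
  norm_num

lemma alp_prime {c lam : ℝ} {B : ℕ → Finset ℕ} {b : ℕ → ℝ} {p : ℕ} (hp : p.Prime) :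
    alp c lam B b p = bet c lam B b p := by
  unfold alp
  rw [if_neg hp.ne_zero, if_pos (Nat.Prime.prime hp).squarefree, Nat.Prime.primeFactors hp, prod_singleton]

lemma alp_eq_zero {c lam : ℝ} {B : ℕ → Finset ℕ} {b : ℕ → ℝ} {n : ℕ} (h0 : ¬ (n = 0 ∨ n.Prime))
    (h1 : ¬ (Squarefree n ∧ 2 ≤ n.primeFactors.card)) (hn : n ≠ 1) : alp c lam B b n = 0 := by
  push Not at h0
  unfold alp
  rw [if_neg h0.1]
  by_cases hs : Squarefree n
  · exfalso
    apply h1
    refine ⟨hs, ?_⟩
    by_contra hlt
    have h2 : n.primeFactors.card = 0 ∨ n.primeFactors.card = 1 := by omega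
    have h3 := Nat.prod_primeFactors_of_squarefree hs
    rcases h2 with h2 | h2
    · rw [card_eq_zero] at h2
      rw [h2, prod_empty] at h3
      exact hn h3.symm
    · obtain ⟨p, hp⟩ := card_eq_one.mp h2
      rw [hp, prod_singleton] at h3
      have : p ∈ n.primeFactors := by rw [hp]; exact mem_singleton_self p
      rw [← h3] at h0
      exact h0.2 (Nat.prime_of_mem_primeFactors this)
  · rw [if_neg hs]

theorem taskO : TaskO := by
  classical
  intro c lam m B b hc hlam hm hB hne hsum hfix α hα x hx
  -- coefficients without `n = 1`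
  let a : ℕ → ℝ := fun n => if n = 1 then 0 else alp c lam B b n
  have ha : Summable (fun n => |a n|) := by
    refine Summable.of_nonneg_of_le (fun _ => abs_nonneg _) (fun n => ?_) hsum
    simp only [a]
    split_ifs
    · rw [abs_zero]; exact abs_nonneg _
    · exact le_rfl
  let G : ℝ → ℝ := fun x => ∑' n, a n * Real.cos (uu c lam n * x)
  have hGb : ∀ n x, ‖a n * Real.cos (uu c lam n * x)‖ ≤ |a n| := by
    intro n x
    rw [Real.norm_eq_abs, abs_mul]
    calc |a n| * |Real.cos (uu c lam n * x)| ≤ |a n| * 1 := by
          gcongr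
          exact Real.abs_cos_le_one _
      _ = |a n| := mul_one _
  have hGs : ∀ x, HasSum (fun n => a n * Real.cos (uu c lam n * x)) (G x) := fun x =>
    (Summable.of_norm_bounded ha (fun n => hGb n x)).hasSum
  have hGc : Continuous G := continuous_tsum (fun n => by fun_prop) ha hGb
  have hGB : ∀ x, |G x| ≤ ∑' n, |a n| := fun x => tsum_of_norm_bounded ha.hasSum (fun n => hGb n x)
  have hs0c : Continuous (s0 c) := by unfold s0; fun_prop
  have hs0B : ∀ x, |s0 c x| ≤ 2 := by
    intro x
    unfold s0
    rw [abs_le]
    constructor <;> linarith [Real.neg_one_le_cos (c * x), Real.cos_le_one (c * x)]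
  let h : ℝ → ℝ := fun x => s0 c x + G x
  have hhc : Continuous h := hs0c.add hGc
  have hhB : ∀ x, |h x| ≤ 2 + ∑' n, |a n| := fun x =>
    (abs_add_le _ _).trans (add_le_add (hs0B x) (hGB x))
  have hm1 : 1 ≤ m := by omega
  -- the sum over `n = 0` and primes
  have hE : ∀ j, HasSum (fun n => if n = 0 ∨ n.Prime then (if jj c lam n = j then alp c lam B b n else 0) else 0)
      (b j) := by
    intro j
    rcases Nat.eq_zero_or_pos j with rfl | hj
    · have h1 := hasSum_sum_of_ne_finset_zero (L := SummationFilter.unconditional ℕ) (f := fun n => if n = 0 ∨ n.Prime then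
          (if jj c lam n = 0 then alp c lam B b n else 0) else 0) (s := {0}) (fun n hn => by
        have hn0 : n ≠ 0 := by simpa using hn
        by_cases hp : n.Prime
        · simp only [hn0, hp, false_or, if_true]
          split_ifs with hj
          · rw [alp_prime hp]
            unfold bet
            rw [hj]
            rw [if_neg]
            intro hmem
            have := (hB 0 n hmem).1
            omega
          · rfl
        · simp [hn0, hp])
      simp only [sum_singleton, true_or, if_true, jj_zero hlam] at h1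
      have h2 : alp c lam B b 0 = b 0 := by unfold alp; rw [if_pos rfl]
      rwa [h2] at h1
    · have h1 := hasSum_sum_of_ne_finset_zero (L := SummationFilter.unconditional ℕ) (f := fun n => if n = 0 ∨ n.Prime then
          (if jj c lam n = j then alp c lam B b n else 0) else 0) (s := B j) (fun n hn => by
        by_cases hn0 : n = 0
        · subst hn0
          simp only [true_or, if_true, jj_zero hlam]
          rw [if_neg (by omega)]
        by_cases hp : n.Prime
        · simp only [hn0, hp, false_or, if_true]
          split_ifs with hj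
          · rw [alp_prime hp]
            unfold bet
            rw [hj, if_neg hn]
          · rfl
        · simp [hn0, hp])
      have h2 : ∑ n ∈ B j, (if n = 0 ∨ n.Prime then
          (if jj c lam n = j then alp c lam B b n else 0) else 0) = b j := by
        have h3 : ∀ n ∈ B j, (if n = 0 ∨ n.Prime then
          (if jj c lam n = j then alp c lam B b n else 0) else 0) = b j / (B j).card := by
          intro n hn
          obtain ⟨-, hp, hnear⟩ := hB j n hn
          have hjn := jj_of_near hnear
          rw [if_pos (Or.inr hp), if_pos hjn, alp_prime hp]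
          unfold bet
          rw [hjn, if_pos hn]
        rw [sum_congr rfl h3, sum_const, nsmul_eq_mul]
        have h4 : ((B j).card : ℝ) ≠ 0 := by
          have := (hne j hj).card_pos
          positivity
        field_simp
      rwa [h2] at h1
  -- the projections
  have hP : ∀ j, PP h j = PP (DD m h) j := by
    intro j
    have H1 : HasSum (fun n => a n * PP (fun t => Real.cos (uu c lam n * t)) j) (PP G j) := by
      have h1 := PP_hasSum (F := fun n x => a n * Real.cos (uu c lam n * x)) (a := fun n => |a n|)
        (fun n => by fun_prop) (fun n x _ => hGb n x) ha j (f := G) (fun x _ => hGs x)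
      simpa only [PP_const_mul] using h1
    have hcosB : ∀ n x, |Real.cos (uu c lam n * x)| ≤ 1 := fun n x => Real.abs_cos_le_one _
    have hDc : ∀ n, Continuous (DD m (fun y => Real.cos (uu c lam n * y))) := fun n =>
      DD_cont hm1 (by fun_prop) (hcosB n)
    have H2 : HasSum (fun n => a n * PP (DD m (fun y => Real.cos (uu c lam n * y))) j) (PP (DD m G) j) := by
      have h1 := PP_hasSum (F := fun n x => a n * DD m (fun y => Real.cos (uu c lam n * y)) x)
        (a := fun n => |a n| * 2 ^ (2 * m))
        (fun n => continuous_const.mul (hDc n)) (fun n x hx => by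
          rw [abs_mul]
          have h2 := DD_abs (m := m) (hcosB n) x
          have h3 : x ^ (2 * m) ≤ 2 ^ (2 * m) := pow_le_pow_left₀ hx.1 hx.2 _
          have h4 : |DD m (fun y => Real.cos (uu c lam n * y)) x| ≤ 2 ^ (2 * m) := by linarith
          gcongr) (ha.mul_right _) j (f := DD m G) (fun x _ => by
          have h2 := (hGs x⁻¹).mul_left (chi x * x ^ (2 * m))
          have h3 : (fun n => a n * DD m (fun y => Real.cos (uu c lam n * y)) x) =
              fun n => chi x * x ^ (2 * m) * (a n * Real.cos (uu c lam n * x⁻¹)) := by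
            funext n
            unfold DD
            ring
          rw [h3]
          exact h2)
      simpa only [PP_const_mul] using h1
    have H4 : HasSum (fun n => alp c lam B b n * TT c lam m n j) (- PP G j + PP (DD m G) j + b j) := by
      have h1 := ((H1.neg).add H2).add (hE j)
      have h2 : (fun n => alp c lam B b n * TT c lam m n j) = fun n =>
          -(a n * PP (fun t => Real.cos (uu c lam n * t)) j) +
            a n * PP (DD m (fun y => Real.cos (uu c lam n * y))) j +
            (if n = 0 ∨ n.Prime then (if jj c lam n = j then alp c lam B b n else 0) else 0) := by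
        funext n
        by_cases h0 : n = 0 ∨ n.Prime
        · have hn1 : n ≠ 1 := by
            rintro rfl
            rcases h0 with h0 | h0
            · omega
            · exact Nat.not_prime_one h0
          have han : a n = alp c lam B b n := if_neg hn1
          unfold TT
          rw [if_pos h0, if_pos h0, han, PP_sub (by fun_prop) (by fun_prop), PP_cos]
          split_ifs <;> ring
        · by_cases h3 : Squarefree n ∧ 2 ≤ n.primeFactors.card
          · have hn1 : n ≠ 1 := by
              rintro rfl
              simp at h3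
            have han : a n = alp c lam B b n := if_neg hn1
            unfold TT
            rw [if_neg h0, if_neg h0, if_pos h3, han]
            ring
          · by_cases hn1 : n = 1
            · have han : a n = 0 := if_pos hn1
              unfold TT
              rw [if_neg h0, if_neg h0, if_neg h3, han]
              ring
            · have h4 := alp_eq_zero (c := c) (lam := lam) (B := B) (b := b) h0 h3 hn1
              have han : a n = 0 := (if_neg hn1).trans h4
              rw [if_neg h0, h4, han]
              ring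
      rw [h2]
      exact h1
    have h5 := hfix j
    unfold Phi at h5
    rw [H4.tsum_eq] at h5
    unfold ss at h5
    have h6 : PP h j = PP (s0 c) j + PP G j := PP_add hs0c hGc j
    have h7 : PP (DD m h) j = PP (DD m (s0 c)) j + PP (DD m G) j := by
      rw [← PP_add (DD_cont hm1 hs0c hs0B) (DD_cont hm1 hGc hGB)]
      congr 1
      funext x
      simp only [DD, h]
      ring
    linarith
  have hDhc : Continuous (DD m h) := DD_cont hm1 hhc hhB
  have hL := Pool.Agent.H82R3.T469L.taskL (fun x => h x - DD m h x) (hhc.sub hDhc) (fun j => by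
    have h1 : PP (fun x => h x - DD m h x) j = 0 := by
      rw [PP_sub hhc hDhc, hP j, sub_self]
    unfold PP at h1
    have h2 : ww j ≠ 0 := by have := ww_ge j; positivity
    exact (div_eq_zero_iff.mp h1).resolve_right h2)
  have hL' : ∀ x ∈ Set.Icc (0:ℝ) 2, h x = chi x * x ^ (2 * m) * h x⁻¹ := fun x hx => by
    have := hL x hx
    simp only [DD] at this
    linarith
  have hz1 : ∀ x ∈ Set.Icc (3 / 4 : ℝ) 2, h x = 0 := by
    intro x hx
    rw [hL' x ⟨by linarith [hx.1], hx.2⟩, chi_zero hx.1]
    ring
  have hz : ∀ x ∈ Set.Icc (1 / 2 : ℝ) 2, h x = 0 := by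
    intro x hx
    rcases le_total (3 / 4) x with h1 | h1
    · exact hz1 x ⟨h1, hx.2⟩
    · have hx0 : 0 < x := by linarith [hx.1]
      rw [hL' x ⟨by linarith [hx.1], hx.2⟩, hz1 x⁻¹ ?_, mul_zero]
      constructor
      · rw [le_inv_comm₀ (by norm_num) hx0]; linarith
      · rw [inv_le_comm₀ hx0 (by norm_num)]; linarith [hx.1]
  have hinv : ∀ x : ℝ, 0 < x → x ≤ 1 / 2 → h x = x ^ (2 * m) * h x⁻¹ := by
    intro x hx0 hx1
    rw [hL' x ⟨hx0.le, by linarith⟩, chi_one hx1, one_mul]
  have hfinal : h x = x ^ (2 * m) * h x⁻¹ := by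
    rcases le_total x (1 / 2) with h1 | h1
    · exact hinv x hx h1
    rcases le_total x 2 with h2 | h2
    · rw [hz x ⟨h1, h2⟩, hz x⁻¹ ?_, mul_zero]
      constructor
      · rw [le_inv_comm₀ (by norm_num) hx]; linarith
      · rw [inv_le_comm₀ hx (by norm_num)]; linarith
    · have h3 := hinv x⁻¹ (inv_pos.mpr hx) (by rw [inv_le_comm₀ hx (by norm_num)]; linarith)
      rw [inv_inv] at h3
      rw [h3, ← mul_assoc, ← mul_pow, mul_inv_cancel₀ hx.ne', one_pow, one_mul]
  have hser : ∀ x, ∑' n, α n * Real.cos (uu c lam n * x) = h x := by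
    intro x
    have h1 : HasSum (fun n => a n * Real.cos (uu c lam n * x) +
        ((if n = 0 then -1 else 0) + (if n = 1 then Real.cos (c * x) else 0)))
        (G x + (-1 + Real.cos (c * x))) :=
      (hGs x).add ((hasSum_ite_eq 0 (-1)).add (hasSum_ite_eq 1 (Real.cos (c * x))))
    have h2 : (fun n => α n * Real.cos (uu c lam n * x)) = fun n => a n * Real.cos (uu c lam n * x) +
        ((if n = 0 then -1 else 0) + (if n = 1 then Real.cos (c * x) else 0)) := by
      funext n
      rw [hα n]
      by_cases hn0 : n = 0
      · subst hn0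
        have h3 : a 0 = b 0 := by
          simp only [a]
          rw [if_neg (by norm_num)]
          unfold alp
          rw [if_pos rfl]
        rw [if_pos rfl, if_pos rfl, if_neg (by norm_num), h3, uu_zero hlam, zero_mul, Real.cos_zero]
        ring
      by_cases hn1 : n = 1
      · subst hn1
        have h3 : a 1 = 0 := if_pos rfl
        rw [if_neg (by norm_num), if_pos squarefree_one, if_neg (by norm_num), if_pos rfl, h3, uu_one,
          Nat.primeFactors_one, prod_empty]
        ring
      · have h3 : a n = alp c lam B b n := if_neg hn1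
        rw [if_neg hn0, if_neg hn0, if_neg hn1, h3]
        unfold alp
        rw [if_neg hn0]
        ring
    rw [h2, h1.tsum_eq]
    simp only [h, s0]
    ring
  rw [hser x]
  have h8 : ∀ n, uu c lam n / x = uu c lam n * x⁻¹ := fun n => div_eq_mul_inv _ _
  simp_rw [h8]
  rw [hser x⁻¹]
  exact hfinal

end Pool.Agent.H54R3.T469O
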