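import Mathlib

set_option autoImplicit false

/-! finitely generated torsion-free modules over domains embed in free modules of finite rank -/

namespace Pool.Agent.H54R3.Rig

theorem embed_free {R A : Type} [CommRing R] [IsDomain R] [AddCommGroup A] [Module R A]
    (hfg : (⊤ : Submodule R A).FG) (htf : ∀ (r : R) (a : A), r ≠ 0 → r • a = 0 → a = 0) :
    ∃ (k : ℕ) (f : A →ₗ[R] (Fin k → R)), Function.Injective f := by
  classical
  obtain ⟨s, hs⟩ := hfg
  let P : ℕ → Prop := fun m => ∃ v : Fin m → A, (∀ i, v i ∈ s) ∧ LinearIndependent R v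
  have hP0 : P 0 := ⟨Fin.elim0, fun i => i.elim0, linearIndependent_empty_type⟩
  have hPle : ∀ m, P m → m ≤ s.card := by
    rintro m ⟨v, hv, hli⟩
    have hinj := hli.injective
    have h1 : (Finset.univ.image v) ⊆ s := by
      intro x hx
      obtain ⟨i, _, rfl⟩ := Finset.mem_image.mp hx
      exact hv i
    have h2 := Finset.card_le_card h1
    rw [Finset.card_image_of_injective _ hinj, Finset.card_univ, Fintype.card_fin] at h2
    exact h2
  set m := Nat.findGreatest P s.card with hm
  have hPm : P m := Nat.findGreatest_spec (P := P) (Nat.zero_le _) hP0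
  obtain ⟨v, hv, hli⟩ := hPm
  have hd : ∀ g ∈ s, ∃ d : R, d ≠ 0 ∧ d • g ∈ Submodule.span R (Set.range v) := by
    intro g hg
    have hnot : ¬ LinearIndependent R (Fin.snoc v g : Fin (m + 1) → A) := by
      intro h
      have h1 : P (m + 1) := ⟨Fin.snoc v g, fun i => by
        refine Fin.lastCases ?_ (fun i => ?_) i
        · simpa using hg
        · simpa using hv i, h⟩
      have h2 := Nat.le_findGreatest (hPle _ h1) h1
      omega
    rw [Fintype.not_linearIndependent_iff] at hnot
    obtain ⟨c, hc, i, hi⟩ := hnot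
    rw [Fin.sum_univ_castSucc] at hc
    simp only [Fin.snoc_castSucc, Fin.snoc_last] at hc
    have hlast : c (Fin.last m) ≠ 0 := by
      intro h0
      rw [h0, zero_smul, add_zero] at hc
      have h1 := Fintype.linearIndependent_iff.mp hli _ hc
      apply hi
      refine Fin.lastCases ?_ (fun i => ?_) i
      · exact h0
      · exact h1 i
    refine ⟨c (Fin.last m), hlast, ?_⟩
    have h2 : c (Fin.last m) • g = -∑ i : Fin m, c i.castSucc • v i := by
      rw [eq_neg_iff_add_eq_zero, add_comm]; exact hc
    rw [h2]
    exact neg_mem (Submodule.sum_mem _ (fun i _ => Submodule.smul_mem _ _ (Submodule.subset_span ⟨i, rfl⟩)))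
  choose! d hd0 hdm using hd
  set D : R := ∏ g ∈ s, d g with hD
  have hD0 : D ≠ 0 := Finset.prod_ne_zero_iff.mpr hd0
  have hDg : ∀ g ∈ s, D • g ∈ Submodule.span R (Set.range v) := by
    intro g hg
    rw [hD, ← Finset.prod_erase_mul s d hg, mul_smul]
    exact Submodule.smul_mem _ _ (hdm g hg)
  have hDa : ∀ a : A, (D • LinearMap.id : A →ₗ[R] A) a ∈ Submodule.span R (Set.range v) := by
    intro a
    have ha : a ∈ Submodule.span R (s : Set A) := hs ▸ Submodule.mem_top
    change D • a ∈ _
    induction ha using Submodule.span_induction with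
    | mem x hx => exact hDg x hx
    | zero => rw [smul_zero]; exact zero_mem _
    | add x y _ _ hx hy => rw [smul_add]; exact add_mem hx hy
    | smul r x _ hx => rw [smul_comm]; exact Submodule.smul_mem _ _ hx
  let b := Module.Basis.span hli
  let f1 : A →ₗ[R] Submodule.span R (Set.range v) := LinearMap.codRestrict _ (D • LinearMap.id) hDa
  refine ⟨m, b.equivFun.toLinearMap.comp f1, ?_⟩
  intro x y hxy
  have h1 : f1 x = f1 y := b.equivFun.injective hxy
  have h2 : D • x = D • y := congrArg Subtype.val h1
  have h3 : D • (x - y) = 0 := by rw [smul_sub, h2, sub_self]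
  exact sub_eq_zero.mp (htf D _ hD0 h3)

end Pool.Agent.H54R3.Rig
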