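import Mathlib
import Pool.Agent.H577R3.Defs2
import Pool.Agent.H54R3.RigC

set_option autoImplicit false

/-! module structure on an abelian kernel -/

namespace Pool.Agent.H54R3.Rig

open Pool.Agent.H577R3
open scoped commutatorElement

section
variable {G : Type} [Group G] {m : ℕ} (π : G →* Zm m)

/-- the kernel is commutative -/
@[reducible] def kerCG (hcomm : ∀ a b : G, π a = 1 → π b = 1 → a * b = b * a) : CommGroup π.ker :=
  { (inferInstance : Group π.ker) with
    mul_comm := fun a b => Subtype.ext (hcomm a b a.2 b.2) }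

theorem exists_md (hs : Function.Surjective π)
    (hcomm : ∀ a b : G, π a = 1 → π b = 1 → a * b = b * a) (hfg : Group.FG G)
    (htf : ∀ (r : ℕ) (g : Fin r → G) (n : Fin r → ℤ) (a : G), π a = 1 → a ≠ 1 →
      (∀ i j, i ≠ j → π (g i) ≠ π (g j)) → (∃ i, n i ≠ 0) →
      (List.ofFn (fun i => g i * a ^ n i * (g i)⁻¹)).prod ≠ 1) :
    ∃ k, Nonempty (MD π k) := by
  classical
  letI : CommGroup π.ker := kerCG π hcomm
  -- conjugation only depends on the class
  have hcl : ∀ (g g' : G) (a : G), π g = π g' → π a = 1 → g * a * g⁻¹ = g' * a * g'⁻¹ := by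
    intro g g' a hg ha
    have h1 : (g'⁻¹ * g) * a = a * (g'⁻¹ * g) := hcomm _ _ (by rw [map_mul, map_inv, hg, inv_mul_cancel]) ha
    have h2 : g * a * g⁻¹ = g' * ((g'⁻¹ * g) * a) * g⁻¹ := by group
    rw [h2, h1]; group
  let sec : Zm m → G := Function.surjInv hs
  have hsec : ∀ h, π (sec h) = h := Function.surjInv_eq hs
  let cj : G → π.ker → π.ker := fun g a => ⟨g * a * g⁻¹, by
    rw [MonoidHom.mem_ker, map_mul, map_mul, map_inv, a.2]; simp⟩
  have hcj_mul : ∀ g a b, cj g (a * b) = cj g a * cj g b := by
    intro g a b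
    apply Subtype.ext
    change g * (a * b) * g⁻¹ = (g * a * g⁻¹) * (g * b * g⁻¹)
    group
  have hcj_one : ∀ g, cj g 1 = 1 := by
    intro g
    apply Subtype.ext
    change g * 1 * g⁻¹ = 1
    group
  have hcj_cl : ∀ g g' a, π g = π g' → cj g a = cj g' a := fun g g' a h => Subtype.ext (hcl g g' a h a.2)
  let τ : Zm m →* AddMonoid.End (Additive π.ker) :=
    { toFun := fun h =>
        { toFun := fun a => Additive.ofMul (cj (sec h) a.toMul)
          map_zero' := by
            change Additive.ofMul (cj (sec h) 1) = 0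
            rw [hcj_one]; rfl
          map_add' := fun a b => by
            change Additive.ofMul (cj (sec h) (a.toMul * b.toMul)) = _
            rw [hcj_mul]; rfl }
      map_one' := by
        refine AddMonoidHom.ext (fun a => ?_)
        apply Additive.toMul.injective
        change cj (sec 1) a.toMul = a.toMul
        rw [hcj_cl (sec 1) 1 _ (by rw [hsec, map_one])]
        apply Subtype.ext
        change 1 * (a.toMul : G) * 1⁻¹ = a.toMul
        group
      map_mul' := fun h h' => by
        refine AddMonoidHom.ext (fun a => ?_)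
        apply Additive.toMul.injective
        change cj (sec (h * h')) a.toMul = cj (sec h) (cj (sec h') a.toMul)
        rw [hcj_cl (sec (h * h')) (sec h * sec h') _ (by rw [map_mul, hsec, hsec, hsec])]
        apply Subtype.ext
        change (sec h * sec h') * (a.toMul : G) * (sec h * sec h')⁻¹ = sec h * (sec h' * a.toMul * (sec h')⁻¹) * (sec h)⁻¹
        group }
  let ρ : MonoidAlgebra ℤ (Zm m) →ₐ[ℤ] AddMonoid.End (Additive π.ker) := MonoidAlgebra.lift ℤ _ _ τ
  letI : Module (MonoidAlgebra ℤ (Zm m)) (Additive π.ker) := Module.compHom _ (ρ : MonoidAlgebra ℤ (Zm m) →+* AddMonoid.End (Additive π.ker))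
  have hsm : ∀ (r : MonoidAlgebra ℤ (Zm m)) (x : Additive π.ker), r • x = ρ r x := fun r x => rfl
  have hof : ∀ (g : G) (x : Additive π.ker), MonoidAlgebra.of ℤ (Zm m) (π g) • x = Additive.ofMul (cj g x.toMul) := by
    intro g x
    rw [hsm]
    have h1 : ρ (MonoidAlgebra.of ℤ (Zm m) (π g)) = τ (π g) := by
      simp [ρ]
    rw [h1]
    change Additive.ofMul (cj (sec (π g)) x.toMul) = _
    rw [hcj_cl (sec (π g)) g _ (hsec _)]
  -- torsion-free
  have htf' : ∀ (r : MonoidAlgebra ℤ (Zm m)) (x : Additive π.ker), r ≠ 0 → r • x = 0 → x = 0 := by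
    intro r x hr hx
    by_contra hx0
    let e := (Fintype.equivFin {h // h ∈ r.coeff.support}).symm
    have hcard : 0 < Fintype.card {h // h ∈ r.coeff.support} := by
      rw [Fintype.card_coe, Finset.card_pos, Finsupp.support_nonempty_iff]
      simpa using hr
    have hcx : ∀ i, r.coeff (e i).1 ≠ 0 := fun i => Finsupp.mem_support_iff.mp (e i).2
    apply htf _ (fun i => sec (e i).1) (fun i => r.coeff (e i).1) (x.toMul : G) x.toMul.2 ?_ ?_
      ⟨⟨0, hcard⟩, hcx _⟩
    · -- the product is one
      have h1 : r • x = ∑ i, (r.coeff (e i).1) • Additive.ofMul (cj (sec (e i).1) x.toMul) := by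
        have h2 : r = ∑ i, (r.coeff (e i).1) • MonoidAlgebra.of ℤ (Zm m) (π (sec (e i).1)) := by
          rw [Equiv.sum_comp e (fun h => (r.coeff h.1) • MonoidAlgebra.of ℤ (Zm m) (π (sec h.1)))]
          rw [Finset.sum_coe_sort r.coeff.support (fun h => (r.coeff h) • MonoidAlgebra.of ℤ (Zm m) (π (sec h)))]
          ext h
          simp only [hsec, MonoidAlgebra.coeff_sum, Finsupp.finsetSum_apply, MonoidAlgebra.coeff_smul,
            Finsupp.smul_apply, MonoidAlgebra.of_apply, MonoidAlgebra.coeff_single]
          rw [Finset.sum_eq_single h]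
          · simp
          · intro b _ hb
            rw [Finsupp.single_eq_of_ne (fun h' => hb h'.symm), smul_zero]
          · intro hn
            have : r.coeff h = 0 := by simpa using hn
            rw [this, zero_smul]
        conv_lhs => rw [h2]
        rw [Finset.sum_smul]
        refine Finset.sum_congr rfl (fun i _ => ?_)
        rw [smul_assoc, hof]
      rw [hx] at h1
      have h3 : (1 : π.ker) = ∏ i, (cj (sec (e i).1) x.toMul) ^ (r.coeff (e i).1) := by
        have h4 := congrArg Additive.toMul h1
        rw [toMul_zero, toMul_sum] at h4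
        exact h4
      have h5 := congrArg (fun y : π.ker => (y : G)) h3
      rw [← List.prod_ofFn] at h5
      have h6 : (((List.ofFn fun i => (cj (sec (e i).1) x.toMul) ^ (r.coeff (e i).1)).prod : π.ker) : G) =
          (List.ofFn fun i => sec (e i).1 * (x.toMul : G) ^ (r.coeff (e i).1) * (sec (e i).1)⁻¹).prod := by
        rw [← Subgroup.subtype_apply, map_list_prod, List.map_ofFn]
        congr 2
        funext i
        change ((sec (e i).1 * (x.toMul : G) * (sec (e i).1)⁻¹) ^ (r.coeff (e i).1)) = _
        rw [conj_zpow]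
      rw [← h6]
      exact h5.symm
    · intro h
      apply hx0
      apply Additive.toMul.injective
      exact Subtype.ext h
    · intro i j hij h
      rw [hsec, hsec] at h
      exact hij (e.injective (Subtype.ext h))
  -- finitely generated
  have hfg' : (⊤ : Submodule (MonoidAlgebra ℤ (Zm m)) (Additive π.ker)).FG := by
    obtain ⟨X, hX⟩ := hfg.out
    let t : Fin m → G := fun i => sec (zb i)
    let sp : Zm m → G := fun v => (List.ofFn fun i => t i ^ (v.toAdd i)).prod
    have hsp : ∀ v, π (sp v) = v := by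
      intro v
      simp only [sp]
      rw [map_list_prod, List.map_ofFn, List.prod_ofFn]
      apply Multiplicative.toAdd.injective
      rw [toAdd_prod]
      funext j
      simp [t, hsec, zb, Finset.sum_apply, Pi.single_apply]
    have hax : ∀ x : G, π (x * (sp (π x))⁻¹) = 1 := by
      intro x; rw [map_mul, map_inv, hsp, mul_inv_cancel]
    have htt : ∀ i j, π ⁅t i, t j⁆ = 1 := by
      intro i j
      rw [map_commutatorElement, commutatorElement_eq_one_iff_mul_comm, mul_comm]
    let F1 : {x // x ∈ X} → Additive π.ker := fun x => Additive.ofMul ⟨x.1 * (sp (π x.1))⁻¹, hax x.1⟩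
    let F2 : Fin m × Fin m → Additive π.ker := fun q => Additive.ofMul ⟨⁅t q.1, t q.2⁆, htt _ _⟩
    set W : Submodule (MonoidAlgebra ℤ (Zm m)) (Additive π.ker) :=
      Submodule.span _ (Set.range F1 ∪ Set.range F2) with hW
    have hF1 : ∀ x, F1 x ∈ W := fun x => Submodule.subset_span (Or.inl ⟨x, rfl⟩)
    have hF2 : ∀ q, F2 q ∈ W := fun q => Submodule.subset_span (Or.inr ⟨q, rfl⟩)
    let W' : Subgroup G :=
      { carrier := {g | ∃ h : g ∈ π.ker, Additive.ofMul (⟨g, h⟩ : π.ker) ∈ W}
        mul_mem' := by
          rintro a b ⟨ha, ha'⟩ ⟨hb, hb'⟩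
          exact ⟨mul_mem ha hb, W.add_mem ha' hb'⟩
        one_mem' := ⟨one_mem _, W.zero_mem⟩
        inv_mem' := by
          rintro a ⟨ha, ha'⟩
          exact ⟨inv_mem ha, W.neg_mem ha'⟩ }
    have hWn : W'.Normal := by
      refine ⟨?_⟩
      rintro a ⟨ha, ha'⟩ g
      refine ⟨π.normal_ker.conj_mem a ha g, ?_⟩
      have := W.smul_mem (MonoidAlgebra.of ℤ (Zm m) (π g)) ha'
      rw [hof] at this
      exact this
    -- the quotient
    let q : G →* G ⧸ W' := QuotientGroup.mk' W'
    have hq : ∀ g, q g = 1 ↔ g ∈ W' := fun g => QuotientGroup.eq_one_iff g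
    have hXq : ∀ x ∈ X, q x = q (sp (π x)) := by
      intro x hx
      have h1 : x * (sp (π x))⁻¹ ∈ W' := ⟨hax x, hF1 ⟨x, hx⟩⟩
      rw [← hq, map_mul, map_inv] at h1
      exact mul_inv_eq_one.mp h1
    have htq : ∀ i j, q (t i) * q (t j) = q (t j) * q (t i) := by
      intro i j
      have h1 : ⁅t i, t j⁆ ∈ W' := ⟨htt i j, hF2 (i, j)⟩
      rw [← hq, map_commutatorElement, commutatorElement_eq_one_iff_mul_comm] at h1
      exact h1
    have hgen : Subgroup.closure (Set.range (fun i => q (t i))) = ⊤ := by
      have h1 : Subgroup.closure (q '' (X : Set G)) = ⊤ := by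
        have h2 := congrArg (Subgroup.map q) hX
        rw [MonoidHom.map_closure, ← MonoidHom.range_eq_map] at h2
        have h3 : q.range = ⊤ := MonoidHom.range_eq_top.mpr (QuotientGroup.mk'_surjective _)
        rw [h3] at h2
        exact h2
      rw [eq_top_iff, ← h1, Subgroup.closure_le]
      rintro _ ⟨x, hx, rfl⟩
      rw [SetLike.mem_coe, hXq x hx]
      simp only [sp]
      rw [map_list_prod, List.map_ofFn]
      apply Subgroup.list_prod_mem
      intro y hy
      rw [List.mem_ofFn] at hy
      obtain ⟨i, rfl⟩ := hy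
      rw [Function.comp_apply, map_zpow]
      exact Subgroup.zpow_mem _ (Subgroup.subset_closure (Set.mem_range_self i)) _
    have hqc : ∀ a b : G ⧸ W', a * b = b * a := by
      have hk : ∀ a ∈ Set.range (fun i => q (t i)), ∀ b ∈ Set.range (fun i => q (t i)), a * b = b * a := by
        rintro _ ⟨i, rfl⟩ _ ⟨j, rfl⟩
        exact htq i j
      intro a b
      have ha : a ∈ Subgroup.closure (Set.range (fun i => q (t i))) := hgen ▸ Subgroup.mem_top a
      have hb : b ∈ Subgroup.closure (Set.range (fun i => q (t i))) := hgen ▸ Subgroup.mem_top b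
      have := Subgroup.isMulCommutative_closure hk
      have h3 := this.is_comm.comm (⟨a, ha⟩ : Subgroup.closure (Set.range (fun i => q (t i)))) ⟨b, hb⟩
      exact congrArg Subtype.val h3
    letI : CommGroup (G ⧸ W') := { (inferInstance : Group (G ⧸ W')) with mul_comm := hqc }
    let θ : Zm m →* G ⧸ W' :=
      { toFun := fun v => ∏ i, q (t i) ^ (v.toAdd i)
        map_one' := by simp
        map_mul' := fun v w => by
          rw [← Finset.prod_mul_distrib]
          refine Finset.prod_congr rfl (fun i _ => ?_)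
          rw [toAdd_mul, Pi.add_apply, zpow_add] }
    have hθ : ∀ v, θ v = q (sp v) := by
      intro v
      simp only [sp]
      rw [map_list_prod, List.map_ofFn, List.prod_ofFn]
      change ∏ i, q (t i) ^ (v.toAdd i) = _
      refine Finset.prod_congr rfl (fun i _ => ?_)
      rw [Function.comp_apply, map_zpow]
    have hcomp : θ.comp π = q := by
      apply MonoidHom.eq_of_eqOn_dense hX
      intro x hx
      rw [MonoidHom.comp_apply, hθ, ← hXq x hx]
    have htop : W = ⊤ := by
      rw [eq_top_iff]
      intro x _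
      have h1 : q (x.toMul : G) = 1 := by
        rw [← hcomp, MonoidHom.comp_apply, show π (x.toMul : G) = 1 from x.toMul.2, map_one]
      obtain ⟨h2, h3⟩ := (hq _).mp h1
      exact h3
    rw [← htop]
    exact Submodule.fg_def.mpr ⟨_, (Set.finite_range F1).union (Set.finite_range F2), rfl⟩
  obtain ⟨k, f, hf⟩ := embed_free hfg' htf'
  refine ⟨k, ⟨⟨fun g => if hg : π g = 1 then f (Additive.ofMul ⟨g, hg⟩) else 0, ?_, ?_, ?_⟩⟩⟩
  · intro a b ha hb
    have hab : π (a * b) = 1 := by rw [map_mul, ha, hb, mul_one]
    rw [dif_pos ha, dif_pos hb, dif_pos hab, ← map_add]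
    rfl
  · intro g a ha
    have hga : π (g * a * g⁻¹) = 1 := by rw [map_mul, map_mul, map_inv, ha]; simp
    rw [dif_pos ha, dif_pos hga, ← map_smul, hof]
    rfl
  · intro a ha h0
    rw [dif_pos ha] at h0
    have h1 := hf (h0.trans (map_zero f).symm)
    exact congrArg (fun x : Additive π.ker => (x.toMul : G)) h1

end

end Pool.Agent.H54R3.Rig
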