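import Mathlib
import Pool.Agent.Helper434.PSCplx
import Pool.Agent.Helper993.FKDef

set_option autoImplicit false

open MeasureTheory Filter Topology
open scoped InnerProductSpace CompactlySupported

namespace Pool.Agent.H54R3.Spec508

open Pool.Agent.Helper993.FK (spectralMeasure integral_spectralMeasure)

variable {X : Type} [NormedAddCommGroup X] [InnerProductSpace ℂ X] [CompleteSpace X]

/-- the spectral measure of `H` at `e` -/
noncomputable def mu (H : X →L[ℂ] X) (e : X) : Measure ℝ := spectralMeasure (fun _ : Fin 1 => e) H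

instance (H : X →L[ℂ] X) (e : X) : (mu H e).Regular := by
  unfold mu spectralMeasure
  exact RealRMK.regular_rieszMeasure _

lemma int_cc (H : X →L[ℂ] X) (e : X) (h : C_c(ℝ, ℝ)) :
    ∫ x, h x ∂(mu H e) = (inner ℂ e (cfc (h : ℝ → ℝ) H e)).re := by
  unfold mu
  rw [integral_spectralMeasure]
  simp

lemma int_cs (H : X →L[ℂ] X) (e : X) (h : ℝ → ℝ) (hc : Continuous h) (hs : HasCompactSupport h) :
    ∫ x, h x ∂(mu H e) = (inner ℂ e (cfc h H e)).re :=
  int_cc H e ⟨⟨h, hc⟩, hs⟩

lemma spec_abs {H : X →L[ℂ] X} {x : ℝ} (hx : x ∈ spectrum ℝ H) : |x| ≤ ‖H‖ := by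
  have h := spectrum.norm_le_norm_mul_of_mem hx
  have h1 : ‖(1 : X →L[ℂ] X)‖ ≤ 1 := ContinuousLinearMap.norm_id_le
  calc |x| = ‖x‖ := rfl
    _ ≤ ‖H‖ * ‖(1 : X →L[ℂ] X)‖ := h
    _ ≤ ‖H‖ * 1 := by gcongr
    _ = ‖H‖ := mul_one _

/-- bump vanishing on `[-R, R]` and outside `[-n-1, n+1]`. -/
noncomputable def bump (R : ℝ) (n : ℕ) (x : ℝ) : ℝ :=
  min 1 (max 0 (|x| - R)) * max 0 (min 1 ((n : ℝ) + 1 - |x|))

lemma bump_cont (R : ℝ) (n : ℕ) : Continuous (bump R n) := by
  unfold bump; fun_prop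

lemma bump_nonneg (R : ℝ) (n : ℕ) (x : ℝ) : 0 ≤ bump R n x := by
  unfold bump
  exact mul_nonneg (le_min zero_le_one (le_max_left _ _)) (le_max_left _ _)

lemma bump_zero (R : ℝ) (n : ℕ) {x : ℝ} (hx : |x| ≤ R) : bump R n x = 0 := by
  unfold bump
  rw [max_eq_left (by linarith), min_eq_right zero_le_one, zero_mul]

lemma bump_pos {R : ℝ} {n : ℕ} {x : ℝ} (h1 : R < |x|) (h2 : |x| < n + 1) : 0 < bump R n x := by
  unfold bump
  refine mul_pos (lt_min one_pos (lt_max_of_lt_right (by linarith)))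
    (lt_max_of_lt_right (lt_min one_pos (by linarith)))

lemma hcs_of {h : ℝ → ℝ} {N : ℝ} (hN : ∀ x, N < |x| → h x = 0) : HasCompactSupport h := by
  refine HasCompactSupport.intro (isCompact_Icc (a := -N) (b := N)) ?_
  intro x hx
  apply hN
  by_contra hcon
  push Not at hcon
  exact hx ⟨(abs_le.mp hcon).1, (abs_le.mp hcon).2⟩

lemma bump_cs (R : ℝ) (n : ℕ) : HasCompactSupport (bump R n) := by
  refine hcs_of (N := n + 1) ?_
  intro x hx
  unfold bump
  rw [max_eq_left (min_le_of_right_le (by linarith)), mul_zero]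

lemma cfc_eq_zero {H : X →L[ℂ] X} {h : ℝ → ℝ} (hz : ∀ x, |x| ≤ ‖H‖ → h x = 0) :
    cfc h H = 0 := by
  have : cfc h H = cfc (fun _ : ℝ => (0 : ℝ)) H := cfc_congr (fun x hx => hz x (spec_abs hx))
  rw [this]
  exact cfc_const_zero ℝ H

lemma mu_out (H : X →L[ℂ] X) (e : X) : mu H e {x | ‖H‖ < |x|} = 0 := by
  have h1 : ∀ n : ℕ, mu H e {x | ‖H‖ < |x| ∧ |x| < n + 1} = 0 := by
    intro n
    have h2 := int_cs H e (bump ‖H‖ n) (bump_cont _ _) (bump_cs _ _)
    rw [cfc_eq_zero (fun x hx => bump_zero _ _ hx)] at h2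
    simp only [zero_apply, inner_zero_right, Complex.zero_re] at h2
    have h3 : Integrable (bump ‖H‖ n) (mu H e) :=
      (bump_cont _ _).integrable_of_hasCompactSupport (bump_cs _ _)
    rw [integral_eq_zero_iff_of_nonneg (fun x => bump_nonneg _ _ x) h3] at h2
    refine measure_mono_null ?_ h2
    intro x hx hcon
    exact (bump_pos hx.1 hx.2).ne' hcon
  refine measure_mono_null ?_ (measure_iUnion_null h1)
  intro x hx
  obtain ⟨n, hn⟩ := exists_nat_gt |x|
  exact Set.mem_iUnion.mpr ⟨n, hx, by linarith⟩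

instance mu_fin (H : X →L[ℂ] X) (e : X) : IsFiniteMeasure (mu H e) := by
  constructor
  have h1 : (Set.univ : Set ℝ) ⊆ Set.Icc (-‖H‖) ‖H‖ ∪ {x | ‖H‖ < |x|} := by
    intro x _
    by_cases h : |x| ≤ ‖H‖
    · exact Or.inl ⟨(abs_le.mp h).1, (abs_le.mp h).2⟩
    · exact Or.inr (not_le.mp h)
  refine lt_of_le_of_lt (measure_mono h1) ?_
  refine lt_of_le_of_lt (measure_union_le _ _) ?_
  rw [mu_out, add_zero]
  exact (isCompact_Icc).measure_lt_top

/-- cutoff: `1` on `[-R,R]` -/
noncomputable def cut (R : ℝ) (x : ℝ) : ℝ := max 0 (min 1 (R + 1 - |x|))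

lemma cut_cont (R : ℝ) : Continuous (cut R) := by unfold cut; fun_prop

lemma cut_one {R x : ℝ} (h : |x| ≤ R) : cut R x = 1 := by
  unfold cut
  rw [min_eq_left (by linarith), max_eq_right zero_le_one]

lemma cut_zero {R x : ℝ} (h : R + 1 < |x|) : cut R x = 0 := by
  unfold cut
  rw [max_eq_left (min_le_of_right_le (by linarith))]

lemma key (H : X →L[ℂ] X) (e : X) (f : ℝ → ℝ) (hf : Continuous f) :
    Integrable f (mu H e) ∧ ∫ x, f x ∂(mu H e) = (inner ℂ e (cfc f H e)).re := by
  set g : ℝ → ℝ := fun x => f x * cut ‖H‖ x with hg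
  have gc : Continuous g := hf.mul (cut_cont _)
  have gs : HasCompactSupport g := hcs_of (N := ‖H‖ + 1) (fun x hx => by
    rw [hg]; simp only; rw [cut_zero hx, mul_zero])
  have hae : g =ᵐ[mu H e] f := by
    have : mu H e {x | ¬ (g x = f x)} = 0 := by
      refine measure_mono_null ?_ (mu_out H e)
      intro x hx
      by_contra hcon
      apply hx
      have : |x| ≤ ‖H‖ := not_lt.mp hcon
      rw [hg]; simp only; rw [cut_one this, mul_one]
    exact this
  have gi : Integrable g (mu H e) := gc.integrable_of_hasCompactSupport gs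
  refine ⟨gi.congr hae, ?_⟩
  rw [← integral_congr_ae hae, int_cs H e g gc gs]
  have : cfc g H = cfc f H := cfc_congr (fun x hx => by
    rw [hg]; simp only; rw [cut_one (spec_abs hx), mul_one])
  rw [this]

lemma cfc_sa (H : X →L[ℂ] X) (f : ℝ → ℝ) : IsSelfAdjoint (cfc f H) :=
  cfc_predicate (R := ℝ) (p := IsSelfAdjoint) f H

lemma inner_real (H : X →L[ℂ] X) (e : X) (f : ℝ → ℝ) :
    (inner ℂ e (cfc f H e)).im = 0 := by
  have h1 := (ContinuousLinearMap.isSelfAdjoint_iff_isSymmetric.mp (cfc_sa H f))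
  have h2 : inner ℂ (cfc f H e) e = inner ℂ e (cfc f H e) := h1 e e
  have h3 : (starRingEnd ℂ) (inner ℂ e (cfc f H e)) = inner ℂ e (cfc f H e) := by
    rw [inner_conj_symm]; exact h2
  exact Complex.conj_eq_iff_im.mp h3

lemma key2 (H : X →L[ℂ] X) (e : X) (f : ℝ → ℝ) (hf : Continuous f) :
    Integrable f (mu H e) ∧ ((∫ x, f x ∂(mu H e) : ℝ) : ℂ) = inner ℂ e (cfc f H e) := by
  refine ⟨(key H e f hf).1, ?_⟩
  rw [(key H e f hf).2]
  apply Complex.ext
  · simp
  · simp [inner_real]

lemma norm_cfc {H : X →L[ℂ] X} (hH : IsSelfAdjoint H) (e : X) (f : ℝ → ℝ) (hf : Continuous f) :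
    ‖cfc f H e‖ ^ 2 = ∫ x, f x * f x ∂(mu H e) := by
  rw [(key H e (fun x => f x * f x) (hf.mul hf)).2]
  rw [cfc_mul f f H hf.continuousOn hf.continuousOn]
  have h1 := (ContinuousLinearMap.isSelfAdjoint_iff_isSymmetric.mp (cfc_sa H f))
  have h2 : inner ℂ (cfc f H e) (cfc f H e) = inner ℂ e (cfc f H (cfc f H e)) := h1 e _
  have h3 : (cfc f H * cfc f H) e = cfc f H (cfc f H e) := rfl
  rw [h3, ← h2, inner_self_eq_norm_sq_to_K]
  norm_cast

/-- tent function at `E` -/
noncomputable def tent (E : ℝ) (n : ℕ) (x : ℝ) : ℝ := max 0 (1 - n * |x - E|)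

lemma tent_cont (E : ℝ) (n : ℕ) : Continuous (tent E n) := by unfold tent; fun_prop
lemma tent_nonneg (E : ℝ) (n : ℕ) (x : ℝ) : 0 ≤ tent E n x := le_max_left _ _
lemma tent_le_one (E : ℝ) (n : ℕ) (x : ℝ) : tent E n x ≤ 1 :=
  max_le zero_le_one (by have : 0 ≤ (n : ℝ) * |x - E| := by positivity
                         linarith)
lemma tent_self (E : ℝ) (n : ℕ) : tent E n E = 1 := by simp [tent]
lemma tent_anti (E : ℝ) {m n : ℕ} (h : m ≤ n) (x : ℝ) : tent E n x ≤ tent E m x := by
  unfold tent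
  apply max_le_max le_rfl
  have : (m : ℝ) * |x - E| ≤ n * |x - E| := by gcongr
  linarith

lemma tent_lim (E x : ℝ) : Tendsto (fun n => tent E n x) atTop
    (𝓝 (Set.indicator {E} (fun _ => (1 : ℝ)) x)) := by
  by_cases h : x = E
  · subst h
    simp [tent_self]
  · rw [Set.indicator_of_notMem (by simpa using h)]
    have hpos : 0 < |x - E| := abs_pos.mpr (sub_ne_zero.mpr h)
    obtain ⟨N, hN⟩ := exists_nat_gt (1 / |x - E|)
    refine tendsto_const_nhds.congr' ?_
    filter_upwards [eventually_ge_atTop N] with n hn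
    unfold tent
    rw [max_eq_left]
    have h1 : 1 / |x - E| < n := lt_of_lt_of_le hN (by exact_mod_cast hn)
    rw [div_lt_iff₀ hpos] at h1
    linarith

lemma tent_int_lim (H : X →L[ℂ] X) (e : X) (E : ℝ) :
    Tendsto (fun n => ∫ x, tent E n x ∂(mu H e)) atTop (𝓝 ((mu H e).real {E})) := by
  have h1 : Tendsto (fun n => ∫ x, tent E n x ∂(mu H e)) atTop
      (𝓝 (∫ x, Set.indicator {E} (fun _ => (1 : ℝ)) x ∂(mu H e))) := by
    refine tendsto_integral_of_dominated_convergence (fun _ => (1 : ℝ)) ?_ ?_ ?_ ?_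
    · intro n; exact (tent_cont E n).aestronglyMeasurable
    · exact integrable_const _
    · intro n
      refine Eventually.of_forall (fun x => ?_)
      rw [Real.norm_eq_abs, abs_of_nonneg (tent_nonneg _ _ _)]
      exact tent_le_one _ _ _
    · exact Eventually.of_forall (fun x => tent_lim E x)
  rw [integral_indicator (measurableSet_singleton E)] at h1
  rw [measureReal_def]
  simpa using h1

lemma cs_pos {A : X →L[ℂ] X} (hA : 0 ≤ A) (u v : X) :
    ‖inner ℂ u (A v)‖ ^ 2 ≤ (inner ℂ u (A u)).re * (inner ℂ v (A v)).re := by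
  set B : X →L[ℂ] X := CFC.sqrt A with hB
  have hBB : B * B = A := CFC.sqrt_mul_sqrt_self A hA
  have hB0 : 0 ≤ B := CFC.sqrt_nonneg A
  have hsa : IsSelfAdjoint B := IsSelfAdjoint.of_nonneg hB0
  have hsym := ContinuousLinearMap.isSelfAdjoint_iff_isSymmetric.mp hsa
  have h1 : ∀ x y : X, inner ℂ x (A y) = inner ℂ (B x) (B y) := by
    intro x y
    rw [← hBB]
    exact (hsym x (B y)).symm
  have h2 : ∀ x : X, (inner ℂ x (A x)).re = ‖B x‖ ^ 2 := by
    intro x
    rw [h1, inner_self_eq_norm_sq_to_K]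
    norm_cast
  rw [h2, h2, h1]
  have h3 : ‖inner ℂ (B u) (B v)‖ ≤ ‖B u‖ * ‖B v‖ := norm_inner_le_norm _ _
  calc ‖inner ℂ (B u) (B v)‖ ^ 2 ≤ (‖B u‖ * ‖B v‖) ^ 2 := by gcongr
    _ = ‖B u‖ ^ 2 * ‖B v‖ ^ 2 := by ring

theorem exists_spectral {X : Type} [NormedAddCommGroup X] [InnerProductSpace ℂ X] [CompleteSpace X] (H : X →L[ℂ] X) (hH : IsSelfAdjoint H) (e : X) :
  ∃ μ : Measure ℝ, IsFiniteMeasure μ ∧ (∀ k : ℕ, Integrable (fun x : ℝ => x ^ k) μ) ∧ (∀ k : ℕ, ((∫ x, x ^ k ∂μ : ℝ) : ℂ) = inner ℂ e ((H ^ k) e)) ∧ (∀ f : ℝ → ℝ, Continuous f → Integrable f μ ∧ ((∫ x, f x ∂μ : ℝ) : ℂ) = inner ℂ e (cfc f H e)) ∧ (∀ (E : ℝ) (ψ : X), H ψ = (E : ℂ) • ψ → inner ℂ e ψ ≠ 0 → μ {E} ≠ 0) ∧ (∀ E : ℝ, μ {E} ≠ 0 → ∃ ψ : X, ψ ≠ 0 ∧ H ψ = (E : ℂ) • ψ) := by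
  refine ⟨mu H e, inferInstance, ?_, ?_, ?_, ?_, ?_⟩
  · intro k
    exact (key2 H e (fun x => x ^ k) (continuous_pow k)).1
  · intro k
    rw [(key2 H e (fun x => x ^ k) (continuous_pow k)).2, cfc_pow_id (R := ℝ) H k]
  · intro f hf
    exact key2 H e f hf
  · intro E ψ hψ hne h0
    have hψ0 : ψ ≠ 0 := by
      rintro rfl
      exact hne (inner_zero_right _)
    have hlim := tent_int_lim H e E
    have hreal : (mu H e).real {E} = 0 := by
      rw [measureReal_def, h0]; simp
    rw [hreal] at hlim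
    have hb : ∀ n : ℕ, ‖inner ℂ e ψ‖ ^ 2 ≤ (∫ x, tent E n x ∂(mu H e)) * ‖ψ‖ ^ 2 := by
      intro n
      have hA : (0 : X →L[ℂ] X) ≤ cfc (tent E n) H := cfc_nonneg (fun x _ => tent_nonneg _ _ _)
      have h1 := cs_pos hA e ψ
      have h2 := Pool.Agent.Helper434.PSCplx.cfc_eigen hH hψ0 hψ (tent E n) (tent_cont E n)
      rw [h2, tent_self] at h1
      rw [(key H e (tent E n) (tent_cont E n)).2]
      simp only [Complex.ofReal_one, one_smul] at h1
      have h3 : (inner ℂ ψ ψ).re = ‖ψ‖ ^ 2 := by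
        rw [inner_self_eq_norm_sq_to_K]; norm_cast
      rw [h3] at h1
      exact h1
    have h4 : ‖inner ℂ e ψ‖ ^ 2 ≤ 0 * ‖ψ‖ ^ 2 :=
      ge_of_tendsto' (hlim.mul_const _) hb
    rw [zero_mul] at h4
    have h5 : 0 < ‖inner ℂ e ψ‖ ^ 2 := by
      have := norm_pos_iff.mpr hne
      positivity
    linarith
  · intro E hE
    have hlim := tent_int_lim H e E
    set v : ℕ → X := fun n => cfc (tent E n) H e with hv
    have hsq : ∀ n, ‖v n‖ ^ 2 = ∫ x, tent E n x * tent E n x ∂(mu H e) := fun n =>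
      norm_cfc hH e _ (tent_cont E n)
    have hdiff : ∀ m n, m ≤ n → ‖v m - v n‖ ^ 2 ≤
        (∫ x, tent E m x ∂(mu H e)) - ∫ x, tent E n x ∂(mu H e) := by
      intro m n hmn
      have h1 : v m - v n = cfc (fun x => tent E m x - tent E n x) H e := by
        rw [cfc_sub (tent E m) (tent E n) H (tent_cont E m).continuousOn (tent_cont E n).continuousOn]
        rfl
      have hc : Continuous (fun x => tent E m x - tent E n x) := (tent_cont E m).sub (tent_cont E n)
      rw [h1, norm_cfc hH e _ hc, ← integral_sub (key H e _ (tent_cont E m)).1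
        (key H e _ (tent_cont E n)).1]
      refine integral_mono (key H e _ (hc.mul hc)).1 (key H e _ hc).1 ?_
      intro x
      have a1 := tent_anti E hmn x
      have a2 := tent_le_one E m x
      have a3 := tent_nonneg E n x
      change (tent E m x - tent E n x) * (tent E m x - tent E n x) ≤ tent E m x - tent E n x
      nlinarith
    set a : ℕ → ℝ := fun n => ∫ x, tent E n x ∂(mu H e) with ha
    set L : ℝ := (mu H e).real {E} with hL
    have hanti : ∀ m n, m ≤ n → a n ≤ a m := by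
      intro m n hmn
      exact integral_mono (key H e _ (tent_cont E n)).1 (key H e _ (tent_cont E m)).1
        (fun x => tent_anti E hmn x)
    have hLle : ∀ n, L ≤ a n := fun n =>
      le_of_tendsto hlim (by
        filter_upwards [eventually_ge_atTop n] with m hm
        exact hanti n m hm)
    have hcau : CauchySeq v := by
      refine cauchySeq_of_le_tendsto_0 (fun N => Real.sqrt (a N - L)) ?_ ?_
      · intro n m N hn hm
        rw [dist_eq_norm]
        apply Real.le_sqrt_of_sq_le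
        rcases le_total n m with h | h
        · have := hdiff n m h
          have h1 := hanti N n hn
          have h2 := hLle m
          change ‖v n - v m‖ ^ 2 ≤ a n - a m at this
          linarith
        · have := hdiff m n h
          have h1 := hanti N m hm
          have h2 := hLle n
          change ‖v m - v n‖ ^ 2 ≤ a m - a n at this
          rw [norm_sub_rev]
          linarith
      · have h1 : Tendsto (fun N => a N - L) atTop (𝓝 (L - L)) := hlim.sub_const L
        rw [sub_self] at h1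
        have h2 := (Real.continuous_sqrt.tendsto 0).comp h1
        rw [Real.sqrt_zero] at h2
        exact h2
    obtain ⟨ψ, hψ⟩ := cauchySeq_tendsto_of_complete hcau
    have hLpos : 0 < L := by
      rw [hL, measureReal_def]
      exact ENNReal.toReal_pos hE (measure_ne_top _ _)
    refine ⟨ψ, ?_, ?_⟩
    · have h1 : ∀ n, L ≤ ‖v n‖ ^ 2 := by
        intro n
        rw [hsq n]
        have h2 : L = ∫ x, Set.indicator {E} (fun _ => (1 : ℝ)) x ∂(mu H e) := by
          rw [integral_indicator (measurableSet_singleton E), hL, measureReal_def]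
          simp
        rw [h2]
        refine integral_mono ?_ (key H e _ ((tent_cont E n).mul (tent_cont E n))).1 ?_
        · exact (integrable_const (1 : ℝ)).indicator (measurableSet_singleton E)
        · intro x
          by_cases hx : x = E
          · subst hx
            simp [tent_self]
          · change Set.indicator {E} (fun _ => (1 : ℝ)) x ≤ tent E n x * tent E n x
            rw [Set.indicator_of_notMem (by simpa using hx)]
            exact mul_nonneg (tent_nonneg _ _ _) (tent_nonneg _ _ _)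
      have h2 : Tendsto (fun n => ‖v n‖ ^ 2) atTop (𝓝 (‖ψ‖ ^ 2)) := (hψ.norm).pow 2
      have h3 : L ≤ ‖ψ‖ ^ 2 := ge_of_tendsto' h2 h1
      rintro rfl
      simp at h3
      linarith
    · have h1 : ∀ n : ℕ, 1 ≤ n → ‖H (v n) - (E : ℂ) • v n‖ ^ 2 ≤
          (1 / (n : ℝ)) ^ 2 * (mu H e).real Set.univ := by
        intro n hn
        have hc : Continuous (fun x : ℝ => (x - E) * tent E n x) :=
          (continuous_id.sub continuous_const).mul (tent_cont E n)
        have h2 : H (v n) - (E : ℂ) • v n = cfc (fun x : ℝ => (x - E) * tent E n x) H e := by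
          rw [cfc_mul (fun x : ℝ => x - E) (tent E n) H (by fun_prop) (tent_cont E n).continuousOn,
            cfc_sub (fun x : ℝ => x) (fun _ => E) H (by fun_prop) (by fun_prop), cfc_id' ℝ H,
            cfc_const E H]
          change _ = (H - algebraMap ℝ (X →L[ℂ] X) E) (cfc (tent E n) H e)
          rw [sub_apply, Algebra.algebraMap_eq_smul_one, smul_apply, one_apply_eq_self,
            RCLike.real_smul_eq_coe_smul (K := ℂ)]
          rfl
        rw [h2, norm_cfc hH e _ hc]
        have h3 : (1 / (n : ℝ)) ^ 2 * (mu H e).real Set.univ =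
            ∫ _x : ℝ, (1 / (n : ℝ)) ^ 2 ∂(mu H e) := by
          rw [integral_const, smul_eq_mul, mul_comm]
        rw [h3]
        refine integral_mono (key H e _ (hc.mul hc)).1 (integrable_const _) ?_
        intro x
        have hn' : (0 : ℝ) < n := by exact_mod_cast hn
        have h4 : |(x - E) * tent E n x| ≤ 1 / (n : ℝ) := by
          rw [abs_mul, abs_of_nonneg (tent_nonneg E n x)]
          by_cases hx : (n : ℝ) * |x - E| ≤ 1
          · have h5 : |x - E| ≤ 1 / n := by
              rw [le_div_iff₀ hn']; linarith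
            calc |x - E| * tent E n x ≤ |x - E| * 1 := by
                  gcongr
                  exact tent_le_one _ _ _
              _ ≤ 1 / n := by linarith
          · have h6 : tent E n x = 0 := by
              unfold tent
              rw [max_eq_left (by linarith [not_le.mp hx])]
            rw [h6, mul_zero]
            positivity
        change ((x - E) * tent E n x) * ((x - E) * tent E n x) ≤ (1 / (n : ℝ)) ^ 2
        rw [← sq, ← sq_abs]
        gcongr
      have h2 : Tendsto (fun n : ℕ => ‖H (v n) - (E : ℂ) • v n‖ ^ 2) atTop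
          (𝓝 (‖H ψ - (E : ℂ) • ψ‖ ^ 2)) := by
        have h3 : Tendsto (fun n : ℕ => H (v n)) atTop (𝓝 (H ψ)) := (H.continuous.tendsto ψ).comp hψ
        exact ((h3.sub (hψ.const_smul _)).norm).pow 2
      have h3 : Tendsto (fun n : ℕ => (1 / (n : ℝ)) ^ 2 * (mu H e).real Set.univ) atTop (𝓝 0) := by
        have h4 : Tendsto (fun n : ℕ => 1 / (n : ℝ)) atTop (𝓝 0) := tendsto_one_div_atTop_nhds_zero_nat
        have h5 := (h4.pow 2).mul_const ((mu H e).real Set.univ)
        simpa using h5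
      have h4 : ‖H ψ - (E : ℂ) • ψ‖ ^ 2 ≤ 0 := by
        refine le_of_tendsto_of_tendsto h2 h3 ?_
        filter_upwards [eventually_ge_atTop 1] with n hn
        exact h1 n hn
      have h5 : ‖H ψ - (E : ℂ) • ψ‖ = 0 := by
        have := norm_nonneg (H ψ - (E : ℂ) • ψ)
        nlinarith
      exact sub_eq_zero.mp (norm_eq_zero.mp h5)

end Pool.Agent.H54R3.Spec508
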