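import Mathlib

set_option autoImplicit false

open MeasureTheory Filter Topology

namespace Pool.Agent.H54R3.Meas508

/-- Fejer kernel -/
noncomputable def FF (n : ℕ) (x : ℝ) : ℝ :=
  (1 / n) * ((∑ j ∈ Finset.range n, Real.cos (2 * j * x)) ^ 2 +
    (∑ j ∈ Finset.range n, Real.sin (2 * j * x)) ^ 2)

lemma FF_eq (n : ℕ) (x : ℝ) : FF n x = (1 / n) * ∑ j ∈ Finset.range n, ∑ k ∈ Finset.range n,
    Real.cos (2 * ((j : ℝ) - k) * x) := by
  unfold FF
  congr 1
  rw [sq, sq, Finset.sum_mul_sum, Finset.sum_mul_sum, ← Finset.sum_add_distrib]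
  refine Finset.sum_congr rfl (fun j _ => ?_)
  rw [← Finset.sum_add_distrib]
  refine Finset.sum_congr rfl (fun k _ => ?_)
  rw [show 2 * ((j : ℝ) - k) * x = 2 * j * x - 2 * k * x by ring, Real.cos_sub]

lemma FF_nonneg (n : ℕ) (x : ℝ) : 0 ≤ FF n x := by unfold FF; positivity

lemma FF_cont (n : ℕ) : Continuous (FF n) := by unfold FF; fun_prop

lemma FF_le {n : ℕ} (hn : 1 ≤ n) (x : ℝ) : FF n x ≤ n := by
  have hn' : (0 : ℝ) < n := by exact_mod_cast hn
  rw [FF_eq]
  have : ∑ j ∈ Finset.range n, ∑ k ∈ Finset.range n, Real.cos (2 * ((j : ℝ) - k) * x) ≤ n * n := by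
    calc _ ≤ ∑ j ∈ Finset.range n, ∑ k ∈ Finset.range n, (1 : ℝ) := by
          gcongr
          exact Real.cos_le_one _
      _ = n * n := by simp
  calc (1 / (n : ℝ)) * _ ≤ (1 / n) * (n * n) := by gcongr
    _ = n := by field_simp

lemma abs_sin_mul (j : ℕ) (x : ℝ) : |Real.sin (j * x)| ≤ j * |Real.sin x| := by
  induction j with
  | zero => simp
  | succ j ih =>
    push_cast
    rw [add_mul, one_mul, Real.sin_add]
    calc |Real.sin (j * x) * Real.cos x + Real.cos (j * x) * Real.sin x|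
        ≤ |Real.sin (j * x) * Real.cos x| + |Real.cos (j * x) * Real.sin x| := abs_add_le _ _
      _ = |Real.sin (j * x)| * |Real.cos x| + |Real.cos (j * x)| * |Real.sin x| := by
          rw [abs_mul, abs_mul]
      _ ≤ |Real.sin (j * x)| * 1 + 1 * |Real.sin x| := by
          gcongr
          · exact Real.abs_cos_le_one _
          · exact Real.abs_cos_le_one _
      _ ≤ (j + 1) * |Real.sin x| := by linarith

lemma FF_big {n : ℕ} (hn : 1 ≤ n) {x : ℝ} (hx : |Real.sin x| < 1 / (4 * n)) : (n : ℝ) / 4 ≤ FF n x := by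
  have hn' : (0 : ℝ) < n := by exact_mod_cast hn
  have h1 : ∀ j ∈ Finset.range n, (1 / 2 : ℝ) ≤ Real.cos (2 * j * x) := by
    intro j hj
    have hj' : (j : ℝ) ≤ n := by exact_mod_cast (Finset.mem_range.mp hj).le
    have h2 : |Real.sin (j * x)| ≤ 1 / 4 := by
      calc |Real.sin (j * x)| ≤ j * |Real.sin x| := abs_sin_mul j x
        _ ≤ n * (1 / (4 * n)) := by gcongr
        _ = 1 / 4 := by field_simp
    have h3 : Real.cos (2 * j * x) = 1 - 2 * Real.sin (j * x) ^ 2 := by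
      rw [show 2 * (j : ℝ) * x = 2 * (j * x) by ring, Real.cos_two_mul, Real.cos_sq']
      ring
    have h4 : Real.sin (j * x) ^ 2 ≤ (1 / 4) ^ 2 := by
      rw [← sq_abs]
      gcongr
    rw [h3]; nlinarith
  have h2 : (n : ℝ) / 2 ≤ ∑ j ∈ Finset.range n, Real.cos (2 * j * x) := by
    calc (n : ℝ) / 2 = ∑ j ∈ Finset.range n, (1 / 2 : ℝ) := by simp; ring
      _ ≤ _ := Finset.sum_le_sum h1
  unfold FF
  have h3 : ((n : ℝ) / 2) ^ 2 ≤ (∑ j ∈ Finset.range n, Real.cos (2 * j * x)) ^ 2 := by gcongr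
  calc (n : ℝ) / 4 = (1 / n) * (((n : ℝ) / 2) ^ 2 + 0) := by field_simp; ring
    _ ≤ _ := by
      gcongr
      positivity

lemma telesc (c : ℝ) (m0 M : ℕ) : 2 * Real.sin c * ∑ m ∈ Finset.range M,
    Real.cos (c * (2 * ((m0 + m : ℕ) : ℝ) + 1)) =
    Real.sin (c * (2 * ((m0 + M : ℕ) : ℝ))) - Real.sin (c * (2 * (m0 : ℝ))) := by
  induction M with
  | zero => simp
  | succ M ih =>
    rw [Finset.sum_range_succ, mul_add, ih]
    have h1 : c * (2 * ((m0 + (M + 1) : ℕ) : ℝ)) = c * (2 * ((m0 + M : ℕ) : ℝ) + 1) + c := by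
      push_cast; ring
    have h2 : c * (2 * ((m0 + M : ℕ) : ℝ)) = c * (2 * ((m0 + M : ℕ) : ℝ) + 1) - c := by
      push_cast; ring
    rw [h1, h2, Real.sin_add, Real.sin_sub]
    ring

lemma avg_bound {c : ℝ} (hc : Real.sin c ≠ 0) (m0 M : ℕ) :
    |∑ m ∈ Finset.range M, Real.cos (c * (2 * ((m0 + m : ℕ) : ℝ) + 1))| ≤ 1 / |Real.sin c| := by
  have h := telesc c m0 M
  have h1 : |2 * Real.sin c * ∑ m ∈ Finset.range M, Real.cos (c * (2 * ((m0 + m : ℕ) : ℝ) + 1))| ≤ 2 := by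
    rw [h]
    calc _ ≤ |Real.sin (c * (2 * ((m0 + M : ℕ) : ℝ)))| + |Real.sin (c * (2 * (m0 : ℝ)))| := abs_sub _ _
      _ ≤ 1 + 1 := add_le_add (Real.abs_sin_le_one _) (Real.abs_sin_le_one _)
      _ = 2 := by norm_num
  have hpos : 0 < |Real.sin c| := abs_pos.mpr hc
  rw [le_div_iff₀ hpos]
  rw [abs_mul, abs_mul, abs_two] at h1
  linarith

lemma avg_lim {c : ℝ} (hc : Real.sin c ≠ 0) (m0 : ℕ) :
    Tendsto (fun M : ℕ => (1 / (M : ℝ)) * ∑ m ∈ Finset.range M,
      Real.cos (c * (2 * ((m0 + m : ℕ) : ℝ) + 1))) atTop (𝓝 0) := by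
  have h1 : Tendsto (fun M : ℕ => (1 / (M : ℝ)) * (1 / |Real.sin c|)) atTop (𝓝 0) := by
    have := (tendsto_one_div_atTop_nhds_zero_nat (𝕜 := ℝ)).mul_const (1 / |Real.sin c|)
    rwa [zero_mul] at this
  refine squeeze_zero_norm (fun M => ?_) h1
  rw [Real.norm_eq_abs, abs_mul, abs_of_nonneg (by positivity : (0 : ℝ) ≤ 1 / (M : ℝ))]
  exact mul_le_mul_of_nonneg_left (avg_bound hc m0 M) (by positivity)

/-- averages of the Fejer kernel -/
noncomputable def AA (n m0 M : ℕ) (t : ℝ) : ℝ :=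
  (1 / (M : ℝ)) * ∑ m ∈ Finset.range M, FF n ((2 * ((m0 + m : ℕ) : ℝ) + 1) * t)

lemma AA_lim {n : ℕ} (hn : 1 ≤ n) (m0 : ℕ) {t : ℝ} (ht : ∀ r : ℕ, 1 ≤ r → Real.sin (2 * r * t) ≠ 0) :
    Tendsto (fun M => AA n m0 M t) atTop (𝓝 1) := by
  have hn' : (n : ℝ) ≠ 0 := by positivity
  have h1 : ∀ M : ℕ, 1 ≤ M → AA n m0 M t = (1 / n) * ∑ j ∈ Finset.range n, ∑ k ∈ Finset.range n,
      (1 / (M : ℝ)) * ∑ m ∈ Finset.range M, Real.cos ((2 * ((j : ℝ) - k) * t) * (2 * ((m0 + m : ℕ) : ℝ) + 1)) := by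
    intro M _
    unfold AA
    simp only [FF_eq]
    rw [← Finset.mul_sum, Finset.sum_comm]
    rw [mul_left_comm, Finset.mul_sum]
    congr 1
    refine Finset.sum_congr rfl (fun j _ => ?_)
    rw [Finset.sum_comm, Finset.mul_sum]
    refine Finset.sum_congr rfl (fun k _ => ?_)
    congr 1
    refine Finset.sum_congr rfl (fun m _ => ?_)
    congr 1
    ring
  have h2 : ∀ j k : ℕ, Tendsto (fun M : ℕ => (1 / (M : ℝ)) * ∑ m ∈ Finset.range M,
      Real.cos ((2 * ((j : ℝ) - k) * t) * (2 * ((m0 + m : ℕ) : ℝ) + 1))) atTop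
      (𝓝 (if j = k then 1 else 0)) := by
    intro j k
    by_cases hjk : j = k
    · subst hjk
      rw [if_pos rfl]
      refine tendsto_const_nhds.congr' ?_
      filter_upwards [eventually_ge_atTop 1] with M hM
      have hM' : (M : ℝ) ≠ 0 := by positivity
      simp
      field_simp
    · rw [if_neg hjk]
      apply avg_lim
      rcases lt_or_gt_of_ne hjk with h | h
      · have h3 := ht (k - j) (by omega)
        rw [show 2 * ((j : ℝ) - k) * t = -(2 * ((k - j : ℕ) : ℝ) * t) by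
          rw [Nat.cast_sub h.le]; ring, Real.sin_neg]
        exact neg_ne_zero.mpr h3
      · have h3 := ht (j - k) (by omega)
        rw [show 2 * ((j : ℝ) - k) * t = 2 * ((j - k : ℕ) : ℝ) * t by
          rw [Nat.cast_sub h.le]]
        exact h3
  have h3 : Tendsto (fun M : ℕ => (1 / (n : ℝ)) * ∑ j ∈ Finset.range n, ∑ k ∈ Finset.range n,
      (1 / (M : ℝ)) * ∑ m ∈ Finset.range M, Real.cos ((2 * ((j : ℝ) - k) * t) * (2 * ((m0 + m : ℕ) : ℝ) + 1)))
      atTop (𝓝 ((1 / n) * ∑ j ∈ Finset.range n, ∑ k ∈ Finset.range n, if j = k then (1 : ℝ) else 0)) :=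
    (tendsto_finsetSum _ (fun j _ => tendsto_finsetSum _ (fun k _ => h2 j k))).const_mul _
  have h4 : (1 / (n : ℝ)) * ∑ j ∈ Finset.range n, ∑ k ∈ Finset.range n, (if j = k then (1 : ℝ) else 0) = 1 := by
    have : ∀ j ∈ Finset.range n, ∑ k ∈ Finset.range n, (if j = k then (1 : ℝ) else 0) = 1 := by
      intro j hj
      rw [Finset.sum_ite_eq, if_pos hj]
    rw [Finset.sum_congr rfl this]
    simp
    field_simp
  rw [h4] at h3
  refine h3.congr' ?_
  filter_upwards [eventually_ge_atTop 1] with M hM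
  exact (h1 M hM).symm

theorem good_m (θ : ℝ → ℝ) (hθ : Measurable θ) (S : Set ℝ) (hS : MeasurableSet S) (hfin : volume S ≠ ⊤) (hirr : ∀ r : ℕ, 1 ≤ r → volume {e ∈ S | Real.sin (2 * r * θ e) = 0} = 0) (n : ℕ) (hn : 1 ≤ n) (m0 : ℕ) : ∃ m : ℕ, m0 ≤ m ∧ volume {e ∈ S | |Real.sin ((2 * m + 1) * θ e)| < 1 / (4 * n)} ≤ ENNReal.ofReal (8 / n) * volume S := by
  by_cases h0 : volume S = 0
  · refine ⟨m0, le_rfl, ?_⟩
    have : volume {e ∈ S | |Real.sin ((2 * m0 + 1) * θ e)| < 1 / (4 * n)} = 0 :=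
      measure_mono_null (fun e he => he.1) h0
    rw [this]
    exact bot_le
  have hn' : (0 : ℝ) < n := by exact_mod_cast hn
  set μ : Measure ℝ := volume.restrict S with hμ
  have hfinm : IsFiniteMeasure μ := ⟨by rw [hμ, Measure.restrict_apply_univ]; exact lt_top_iff_ne_top.mpr hfin⟩
  have hpos : 0 < (volume S).toReal := ENNReal.toReal_pos h0 hfin
  have hint : ∀ m : ℕ, Integrable (fun e => FF n ((2 * (m : ℝ) + 1) * θ e)) μ := by
    intro m
    refine Integrable.of_bound (C := n) ?_ ?_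
    · exact ((FF_cont n).measurable.comp (measurable_const.mul hθ)).aestronglyMeasurable
    · refine Eventually.of_forall (fun e => ?_)
      rw [Real.norm_eq_abs, abs_of_nonneg (FF_nonneg _ _)]
      exact FF_le hn _
  have hlim : Tendsto (fun M => ∫ e, AA n m0 M (θ e) ∂μ) atTop (𝓝 (∫ _e : ℝ, (1 : ℝ) ∂μ)) := by
    refine tendsto_integral_of_dominated_convergence (fun _ => (n : ℝ)) ?_ ?_ ?_ ?_
    · intro M
      unfold AA
      refine Measurable.aestronglyMeasurable ?_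
      refine measurable_const.mul (Finset.measurable_sum _ (fun m _ => ?_))
      exact (FF_cont n).measurable.comp (measurable_const.mul hθ)
    · exact integrable_const _
    · intro M
      refine Eventually.of_forall (fun e => ?_)
      unfold AA
      rw [Real.norm_eq_abs, abs_of_nonneg (mul_nonneg (by positivity) (Finset.sum_nonneg (fun m _ => FF_nonneg _ _)))]
      rcases Nat.eq_zero_or_pos M with rfl | hM
      · simp
      · have hM' : (0 : ℝ) < M := by exact_mod_cast hM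
        calc (1 / (M : ℝ)) * ∑ m ∈ Finset.range M, FF n ((2 * ((m0 + m : ℕ) : ℝ) + 1) * θ e)
            ≤ (1 / (M : ℝ)) * ∑ m ∈ Finset.range M, (n : ℝ) := by
              gcongr
              exact FF_le hn _
          _ = n := by simp; field_simp
    · have hae : ∀ r : ℕ, ∀ᵐ e ∂μ, 1 ≤ r → Real.sin (2 * r * θ e) ≠ 0 := by
        intro r
        by_cases hr : 1 ≤ r
        · rw [hμ, ae_restrict_iff' hS]
          have h1 : volume {e | ¬ (e ∈ S → 1 ≤ r → Real.sin (2 * r * θ e) ≠ 0)} = 0 := by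
            refine measure_mono_null ?_ (hirr r hr)
            intro e he
            simp only [Set.mem_ofPred_eq, not_forall, not_not] at he
            obtain ⟨h1, _, h3⟩ := he
            exact ⟨h1, h3⟩
          exact h1
        · exact Eventually.of_forall (fun e h => absurd h hr)
      filter_upwards [ae_all_iff.mpr hae] with e he
      exact AA_lim hn m0 he
  rw [integral_const, smul_eq_mul, mul_one] at hlim
  have hreal : μ.real Set.univ = (volume S).toReal := by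
    rw [measureReal_def, hμ, Measure.restrict_apply_univ]
  rw [hreal] at hlim
  have hev := (hlim.eventually (gt_mem_nhds (show (volume S).toReal < 2 * (volume S).toReal by linarith))).and
    (eventually_ge_atTop 1)
  obtain ⟨M, hM1, hM2⟩ := hev.exists
  have hM' : (0 : ℝ) < M := by exact_mod_cast hM2
  obtain ⟨m, hm⟩ : ∃ m : ℕ, ∫ e, FF n ((2 * ((m0 + m : ℕ) : ℝ) + 1) * θ e) ∂μ ≤ 2 * (volume S).toReal := by
    by_contra hcon
    push Not at hcon
    have h1 : ∫ e, AA n m0 M (θ e) ∂μ = (1 / (M : ℝ)) * ∑ m ∈ Finset.range M,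
        ∫ e, FF n ((2 * ((m0 + m : ℕ) : ℝ) + 1) * θ e) ∂μ := by
      unfold AA
      rw [integral_const_mul, integral_finsetSum _ (fun m _ => hint (m0 + m))]
    have h2 : ∑ m ∈ Finset.range M, 2 * (volume S).toReal ≤ ∑ m ∈ Finset.range M,
        ∫ e, FF n ((2 * ((m0 + m : ℕ) : ℝ) + 1) * θ e) ∂μ :=
      Finset.sum_le_sum (fun m _ => (hcon m).le)
    rw [h1] at hM1
    have h3 : (1 / (M : ℝ)) * ∑ m ∈ Finset.range M, 2 * (volume S).toReal = 2 * (volume S).toReal := by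
      simp; field_simp
    have h4 : (1 / (M : ℝ)) * ∑ m ∈ Finset.range M, 2 * (volume S).toReal ≤ (1 / (M : ℝ)) * ∑ m ∈ Finset.range M,
        ∫ e, FF n ((2 * ((m0 + m : ℕ) : ℝ) + 1) * θ e) ∂μ := by gcongr
    linarith
  refine ⟨m0 + m, Nat.le_add_right _ _, ?_⟩
  have hmark := mul_meas_ge_le_integral_of_nonneg (μ := μ)
    (f := fun e => FF n ((2 * ((m0 + m : ℕ) : ℝ) + 1) * θ e))
    (Eventually.of_forall (fun e => FF_nonneg _ _)) (hint (m0 + m)) ((n : ℝ) / 4)
  set Bad : Set ℝ := {e ∈ S | |Real.sin ((2 * ((m0 + m : ℕ) : ℝ) + 1) * θ e)| < 1 / (4 * n)} with hBad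
  have hsub : volume Bad ≤ μ {e | (n : ℝ) / 4 ≤ FF n ((2 * ((m0 + m : ℕ) : ℝ) + 1) * θ e)} := by
    rw [hμ, Measure.restrict_apply' hS]
    refine measure_mono ?_
    intro e he
    exact ⟨FF_big hn he.2, he.1⟩
  set q := μ {e | (n : ℝ) / 4 ≤ FF n ((2 * ((m0 + m : ℕ) : ℝ) + 1) * θ e)} with hq
  have hqfin : q ≠ ⊤ := measure_ne_top _ _
  have h5 : (n : ℝ) / 4 * q.toReal ≤ 2 * (volume S).toReal := hmark.trans hm
  have h6 : q.toReal ≤ 8 / n * (volume S).toReal := by
    have h7 : q.toReal = (4 / n) * ((n : ℝ) / 4 * q.toReal) := by field_simp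
    rw [h7]
    calc (4 / (n : ℝ)) * ((n : ℝ) / 4 * q.toReal) ≤ (4 / n) * (2 * (volume S).toReal) := by gcongr
      _ = 8 / n * (volume S).toReal := by ring
  refine hsub.trans ?_
  rw [← ENNReal.ofReal_toReal hqfin, ← ENNReal.ofReal_toReal hfin, ← ENNReal.ofReal_mul (by positivity)]
  exact ENNReal.ofReal_le_ofReal h6

theorem null_of_poly (p : Polynomial ℝ) (hp : 0 < p.natDegree) (r : ℕ) (hr : 1 ≤ r) : volume {e : ℝ | |p.eval e| ≤ 2 ∧ Real.sin (2 * r * Real.arccos (p.eval e / 2)) = 0} = 0 := by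
  have hfin : Set.Finite (⋃ k ∈ Finset.range (2 * r + 1),
      {e : ℝ | (p - Polynomial.C (2 * Real.cos (k * Real.pi / (2 * r)))).IsRoot e}) := by
    refine Set.Finite.biUnion (Finset.finite_toSet _) (fun k _ => ?_)
    refine Polynomial.finite_setOfPred_isRoot ?_
    intro h0
    rw [sub_eq_zero] at h0
    rw [h0, Polynomial.natDegree_C] at hp
    exact lt_irrefl _ hp
  refine measure_mono_null ?_ (hfin.measure_zero volume)
  rintro e ⟨h1, h2⟩
  have hr' : (0 : ℝ) < r := by exact_mod_cast hr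
  obtain ⟨k, hk⟩ := Real.sin_eq_zero_iff.mp h2
  have ha := Real.arccos_nonneg (p.eval e / 2)
  have hb := Real.arccos_le_pi (p.eval e / 2)
  have hk0 : 0 ≤ k := by
    have : (0 : ℝ) ≤ k * Real.pi := by rw [hk]; positivity
    have h3 : (0 : ℝ) ≤ k := nonneg_of_mul_nonneg_left this Real.pi_pos
    exact_mod_cast h3
  have hk1 : k ≤ 2 * r := by
    have : (k : ℝ) * Real.pi ≤ (2 * r) * Real.pi := by
      rw [hk]; gcongr
    have h3 : (k : ℝ) ≤ 2 * r := le_of_mul_le_mul_right this Real.pi_pos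
    exact_mod_cast h3
  obtain ⟨k', rfl⟩ := Int.eq_ofNat_of_zero_le hk0
  simp only [Set.mem_iUnion]
  refine ⟨k', Finset.mem_range.mpr (by omega), ?_⟩
  have h4 : Real.arccos (p.eval e / 2) = k' * Real.pi / (2 * r) := by
    rw [eq_div_iff (by positivity)]
    push_cast at hk
    linarith
  have h5 : Real.cos (Real.arccos (p.eval e / 2)) = p.eval e / 2 := by
    apply Real.cos_arccos
    · have := (abs_le.mp h1).1; linarith
    · have := (abs_le.mp h1).2; linarith
  change (p - _).IsRoot e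
  rw [Polynomial.IsRoot, Polynomial.eval_sub, Polynomial.eval_C, ← h4, h5]
  ring

end Pool.Agent.H54R3.Meas508
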