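import Mathlib
import Pool.Agent.H577R3.Defs2
import Pool.Agent.H577R3.TaskNZD
import Pool.Agent.Helper777.Prof.P_dq_embed
import Pool.Agent.Helper777.Prof.P_rf_dq

set_option autoImplicit false

/-! finite quotients of the Magnus embedding -/

namespace Pool.Agent.H54R3.Aff

open Pool.Agent.Helper777.Prof Pool.Agent.H577R3

section pairing
variable {G M : Type} [Group G] [AddCommGroup M]

/-- pairing of the group ring with functions on the group -/
noncomputable def pair (φ : G → M) (x : MonoidAlgebra ℤ G) : M := Finsupp.linearCombination ℤ φ x.coeff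

lemma pair_zero (φ : G → M) : pair φ 0 = 0 := by simp [pair]

lemma pair_add (φ : G → M) (x y : MonoidAlgebra ℤ G) : pair φ (x + y) = pair φ x + pair φ y := by
  unfold pair
  rw [MonoidAlgebra.coeff_add, map_add]

lemma pair_single (φ : G → M) (g : G) (c : ℤ) : pair φ (MonoidAlgebra.single g c) = c • φ g := by
  unfold pair
  rw [MonoidAlgebra.coeff_single, Finsupp.linearCombination_single]

lemma pair_of_mul (φ : G → M) (g : G) (x : MonoidAlgebra ℤ G) :
    pair φ (MonoidAlgebra.of ℤ G g * x) = pair (fun y => φ (g * y)) x := by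
  induction x using MonoidAlgebra.induction_linear with
  | zero => rw [mul_zero, pair_zero, pair_zero]
  | add x y hx hy => rw [mul_add, pair_add, pair_add, hx, hy]
  | single h c =>
    rw [MonoidAlgebra.of_apply, MonoidAlgebra.single_mul_single, one_mul, pair_single, pair_single]

lemma pair_map {N : Type} [AddCommGroup N] (f : M →+ N) (φ : G → M) (x : MonoidAlgebra ℤ G) :
    f (pair φ x) = pair (fun y => f (φ y)) x := by
  induction x using MonoidAlgebra.induction_linear with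
  | zero => rw [pair_zero, pair_zero, map_zero]
  | add x y hx hy => rw [pair_add, pair_add, map_add, hx, hy]
  | single h c => rw [pair_single, pair_single, map_zsmul]

lemma pair_sum (φ : G → M) (x : MonoidAlgebra ℤ G) :
    pair φ x = ∑ g ∈ x.coeff.support, x.coeff g • φ g := rfl

/-- a delta function picks a coefficient -/
lemma pair_delta {Λ : Type} [DecidableEq Λ] (q : G → Λ) {E : Set G} (hq : Set.InjOn q E)
    {x : MonoidAlgebra ℤ G} (hx : ∀ g, x.coeff g ≠ 0 → g ∈ E) {y0 : G} (hy0 : y0 ∈ E) :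
    pair (fun y => if q y = q y0 then (1 : ℤ) else 0) x = x.coeff y0 := by
  rw [pair_sum, Finset.sum_eq_single y0]
  · rw [if_pos rfl, smul_eq_mul, mul_one]
  · intro g hg hne
    rw [if_neg, smul_zero]
    intro h
    exact hne (hq (hx g (Finsupp.mem_support_iff.mp hg)) hy0 h)
  · intro h
    rw [Finsupp.notMem_support_iff.mp h, zero_smul]

lemma pair_delta_zero {Λ : Type} [DecidableEq Λ] (q : G → Λ) {x : MonoidAlgebra ℤ G} {z : Λ}
    (h : ∀ g, x.coeff g ≠ 0 → q g ≠ z) :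
    pair (fun y => if q y = z then (1 : ℤ) else 0) x = 0 := by
  rw [pair_sum]
  refine Finset.sum_eq_zero (fun g hg => ?_)
  rw [if_neg (h g (Finsupp.mem_support_iff.mp hg)), smul_zero]

end pairing

lemma exists_quot {L : Type} [Group L] (hrf : RF0 L) (E : Finset L) :
    ∃ (Λ : Type) (_ : Group Λ) (_ : Finite Λ) (q : L →* Λ), Set.InjOn q (E : Set L) := by
  classical
  choose Q hQg hQf f hf using hrf
  let I := {u : E × E // u.1 ≠ u.2}
  have hI : ∀ u : I, (u.1.1 : L) * (u.1.2 : L)⁻¹ ≠ 1 := by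
    intro u h
    exact u.2 (Subtype.ext (mul_inv_eq_one.mp h))
  letI : ∀ u : I, Group (Q _ (hI u)) := fun u => hQg _ (hI u)
  haveI : ∀ u : I, Finite (Q _ (hI u)) := fun u => hQf _ (hI u)
  refine ⟨∀ u : I, Q _ (hI u), inferInstance, inferInstance, Pi.monoidHom (fun u => f _ (hI u)), ?_⟩
  intro x hx y hy hxy
  by_contra hne
  let u : I := ⟨(⟨x, hx⟩, ⟨y, hy⟩), fun h => hne (congrArg Subtype.val h)⟩
  have h1 : f _ (hI u) x = f _ (hI u) y := congrFun hxy u
  apply hf _ (hI u)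
  change f _ (hI u) (x * y⁻¹) = 1
  rw [map_mul, map_inv, h1, mul_inv_cancel]

/-- finite quotient of Magnus data -/
theorem fin_data (n d : ℕ) (S : Finset (Dq (Fin n) (d + 1))) (k0 : Dq (Fin n) (d + 1))
    (hk0 : k0 ∈ derivedSeries (Dq (Fin n) (d + 1)) d) (hk1 : k0 ≠ 1) :
    ∃ (Λ : Type) (_ : Group Λ) (_ : Finite Λ) (κ : Dq (Fin n) (d + 1) →* Λ)
      (Q : Fin n → Dq (Fin n) (d + 1) → Λ → ℤ),
      (∀ i g h x, Q i (g * h) x = Q i g x + Q i h ((κ g)⁻¹ * x)) ∧
      (∀ g ∈ S, ∀ g' ∈ S, κ g = κ g' → (∀ i x, Q i g x = Q i g' x) → g = g') ∧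
      (∀ g ∈ derivedSeries (Dq (Fin n) (d + 1)) d, κ g = 1) ∧
      (∀ l l' : Λ, (∀ i x, Q i k0 (l * x) = Q i k0 (l' * x)) → l = l') := by
  classical
  obtain ⟨f, hf, hfm⟩ := dq_embed (ι := Fin n) d
  let ℓ : Dq (Fin n) (d + 1) →* Dq (Fin n) d := ⟨⟨fun t => (f t).m, by rw [map_one]; rfl⟩,
    fun a b => by change (f (a * b)).m = _; rw [map_mul]; rfl⟩
  have hℓd : ∀ g ∈ derivedSeries (Dq (Fin n) (d + 1)) d, ℓ g = 1 := by
    intro g hg
    have h1 : ℓ g ∈ derivedSeries (Dq (Fin n) d) d :=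
      map_derivedSeries_le_derivedSeries ℓ d (Subgroup.mem_map_of_mem ℓ hg)
    have h2 : derivedSeries (Dq (Fin n) d) d = ⊥ := by
      rw [eq_bot_iff]
      have hs : Function.Surjective (QuotientGroup.mk' (derivedSeries (FreeGroup (Fin n)) d)) :=
        QuotientGroup.mk'_surjective _
      rw [← map_derivedSeries_eq hs, Subgroup.map_le_iff_le_comap]
      intro w hw
      exact (QuotientGroup.eq_one_iff w).mpr hw
    rw [h2] at h1
    exact Subgroup.mem_bot.mp h1
  have hv0 : (f k0).v ≠ 0 := by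
    intro h0
    apply hk1
    apply hf
    rw [map_one]
    exact Wr.ext h0 (hℓd k0 hk0)
  obtain ⟨i0, hi0⟩ : ∃ i, (f k0).v i ≠ 0 := by
    by_contra hcon
    push Not at hcon
    exact hv0 (funext hcon)
  set a0 := (f k0).v i0 with ha0
  have hsup : ∀ (x : MonoidAlgebra ℤ (Dq (Fin n) d)), x ≠ 0 → ∃ y, x.coeff y ≠ 0 := by
    intro x hx
    by_contra hcon
    push Not at hcon
    apply hx
    ext g
    simpa using hcon g
  obtain ⟨y0, hy0⟩ := hsup a0 hi0
  let A : Finset (Dq (Fin n) d) := a0.coeff.support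
  let E1 : Finset (Dq (Fin n) d) := ((A ×ˢ A) ×ˢ A).image (fun u => u.1.1 * u.1.2⁻¹ * u.2)
  have hE1 : ∀ a ∈ A, ∀ b ∈ A, ∀ c ∈ A, a * b⁻¹ * c ∈ E1 := by
    intro a ha b hb c hc
    refine Finset.mem_image.mpr ⟨((a, b), c), ?_, rfl⟩
    simp [Finset.mem_product, ha, hb, hc]
  have hE1' : ∀ a ∈ A, a ∈ E1 := by
    intro a ha
    have := hE1 a ha a ha a ha
    rwa [mul_inv_cancel, one_mul] at this
  let E2 : Finset (Dq (Fin n) d) := S.image ℓ
  let E3 : Finset (Dq (Fin n) d) := S.biUnion (fun g => Finset.univ.biUnion (fun i => ((f g).v i).coeff.support))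
  obtain ⟨Λ, hΛ, hΛf, q, hq⟩ := exists_quot (rf_dq (Fin n) d) (E1 ∪ E2 ∪ E3)
  let Q : Fin n → Dq (Fin n) (d + 1) → Λ → ℤ := fun i g x =>
    pair (fun y => if q y = x then (1 : ℤ) else 0) ((f g).v i)
  refine ⟨Λ, hΛ, hΛf, q.comp ℓ, Q, ?_, ?_, ?_, ?_⟩
  · intro i g h x
    simp only [Q]
    rw [map_mul, Wr.mul_v, Pi.add_apply, Pi.smul_apply, smul_eq_mul, pair_add, pair_of_mul]
    congr 2
    funext y
    rw [map_mul]
    have : (q (f g).m * q y = x) ↔ (q y = ((q.comp ℓ) g)⁻¹ * x) := by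
      rw [eq_inv_mul_iff_mul_eq]; rfl
    simp only [this]
  · intro g hg g' hg' hκ hQ
    have h1 : ℓ g = ℓ g' := by
      apply hq ?_ ?_ hκ
      · simp only [Finset.coe_union, Set.mem_union, Finset.mem_coe]
        exact Or.inl (Or.inr (Finset.mem_image_of_mem ℓ hg))
      · simp only [Finset.coe_union, Set.mem_union, Finset.mem_coe]
        exact Or.inl (Or.inr (Finset.mem_image_of_mem ℓ hg'))
    apply hf
    refine Wr.ext ?_ h1
    funext i
    have hsub : ∀ g ∈ S, ∀ y, ((f g).v i).coeff y ≠ 0 → y ∈ ((E1 ∪ E2 ∪ E3 : Finset (Dq (Fin n) d)) : Set (Dq (Fin n) d)) := by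
      intro g hg y hy
      simp only [Finset.coe_union, Set.mem_union, Finset.mem_coe]
      refine Or.inr (Finset.mem_biUnion.mpr ⟨g, hg, Finset.mem_biUnion.mpr ⟨i, Finset.mem_univ i, ?_⟩⟩)
      exact Finsupp.mem_support_iff.mpr hy
    ext y
    by_cases hy : y ∈ ((E1 ∪ E2 ∪ E3 : Finset (Dq (Fin n) d)) : Set (Dq (Fin n) d))
    · have h2 := hQ i (q y)
      simp only [Q] at h2
      rwa [pair_delta q hq (hsub g hg) hy, pair_delta q hq (hsub g' hg') hy] at h2
    · have h3 : ((f g).v i).coeff y = 0 := by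
        by_contra h; exact hy (hsub g hg y h)
      have h4 : ((f g').v i).coeff y = 0 := by
        by_contra h; exact hy (hsub g' hg' y h)
      rw [h3, h4]
  · intro g hg
    rw [MonoidHom.comp_apply, hℓd g hg, map_one]
  · intro l l' hll
    by_contra hne
    have hA : ∀ y, a0.coeff y ≠ 0 → y ∈ ((E1 ∪ E2 ∪ E3 : Finset (Dq (Fin n) d)) : Set (Dq (Fin n) d)) := by
      intro y hy
      simp only [Finset.coe_union, Set.mem_union, Finset.mem_coe]
      exact Or.inl (Or.inl (hE1' y (Finsupp.mem_support_iff.mpr hy)))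
    have hE1s : ∀ y ∈ E1, y ∈ ((E1 ∪ E2 ∪ E3 : Finset (Dq (Fin n) d)) : Set (Dq (Fin n) d)) := by
      intro y hy
      simp only [Finset.coe_union, Set.mem_union, Finset.mem_coe]
      exact Or.inl (Or.inl hy)
    -- translate
    have h1 : Q i0 k0 (q y0) = a0.coeff y0 := pair_delta q hq hA (hA y0 hy0)
    have h2 : Q i0 k0 (l' * l⁻¹ * q y0) = a0.coeff y0 := by
      rw [← h1]
      have := hll i0 (l⁻¹ * q y0)
      rw [← mul_assoc, ← mul_assoc, mul_inv_cancel, one_mul] at this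
      exact this.symm
    obtain ⟨y1, hy1, hqy1⟩ : ∃ y1, a0.coeff y1 ≠ 0 ∧ q y1 = l' * l⁻¹ * q y0 := by
      by_contra hcon
      push Not at hcon
      apply hy0
      rw [← h2]
      exact pair_delta_zero q hcon
    set r := y1 * y0⁻¹ with hr
    have hqr : q r = l' * l⁻¹ := by
      rw [hr, map_mul, map_inv, hqy1]; group
    have hr1 : r ≠ 1 := by
      intro h
      rw [h, map_one] at hqr
      exact hne (mul_inv_eq_one.mp hqr.symm).symm
    have hnz := nzd_dq (Fin n) d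
    have hprod : (MonoidAlgebra.of ℤ (Dq (Fin n) d) r - 1) * a0 ≠ 0 := by
      refine mul_ne_zero ?_ hi0
      rw [sub_ne_zero, ← map_one (MonoidAlgebra.of ℤ (Dq (Fin n) d))]
      intro h
      exact hr1 (MonoidAlgebra.of_injective h)
    obtain ⟨y2, hy2⟩ := hsup _ hprod
    have hc : ((MonoidAlgebra.of ℤ (Dq (Fin n) d) r - 1) * a0).coeff y2 = a0.coeff (r⁻¹ * y2) - a0.coeff y2 := by
      rw [sub_mul, one_mul, MonoidAlgebra.coeff_sub, Finsupp.sub_apply, MonoidAlgebra.of_apply]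
      congr 1
      have := MonoidAlgebra.coeff_single_mul_apply a0 (1 : ℤ) r y2
      rwa [one_mul] at this
    rw [hc] at hy2
    have hmem : y2 ∈ E1 ∧ r⁻¹ * y2 ∈ E1 := by
      have hAy1 : y1 ∈ A := Finsupp.mem_support_iff.mpr hy1
      have hAy0 : y0 ∈ A := Finsupp.mem_support_iff.mpr hy0
      have hri : r⁻¹ = y0 * y1⁻¹ := by rw [hr]; group
      by_cases h3 : a0.coeff y2 = 0
      · have h4 : a0.coeff (r⁻¹ * y2) ≠ 0 := by
          intro h; rw [h3, h] at hy2; simp at hy2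
        have h5 : r⁻¹ * y2 ∈ A := Finsupp.mem_support_iff.mpr h4
        refine ⟨?_, hE1' _ h5⟩
        have h6 := hE1 y1 hAy1 y0 hAy0 _ h5
        rwa [← hr, mul_inv_cancel_left] at h6
      · have h5 : y2 ∈ A := Finsupp.mem_support_iff.mpr h3
        refine ⟨hE1' _ h5, ?_⟩
        rw [hri]
        exact hE1 y0 hAy0 y1 hAy1 _ h5
    have h6 : Q i0 k0 (q y2) = a0.coeff y2 := pair_delta q hq hA (hE1s _ hmem.1)
    have h7 : Q i0 k0 (q (r⁻¹ * y2)) = a0.coeff (r⁻¹ * y2) := pair_delta q hq hA (hE1s _ hmem.2)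
    apply hy2
    rw [← h6, ← h7, sub_eq_zero]
    have h8 := hll i0 (l'⁻¹ * q y2)
    rw [← mul_assoc, ← mul_assoc, mul_inv_cancel, one_mul] at h8
    rw [← h8, map_mul, map_inv, hqr, mul_inv_rev, inv_inv]

end Pool.Agent.H54R3.Aff
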