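import Mathlib

set_option autoImplicit false

namespace Pool.Agent.H54R3.Sep

open Subgroup
open scoped commutatorElement

section StepC

variable {M : Type} [Group M] {p : ℕ} [Fact p.Prime] {ι : Type}

/-- crossed homomorphism -/
structure Cr (M : Type) [Group M] (F : Type) [CommRing F] where
  χ : M →* F
  δ : M → F
  mul : ∀ a b, δ (a * b) = δ a + χ a * δ b

namespace Cr
variable {F : Type} [CommRing F] (c : Cr M F)

lemma one : c.δ 1 = 0 := by
  have := c.mul 1 1
  simp at this
  exact this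

lemma chi_inv (a : M) : c.χ a⁻¹ * c.χ a = 1 := by
  rw [← map_mul, inv_mul_cancel, map_one]

lemma inv (a : M) : c.δ a⁻¹ = - (c.χ a⁻¹ * c.δ a) := by
  have h := c.mul a⁻¹ a
  rw [inv_mul_cancel, one] at h
  exact eq_neg_of_add_eq_zero_left h.symm

/-- the stabiliser of `0` -/
def stab : Subgroup M where
  carrier := {a | c.δ a = 0}
  mul_mem' := by
    intro a b ha hb
    change c.δ (a * b) = 0
    rw [c.mul, show c.δ a = 0 from ha, show c.δ b = 0 from hb]; simp
  one_mem' := c.one
  inv_mem' := by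
    intro a ha
    change c.δ a⁻¹ = 0
    rw [c.inv, show c.δ a = 0 from ha]; simp

lemma chi_comm {v : M} (hv : v ∈ commutator M) : c.χ v = 1 := by
  have h : commutator M ≤ (c.χ.toHomUnits).ker := by
    rw [_root_.commutator_def, Subgroup.commutator_le]
    intro a _ b _
    rw [MonoidHom.mem_ker, map_commutatorElement, commutatorElement_eq_one_iff_mul_comm]
    exact mul_comm _ _
  have h1 := h hv
  rw [MonoidHom.mem_ker] at h1
  have h2 := congrArg Units.val h1
  simpa using h2

lemma pow {v : M} (hv : c.χ v = 1) (k : ℕ) : c.δ (v ^ k) = k * c.δ v := by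
  induction k with
  | zero => simp [c.one]
  | succ k ih =>
    rw [pow_succ, c.mul, ih, map_pow, hv]
    push_cast
    ring
end Cr

/-- fixing `u` by a power of `v` -/
noncomputable def kf (c : Cr M (ZMod p)) (v u : M) : ℕ := (c.δ u / c.δ v).val
noncomputable def fix (c : Cr M (ZMod p)) (v u : M) : M := (v ^ kf c v u)⁻¹ * u

lemma fix_mul (c : Cr M (ZMod p)) (v u : M) : u = v ^ kf c v u * fix c v u := by
  unfold fix; group

lemma fix_stab (c : Cr M (ZMod p)) {v : M} (hv : v ∈ commutator M) (h0 : c.δ v ≠ 0) (u : M) :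
    fix c v u ∈ c.stab := by
  change c.δ (fix c v u) = 0
  have hχ := c.chi_comm hv
  have h1 := c.mul (v ^ kf c v u) (fix c v u)
  rw [← fix_mul, c.pow hχ, map_pow, hχ, one_pow, one_mul] at h1
  have h2 : ((kf c v u : ℕ) : ZMod p) = c.δ u / c.δ v := by
    unfold kf
    rw [ZMod.natCast_val, ZMod.cast_id]
  rw [h2, div_mul_cancel₀ _ h0] at h1
  linear_combination -h1

/-- the generators -/
noncomputable def YY (c : Cr M (ZMod p)) (v : M) (x : ι → M) :
    (ι ⊕ (ι × ι)) ⊕ (ι ⊕ ι) ⊕ Unit → M :=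
  Sum.elim (Sum.elim (fun i => fix c v (x i)) (fun q => fix c v ⁅x q.1, x q.2⁆))
    (Sum.elim (Sum.elim (fun i => fix c v (x i * v * (x i)⁻¹)) (fun i => fix c v ((x i)⁻¹ * v * x i)))
      (fun _ => v ^ p))

lemma YY_stab (c : Cr M (ZMod p)) {v : M} (hv : v ∈ commutator M) (h0 : c.δ v ≠ 0) (x : ι → M) :
    closure (Set.range (YY c v x)) ≤ c.stab := by
  rw [closure_le]
  rintro _ ⟨j, rfl⟩
  rcases j with (i | q) | (i | i) | u
  · exact fix_stab c hv h0 _
  · exact fix_stab c hv h0 _
  · exact fix_stab c hv h0 _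
  · exact fix_stab c hv h0 _
  · change c.δ (v ^ p) = 0
    rw [c.pow (c.chi_comm hv)]
    simp

theorem gen (c : Cr M (ZMod p)) {v : M} (hv : v ∈ commutator M) (h0 : c.δ v ≠ 0) (x : ι → M)
    (hx : closure (Set.range x) = ⊤)
    (hab : ∀ a ∈ commutator M, ∀ b ∈ commutator M, a * b = b * a) :
    ∀ h : M, ∃ k : ℕ, ∃ y ∈ closure (Set.range (YY c v x)), h = y * v ^ k := by
  set H := closure (Set.range (YY c v x)) with hH
  have hYH : ∀ j, YY c v x j ∈ H := fun j => subset_closure ⟨j, rfl⟩
  have f1 : ∀ i, fix c v (x i) ∈ H := fun i => hYH (Sum.inl (Sum.inl i))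
  have f2 : ∀ i j, fix c v ⁅x i, x j⁆ ∈ H := fun i j => hYH (Sum.inl (Sum.inr (i, j)))
  have f3 : ∀ i, fix c v (x i * v * (x i)⁻¹) ∈ H := fun i => hYH (Sum.inr (Sum.inl (Sum.inl i)))
  have f4 : ∀ i, fix c v ((x i)⁻¹ * v * x i) ∈ H := fun i => hYH (Sum.inr (Sum.inl (Sum.inr i)))
  have f5 : v ^ p ∈ H := hYH (Sum.inr (Sum.inr ()))
  have hN : (commutator M).Normal := inferInstance
  set J := H ⊓ commutator M with hJ
  -- the fixed commutators are in J
  have hfixc : ∀ u ∈ commutator M, fix c v u ∈ commutator M := by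
    intro u hu
    exact mul_mem (inv_mem (pow_mem hv _)) hu
  have hcon1 : ∀ g : M, g * v * g⁻¹ ∈ commutator M := fun g => hN.conj_mem v hv g
  have hcon2 : ∀ g : M, g⁻¹ * v * g ∈ commutator M := fun g => by
    have := hN.conj_mem v hv g⁻¹
    simpa using this
  -- H and commutator M normalize J
  have nH : H ≤ normalizer (J : Set M) := by
    intro g hg
    rw [mem_normalizer_iff]
    intro a
    constructor
    · rintro ⟨h1, h2⟩
      exact ⟨H.mul_mem (H.mul_mem hg h1) (H.inv_mem hg), hN.conj_mem a h2 g⟩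
    · rintro ⟨h1, h2⟩
      have e : a = g⁻¹ * (g * a * g⁻¹) * g := by group
      refine ⟨?_, ?_⟩
      · rw [e]; exact H.mul_mem (H.mul_mem (H.inv_mem hg) h1) hg
      · rw [e]
        have := hN.conj_mem _ h2 g⁻¹
        simpa using this
  have nC : commutator M ≤ normalizer (J : Set M) := by
    intro g hg
    rw [mem_normalizer_iff]
    intro a
    constructor
    · rintro ⟨h1, h2⟩
      have : g * a * g⁻¹ = a := by rw [hab g hg a h2]; group
      rw [this]; exact ⟨h1, h2⟩
    · rintro ⟨h1, h2⟩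
      have h3 : a ∈ commutator M := by
        have := hN.conj_mem _ h2 g⁻¹
        have e : g⁻¹ * (g * a * g⁻¹) * g⁻¹⁻¹ = a := by group
        rwa [e] at this
      have : g * a * g⁻¹ = a := by rw [hab g hg a h3]; group
      rw [this] at h1
      exact ⟨h1, h3⟩
  have top_of : ∀ K : Subgroup M, (∀ i, x i ∈ K) → K = ⊤ := by
    intro K hK
    rw [eq_top_iff, ← hx, closure_le]
    rintro _ ⟨i, rfl⟩
    exact hK i
  have nJ : normalizer (J : Set M) = ⊤ := by
    apply top_of
    intro i
    rw [fix_mul c v (x i)]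
    exact mul_mem (nC (pow_mem hv _)) (nH (f1 i))
  have hJn : J.Normal := normalizer_eq_top_iff.mp nJ
  set N := J ⊔ zpowers v with hNdef
  have hvN : v ∈ N := le_sup_right (a := J) (mem_zpowers v)
  have hJN : J ≤ N := le_sup_left
  have hfixN : ∀ u, fix c v u ∈ J → u ∈ N := by
    intro u hu
    rw [fix_mul c v u]
    exact mul_mem (pow_mem hvN _) (hJN hu)
  have hconN : ∀ g : M, (g * v * g⁻¹ ∈ N) → (g⁻¹ * v * g ∈ N) → g ∈ normalizer (N : Set M) := by
    intro g h1 h2
    have key : ∀ g : M, (g * v * g⁻¹ ∈ N) → ∀ a ∈ N, g * a * g⁻¹ ∈ N := by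
      intro g h1 a ha
      have : N.map (MulAut.conj g).toMonoidHom ≤ N := by
        rw [hNdef, Subgroup.map_sup, sup_le_iff]
        constructor
        · rintro _ ⟨b, hb, rfl⟩
          exact hJN (hJn.conj_mem b hb g)
        · rw [MonoidHom.map_zpowers, zpowers_le]
          exact h1
      exact this ⟨a, ha, rfl⟩
    rw [mem_normalizer_iff]
    intro a
    constructor
    · exact key g h1 a
    · intro ha
      have := key g⁻¹ (by simpa using h2) _ ha
      have e : g⁻¹ * (g * a * g⁻¹) * g⁻¹⁻¹ = a := by group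
      rwa [e] at this
  have nN : normalizer (N : Set M) = ⊤ := by
    apply top_of
    intro i
    exact hconN _ (hfixN _ ⟨f3 i, hfixc _ (hcon1 _)⟩) (hfixN _ ⟨f4 i, hfixc _ (hcon2 _)⟩)
  have hNn : N.Normal := normalizer_eq_top_iff.mp nN
  -- commutator M ≤ N
  have hcN : commutator M ≤ N := by
    have hcomm : ∀ a b : M ⧸ N, a * b = b * a := by
      have hcl : closure (Set.range (fun i => (QuotientGroup.mk' N) (x i))) = ⊤ := by
        have := congrArg (Subgroup.map (QuotientGroup.mk' N)) hx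
        rw [MonoidHom.map_closure, ← Set.range_comp] at this
        rw [← MonoidHom.range_eq_map, MonoidHom.range_eq_top.mpr (QuotientGroup.mk'_surjective N)] at this
        exact this
      have hk : ∀ a ∈ Set.range (fun i => (QuotientGroup.mk' N) (x i)),
          ∀ b ∈ Set.range (fun i => (QuotientGroup.mk' N) (x i)), a * b = b * a := by
        rintro _ ⟨i, rfl⟩ _ ⟨j, rfl⟩
        have h1 : ⁅x i, x j⁆ ∈ N := hfixN _ ⟨f2 i j, hfixc _
          (commutator_mem_commutator (mem_top _) (mem_top _))⟩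
        have h2 : (QuotientGroup.mk' N) ⁅x i, x j⁆ = 1 := by
          rw [QuotientGroup.mk'_apply, QuotientGroup.eq_one_iff]; exact h1
        rw [map_commutatorElement, commutatorElement_eq_one_iff_mul_comm] at h2
        exact h2
      intro a b
      have ha : a ∈ closure (Set.range (fun i => (QuotientGroup.mk' N) (x i))) := hcl ▸ mem_top a
      have hb : b ∈ closure (Set.range (fun i => (QuotientGroup.mk' N) (x i))) := hcl ▸ mem_top b
      have := isMulCommutative_closure hk
      have h3 := this.is_comm.comm (⟨a, ha⟩ : closure (Set.range (fun i => (QuotientGroup.mk' N) (x i)))) ⟨b, hb⟩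
      exact congrArg Subtype.val h3
    rw [_root_.commutator_def, Subgroup.commutator_le]
    intro a _ b _
    rw [← QuotientGroup.eq_one_iff]
    change (QuotientGroup.mk' N) ⁅a, b⁆ = 1
    rw [map_commutatorElement, commutatorElement_eq_one_iff_mul_comm]
    exact hcomm _ _
  -- M = H * commutator
  have hHC : H ⊔ commutator M = ⊤ := by
    apply top_of
    intro i
    rw [fix_mul c v (x i)]
    exact mul_mem (le_sup_right (a := H) (pow_mem hv _)) (le_sup_left (b := commutator M) (f1 i))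
  intro h
  have hh : h ∈ H ⊔ commutator M := hHC ▸ mem_top h
  rw [mem_sup_of_normal_right] at hh
  obtain ⟨y1, hy1, z, hz, rfl⟩ := hh
  have hz2 : z ∈ J ⊔ zpowers v := hcN hz
  rw [mem_sup_of_normal_left] at hz2
  obtain ⟨j, hj, w, hw, rfl⟩ := hz2
  obtain ⟨m, rfl⟩ := mem_zpowers_iff.mp hw
  have hp : (p : ℤ) ≠ 0 := by exact_mod_cast (Fact.out : p.Prime).ne_zero
  refine ⟨(m % p).toNat, y1 * (j * (v ^ p) ^ (m / p)), ?_, ?_⟩
  · exact mul_mem hy1 (mul_mem hj.1 (zpow_mem f5 _))
  · have h1 : ((m % p).toNat : ℤ) = m % p := Int.toNat_of_nonneg (Int.emod_nonneg _ hp)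
    rw [← zpow_natCast v ((m % p).toNat), h1, ← zpow_natCast v p, ← zpow_mul, mul_assoc, mul_assoc,
      ← zpow_add, Int.mul_ediv_add_emod]

end StepC

end Pool.Agent.H54R3.Sep
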