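import Mathlib
import Pool.Agent.Helper777.Prof.Defs
import Pool.Agent.Helper777.Prof.P_dq_embed
import Pool.Agent.Helper777.Prof.P_mag_m
import Pool.Agent.Helper777.Prof.P_comm_dq2
import Pool.Agent.H54R3.SepC

set_option autoImplicit false

namespace Pool.Agent.H54R3.Sep

open Pool.Agent.Helper777.Prof
open scoped LaurentPolynomial
open scoped commutatorElement

section StepA

variable {ι : Type}

/-- exponent vector -/
noncomputable def ex0 (ι : Type) : FreeGroup ι →* Multiplicative (ι →₀ ℤ) :=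
  FreeGroup.lift (fun i => Multiplicative.ofAdd (Finsupp.single i 1))

lemma ex0_ker (w : FreeGroup ι) (h : ex0 ι w = 1) : w ∈ commutator (FreeGroup ι) := by
  let f : Abelianization (FreeGroup ι) →* Multiplicative (ι →₀ ℤ) :=
    AddMonoidHom.toMultiplicativeRight
      (FreeAbelianGroup.toFinsupp : FreeAbelianGroup ι →+ (ι →₀ ℤ))
  have hf : f.comp Abelianization.of = ex0 ι := by
    apply FreeGroup.ext_hom
    intro i
    have h1 : ex0 ι (FreeGroup.of i) = Multiplicative.ofAdd (Finsupp.single i 1) := by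
      simp [ex0]
    rw [h1]
    change Multiplicative.ofAdd (FreeAbelianGroup.toFinsupp (FreeAbelianGroup.of i)) = _
    rw [FreeAbelianGroup.toFinsupp_of]
  have hinj : Function.Injective f := by
    intro a b hab
    have h1 : FreeAbelianGroup.equivFinsupp ι (Additive.ofMul a) =
        FreeAbelianGroup.equivFinsupp ι (Additive.ofMul b) := hab
    exact (FreeAbelianGroup.equivFinsupp ι).injective h1
  have h2 : f (Abelianization.of w) = 1 := by
    rw [← MonoidHom.comp_apply, hf, h]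
  have h3 : Abelianization.of w = 1 := hinj (by rw [h2, map_one])
  exact (QuotientGroup.eq_one_iff w).mp h3

lemma ex0_of (i : ι) : ex0 ι (FreeGroup.of i) = Multiplicative.ofAdd (Finsupp.single i 1) := by
  simp [ex0]

noncomputable def ex1 (ι : Type) : Dq ι 1 →* Multiplicative (ι →₀ ℤ) :=
  QuotientGroup.lift _ (ex0 ι) (by
    rw [derivedSeries_one]
    exact Abelianization.commutator_subset_ker (ex0 ι))

lemma ex1_pn (w : FreeGroup ι) : ex1 ι (pn ι 1 w) = ex0 ι w := rfl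

lemma ex1_inj : Function.Injective (ex1 ι) := by
  rw [injective_iff_map_eq_one]
  intro x hx
  obtain ⟨w, rfl⟩ := QuotientGroup.mk'_surjective _ x
  have h1 : ex0 ι w = 1 := hx
  have h2 := ex0_ker w h1
  exact (QuotientGroup.eq_one_iff w).2 (by rw [derivedSeries_one]; exact h2)

variable [Fintype ι]

/-- weight of an element -/
noncomputable def psi (α : ι → ℤ) (g : Dq ι 1) : ℤ := ∑ j, α j * (ex1 ι g).toAdd j

lemma psi_one (α : ι → ℤ) : psi α 1 = 0 := by simp [psi]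
lemma psi_mul (α : ι → ℤ) (g h : Dq ι 1) : psi α (g * h) = psi α g + psi α h := by
  simp [psi, mul_add, Finset.sum_add_distrib]

noncomputable def chiL (α : ι → ℤ) : Dq ι 1 →* ℤ[T;T⁻¹] where
  toFun g := LaurentPolynomial.T (psi α g)
  map_one' := by rw [psi_one, LaurentPolynomial.T_zero]
  map_mul' g h := by rw [psi_mul, LaurentPolynomial.T_add]

noncomputable def PhiL (α : ι → ℤ) : MonoidAlgebra ℤ (Dq ι 1) →+* ℤ[T;T⁻¹] :=
  (MonoidAlgebra.lift ℤ ℤ[T;T⁻¹] (Dq ι 1) (chiL α) : MonoidAlgebra ℤ (Dq ι 1) →ₐ[ℤ] ℤ[T;T⁻¹])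

lemma PhiL_of (α : ι → ℤ) (g : Dq ι 1) : PhiL α (MonoidAlgebra.of ℤ _ g) = LaurentPolynomial.T (psi α g) := by
  simp [PhiL, chiL]

lemma PhiL_apply (α : ι → ℤ) (f : MonoidAlgebra ℤ (Dq ι 1)) :
    PhiL α f = ∑ g ∈ f.coeff.support, f.coeff g • (LaurentPolynomial.T (psi α g) : ℤ[T;T⁻¹]) := by
  change MonoidAlgebra.lift ℤ ℤ[T;T⁻¹] (Dq ι 1) (chiL α) f = _
  rw [MonoidAlgebra.lift_apply]
  rfl

/-- the value of the crossed homomorphism -/
noncomputable def del (α β : ι → ℤ) (v : ι → MonoidAlgebra ℤ (Dq ι 1)) : ℤ[T;T⁻¹] :=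
  ∑ i, PhiL α (v i) * LaurentPolynomial.T (β i)

lemma del_coeff (α β : ι → ℤ) (v : ι → MonoidAlgebra ℤ (Dq ι 1)) (k : ℤ) :
    (del α β v).coeff k = ∑ i, ∑ g ∈ (v i).coeff.support,
      if psi α g + β i = k then (v i).coeff g else 0 := by
  unfold del
  rw [AddMonoidAlgebra.coeff_sum, Finsupp.finsetSum_apply]
  refine Finset.sum_congr rfl (fun i _ => ?_)
  rw [PhiL_apply, Finset.sum_mul, AddMonoidAlgebra.coeff_sum, Finsupp.finsetSum_apply]
  refine Finset.sum_congr rfl (fun g _ => ?_)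
  rw [smul_mul_assoc, ← LaurentPolynomial.T_add, AddMonoidAlgebra.coeff_smul, Finsupp.smul_apply,
    LaurentPolynomial.T_apply]
  split_ifs <;> simp

lemma del_ne (α β : ι → ℤ) (v : ι → MonoidAlgebra ℤ (Dq ι 1)) {i0 : ι} {g0 : Dq ι 1}
    (h0 : (v i0).coeff g0 ≠ 0)
    (hinj : ∀ i g, (v i).coeff g ≠ 0 → psi α g + β i = psi α g0 + β i0 → i = i0 ∧ g = g0) :
    del α β v ≠ 0 := by
  intro hcon
  have h1 := del_coeff α β v (psi α g0 + β i0)
  rw [hcon] at h1
  rw [Finset.sum_eq_single i0, Finset.sum_eq_single g0, if_pos rfl] at h1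
  · exact h0 (by simpa using h1.symm)
  · intro g hg hne
    rw [if_neg]
    intro hk
    exact hne (hinj i0 g (Finsupp.mem_support_iff.mp hg) hk).2
  · intro hg
    simp at hg
    simp [hg]
  · intro i _ hne
    refine Finset.sum_eq_zero (fun g hg => ?_)
    rw [if_neg]
    intro hk
    exact hne (hinj i g (Finsupp.mem_support_iff.mp hg) hk).1
  · intro h; exact absurd (Finset.mem_univ _) h

/-- weights separating finitely many pairs -/
lemma exists_weights [DecidableEq ι] (P : Finset ((ι →₀ ℤ) × (ι →₀ ℤ))) (hP : ∀ u ∈ P, u ≠ 0) :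
    ∃ α β : ι → ℤ, ∀ u ∈ P, (∑ j, α j * u.1 j) + ∑ j, β j * u.2 j ≠ 0 := by
  let V : {u // u ∈ P} → (ι → ℚ) × (ι → ℚ) := fun u => (fun j => (u.1.1 j : ℚ), fun j => (u.1.2 j : ℚ))
  have hV : ∀ u, V u ≠ 0 := by
    intro u h0
    apply hP u.1 u.2
    have h1 : ∀ j, ((u.1.1 j : ℤ) : ℚ) = 0 := fun j => congrFun (congrArg Prod.fst h0) j
    have h2 : ∀ j, ((u.1.2 j : ℤ) : ℚ) = 0 := fun j => congrFun (congrArg Prod.snd h0) j
    refine Prod.ext ?_ ?_
    · ext j; simpa using h1 j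
    · ext j; simpa using h2 j
  obtain ⟨f, hf⟩ := Module.exists_dual_forall_apply_ne_zero (K := ℚ) V hV
  let ab : ι ⊕ ι → ℚ := Sum.elim (fun j => f (Pi.single j 1, 0)) (fun j => f (0, Pi.single j 1))
  obtain ⟨d, hd⟩ := IsLocalization.exist_integer_multiples_of_finite (nonZeroDivisors ℤ) ab
  choose w hw using hd
  have hd0 : ((d : ℤ) : ℚ) ≠ 0 := by
    exact_mod_cast nonZeroDivisors.coe_ne_zero d
  refine ⟨fun j => w (Sum.inl j), fun j => w (Sum.inr j), fun u hu h0 => ?_⟩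
  apply hf ⟨u, hu⟩
  have hw1 : ∀ j, ((w (Sum.inl j) : ℤ) : ℚ) = (d : ℤ) * f (Pi.single j 1, 0) := by
    intro j
    have := hw (Sum.inl j)
    simpa [ab] using this
  have hw2 : ∀ j, ((w (Sum.inr j) : ℤ) : ℚ) = (d : ℤ) * f (0, Pi.single j 1) := by
    intro j
    have := hw (Sum.inr j)
    simpa [ab] using this
  have hexp : f (V ⟨u, hu⟩) = (∑ j, (u.1 j : ℚ) * f (Pi.single j 1, 0)) +
      ∑ j, (u.2 j : ℚ) * f (0, Pi.single j 1) := by
    have e : V ⟨u, hu⟩ = (∑ j, (u.1 j : ℚ) • ((Pi.single j 1, 0) : (ι → ℚ) × (ι → ℚ))) +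
        ∑ j, (u.2 j : ℚ) • ((0, Pi.single j 1) : (ι → ℚ) × (ι → ℚ)) := by
      refine Prod.ext ?_ ?_
      · funext k
        simp [V, Prod.fst_sum, Finset.sum_apply, Pi.single_apply]
      · funext k
        simp [V, Prod.snd_sum, Finset.sum_apply, Pi.single_apply]
    rw [e, map_add, map_sum, map_sum]
    simp only [map_smul, smul_eq_mul]
  have h1 : ((∑ j, w (Sum.inl j) * u.1 j + ∑ j, w (Sum.inr j) * u.2 j : ℤ) : ℚ) = 0 := by
    exact_mod_cast h0
  push_cast at h1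
  simp only [hw1, hw2] at h1
  have h2 : ((d : ℤ) : ℚ) * f (V ⟨u, hu⟩) = 0 := by
    rw [hexp, mul_add, Finset.mul_sum, Finset.mul_sum, ← h1]
    congr 1 <;> exact Finset.sum_congr rfl (fun j _ => by ring)
  exact (mul_eq_zero.mp h2).resolve_left hd0

lemma stepA [DecidableEq ι] (S : Finset (ι → MonoidAlgebra ℤ (Dq ι 1))) (hS : ∀ v ∈ S, v ≠ 0) :
    ∃ α β : ι → ℤ, ∀ v ∈ S, del α β v ≠ 0 := by
  classical
  let supp : (ι → MonoidAlgebra ℤ (Dq ι 1)) → Finset (ι × Dq ι 1) := fun v =>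
    Finset.univ.biUnion (fun i => (v i).coeff.support.image (fun g => (i, g)))
  have hsupp : ∀ v i g, (i, g) ∈ supp v ↔ (v i).coeff g ≠ 0 := by
    intro v i g
    simp [supp]
  let vec : (ι × Dq ι 1) × (ι × Dq ι 1) → (ι →₀ ℤ) × (ι →₀ ℤ) := fun q =>
    ((ex1 ι q.1.2).toAdd - (ex1 ι q.2.2).toAdd, Finsupp.single q.1.1 1 - Finsupp.single q.2.1 1)
  let P : Finset ((ι →₀ ℤ) × (ι →₀ ℤ)) :=
    (S.biUnion (fun v => ((supp v) ×ˢ (supp v)).filter (fun q => q.1 ≠ q.2))).image vec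
  obtain ⟨α, β, hαβ⟩ := exists_weights P (by
    intro u hu
    simp only [P, Finset.mem_image, Finset.mem_biUnion, Finset.mem_filter] at hu
    obtain ⟨q, ⟨v, hv, hq, hne⟩, rfl⟩ := hu
    intro hz
    apply hne
    simp only [vec, Prod.mk_eq_zero, sub_eq_zero] at hz
    have h1 : q.1.2 = q.2.2 := ex1_inj (Multiplicative.toAdd.injective hz.1)
    have h2 : q.1.1 = q.2.1 := by
      have := Finsupp.single_left_injective (one_ne_zero (α := ℤ)) hz.2
      exact this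
    exact Prod.ext h2 h1)
  refine ⟨α, β, fun v hv => ?_⟩
  have hex : ∃ i0 g0, (v i0).coeff g0 ≠ 0 := by
    by_contra hcon
    push Not at hcon
    apply hS v hv
    funext i
    ext g
    simpa using hcon i g
  obtain ⟨i0, g0, h0⟩ := hex
  refine del_ne α β v h0 ?_
  intro i g hg hk
  by_contra hne
  have hq : vec ((i, g), (i0, g0)) ∈ P := by
    simp only [P, Finset.mem_image, Finset.mem_biUnion, Finset.mem_filter]
    refine ⟨((i, g), (i0, g0)), ⟨v, hv, ?_, ?_⟩, rfl⟩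
    · rw [Finset.mem_product]
      exact ⟨(hsupp v i g).mpr hg, (hsupp v i0 g0).mpr h0⟩
    · intro h
      apply hne
      rw [Prod.mk.injEq] at h
      exact h
  apply hαβ _ hq
  simp only [vec, Finsupp.coe_sub, Pi.sub_apply, mul_sub, Finset.sum_sub_distrib]
  have e1 : ∀ k : ι, ∑ j, β j * (Finsupp.single k (1 : ℤ)) j = β k := by
    intro k
    rw [Finset.sum_eq_single k]
    · simp
    · intro b _ hb
      rw [Finsupp.single_eq_of_ne hb]; simp
    · intro h; exact absurd (Finset.mem_univ _) h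
  rw [e1, e1]
  unfold psi at hk
  linarith

end StepA

section StepB

open Polynomial in
lemma stepB (S : Finset ℤ[T;T⁻¹]) (hS : ∀ f ∈ S, f ≠ 0) :
    ∃ p : ℕ, p.Prime ∧ ∃ θ : (ZMod p)ˣ, ∀ f ∈ S,
      LaurentPolynomial.eval₂ (Int.castRingHom (ZMod p)) θ f ≠ 0 := by
  classical
  choose n f' hf' using fun f : ℤ[T;T⁻¹] => LaurentPolynomial.exists_T_pow f
  have hne : ∀ f ∈ S, f' f ≠ 0 := by
    intro f hf h0
    have h1 := hf' f
    rw [h0, map_zero] at h1
    have h2 : IsUnit (LaurentPolynomial.T (n f : ℤ) : ℤ[T;T⁻¹]) := LaurentPolynomial.isUnit_T _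
    exact hS f hf ((h2.mul_left_eq_zero).mp h1.symm)
  have hF : (X * ∏ f ∈ S, f' f : ℤ[X]) ≠ 0 :=
    mul_ne_zero X_ne_zero (Finset.prod_ne_zero_iff.mpr hne)
  obtain ⟨z, hz⟩ : ∃ z : ℤ, (X * ∏ f ∈ S, f' f : ℤ[X]).eval z ≠ 0 := by
    by_contra hcon
    push Not at hcon
    exact hF (Polynomial.funext (fun z => by rw [hcon z, eval_zero]))
  rw [eval_mul, eval_X, eval_prod] at hz
  obtain ⟨hz1, hz2⟩ := mul_ne_zero_iff.mp hz
  have hz3 := Finset.prod_ne_zero_iff.mp hz2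
  obtain ⟨p, hp1, hp⟩ := Nat.exists_infinite_primes ((z * ∏ f ∈ S, (f' f).eval z).natAbs + 1)
  have : Fact p.Prime := ⟨hp⟩
  have hcast : ((z * ∏ f ∈ S, (f' f).eval z : ℤ) : ZMod p) ≠ 0 := by
    intro h
    rw [ZMod.intCast_zmod_eq_zero_iff_dvd] at h
    have := Int.le_of_dvd (by positivity) (Int.natAbs_dvd_natAbs.mpr h |> fun h => Int.natCast_dvd_natCast.mpr h)
    omega
  push_cast at hcast
  obtain ⟨hc1, hc2⟩ := mul_ne_zero_iff.mp hcast
  rw [Finset.prod_ne_zero_iff] at hc2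
  refine ⟨p, hp, Units.mk0 (z : ZMod p) hc1, fun f hf h0 => ?_⟩
  have h1 := congrArg (LaurentPolynomial.eval₂ (Int.castRingHom (ZMod p)) (Units.mk0 (z : ZMod p) hc1)) (hf' f)
  rw [map_mul, h0, zero_mul, LaurentPolynomial.eval₂_toLaurent] at h1
  apply hc2 f hf
  have h2 := Polynomial.eval₂_at_apply (p := f' f) (Int.castRingHom (ZMod p)) z
  change ((Int.castRingHom (ZMod p)) (Polynomial.eval z (f' f))) = 0
  rw [← h2]
  exact h1

end StepB

end Pool.Agent.H54R3.Sep
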