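import Mathlib
import Pool.Agent.H54R3.SepA

set_option autoImplicit false

namespace Pool.Agent.H54R3.Sep

open Pool.Agent.Helper777.Prof
open scoped LaurentPolynomial
open scoped commutatorElement

section fund
variable {ι M : Type} [Fintype ι] [DecidableEq ι] [Group M]

/-- defect of the fundamental formula -/
noncomputable def DD (π : FreeGroup ι →* M) (w : Wr ℤ M ι) : MonoidAlgebra ℤ M :=
  ∑ i, w.v i * (MonoidAlgebra.of ℤ M (π (FreeGroup.of i)) - 1) - (MonoidAlgebra.of ℤ M w.m - 1)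

lemma DD_mul (π : FreeGroup ι →* M) (a b : Wr ℤ M ι) :
    DD π (a * b) = DD π a + MonoidAlgebra.of ℤ M a.m * DD π b := by
  unfold DD
  rw [Wr.mul_v, Wr.mul_m, map_mul, mul_sub, Finset.mul_sum]
  have : ∀ i, (a.v + (MonoidAlgebra.of ℤ M a.m) • b.v) i * (MonoidAlgebra.of ℤ M (π (FreeGroup.of i)) - 1)
      = a.v i * (MonoidAlgebra.of ℤ M (π (FreeGroup.of i)) - 1) +
        MonoidAlgebra.of ℤ M a.m * (b.v i * (MonoidAlgebra.of ℤ M (π (FreeGroup.of i)) - 1)) := by
    intro i
    rw [Pi.add_apply, Pi.smul_apply, smul_eq_mul, add_mul, mul_assoc]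
  rw [Finset.sum_congr rfl (fun i _ => this i), Finset.sum_add_distrib]
  noncomm_ring

lemma DD_mag (π : FreeGroup ι →* M) (w : FreeGroup ι) : DD π (mag π w) = 0 := by
  have h1 : DD π (1 : Wr ℤ M ι) = 0 := by
    unfold DD
    rw [Wr.one_v, Wr.one_m, map_one]
    simp
  have hof : ∀ i, DD π (mag π (FreeGroup.of i)) = 0 := by
    intro i
    have e : mag π (FreeGroup.of i) = ⟨Pi.single i 1, π (FreeGroup.of i)⟩ := by
      simp [mag]
    rw [e]
    unfold DD
    rw [Finset.sum_eq_single i]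
    · simp
    · intro j _ hj
      simp [Pi.single_eq_of_ne hj]
    · intro h; exact absurd (Finset.mem_univ _) h
  induction w using FreeGroup.induction_on with
  | C1 => rw [map_one]; exact h1
  | of i => exact hof i
  | inv_of i hi =>
    have h2 := DD_mul π (mag π (FreeGroup.of i))⁻¹ (mag π (FreeGroup.of i))
    rw [inv_mul_cancel, h1, hof, mul_zero, add_zero] at h2
    rw [map_inv]
    exact h2.symm
  | mul x y hx hy => rw [map_mul, DD_mul, hx, hy, mul_zero, add_zero]

end fund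

theorem sep_dq2 (n : ℕ) (hn : 2 ≤ n) : ∃ L : ℕ, ∀ T : Finset (Dq (Fin n) 2), 1 ∉ T →
    ∃ (Y : Fin L → Dq (Fin n) 2) (v : Dq (Fin n) 2), v ≠ 1 ∧
      (∀ h : Dq (Fin n) 2, ∃ k : ℕ, ∃ y ∈ Subgroup.closure (Set.range Y), h = y * v ^ k) ∧
      ∀ t ∈ T, t ∉ Subgroup.closure (Set.range Y) := by
  classical
  set ι := Fin n with hι
  refine ⟨Fintype.card ((ι ⊕ (ι × ι)) ⊕ (ι ⊕ ι) ⊕ Unit), fun T hT => ?_⟩
  obtain ⟨F, hF, hFm⟩ := dq_embed (ι := ι) 1
  -- nontrivial elements have nontrivial vector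
  have hvec : ∀ t : Dq ι 2, t ≠ 1 → (F t).v ≠ 0 := by
    intro t ht h0
    obtain ⟨w, rfl⟩ := QuotientGroup.mk'_surjective _ t
    have h1 : F (pn ι 2 w) = mag (pn ι 1) w := hFm w
    have h2 := DD_mag (pn ι 1) w
    rw [← h1] at h2
    unfold DD at h2
    have h3 : (F (pn ι 2 w)).v = 0 := h0
    rw [h3] at h2
    simp only [Pi.zero_apply, zero_mul, Finset.sum_const_zero, zero_sub, neg_eq_zero, sub_eq_zero] at h2
    have h4 : (F (pn ι 2 w)).m = 1 := by
      have : MonoidAlgebra.of ℤ (Dq ι 1) (F (pn ι 2 w)).m = MonoidAlgebra.of ℤ (Dq ι 1) 1 := by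
        rw [h2, map_one]
      exact MonoidAlgebra.of_injective this
    apply ht
    apply hF
    rw [map_one]
    exact Wr.ext h3 h4
  let i0 : ι := ⟨0, by omega⟩
  let i1 : ι := ⟨1, by omega⟩
  have hi01 : i0 ≠ i1 := by
    intro h
    have := congrArg Fin.val h
    simp [i0, i1] at this
  let x : ι → Dq ι 2 := fun i => pn ι 2 (FreeGroup.of i)
  have hFx : ∀ i, F (x i) = ⟨Pi.single i 1, pn ι 1 (FreeGroup.of i)⟩ := by
    intro i
    rw [show F (x i) = mag (pn ι 1) (FreeGroup.of i) from hFm _]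
    simp [mag]
  set v : Dq ι 2 := ⁅x i0, x i1⁆ with hv
  have hv1 : v ≠ 1 := by
    intro h1
    have h2 : x i0 * x i1 = x i1 * x i0 := commutatorElement_eq_one_iff_mul_comm.mp h1
    have h3 := congrArg F h2
    rw [map_mul, map_mul, hFx, hFx] at h3
    have h4 := congrArg (fun w : Wr ℤ (Dq ι 1) ι => w.v i0) h3
    simp only [Wr.mul_v, Pi.add_apply, Pi.smul_apply, Pi.single_eq_same,
      Pi.single_eq_of_ne hi01, smul_eq_mul, mul_zero, mul_one, add_zero, zero_add] at h4
    have h5 : (1 : Dq ι 1) = pn ι 1 (FreeGroup.of i1) := by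
      apply MonoidAlgebra.of_injective (R := ℤ)
      rw [map_one]; exact h4
    have h6 := congrArg (ex1 ι) h5
    rw [map_one, ex1_pn, ex0_of] at h6
    have h7 := congrArg (fun q => (Multiplicative.toAdd q) i1) h6
    simp at h7
  have hvc : v ∈ commutator (Dq ι 2) :=
    Subgroup.commutator_mem_commutator (Subgroup.mem_top _) (Subgroup.mem_top _)
  obtain ⟨α, β, hαβ⟩ := stepA ((insert v T).image (fun t => (F t).v)) (by
    intro u hu
    obtain ⟨t, ht, rfl⟩ := Finset.mem_image.mp hu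
    apply hvec
    rcases Finset.mem_insert.mp ht with rfl | ht
    · exact hv1
    · rintro rfl; exact hT ht)
  obtain ⟨p, hp, θ, hθ⟩ := stepB ((insert v T).image (fun t => del α β (F t).v)) (by
    intro u hu
    obtain ⟨t, ht, rfl⟩ := Finset.mem_image.mp hu
    exact hαβ _ (Finset.mem_image_of_mem _ ht))
  haveI : Fact p.Prime := ⟨hp⟩
  let φ : ℤ[T;T⁻¹] →+* ZMod p := LaurentPolynomial.eval₂ (Int.castRingHom (ZMod p)) θ
  let mm : Dq ι 2 →* Dq ι 1 := ⟨⟨fun t => (F t).m, by rw [map_one]; rfl⟩,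
    fun a b => by change (F (a * b)).m = _; rw [map_mul]; rfl⟩
  let c : Cr (Dq ι 2) (ZMod p) :=
    { χ := ((φ : ℤ[T;T⁻¹] →* ZMod p).comp (chiL α)).comp mm
      δ := fun t => φ (del α β (F t).v)
      mul := by
        intro a b
        change φ (del α β (F (a * b)).v) = φ (del α β (F a).v) + φ (LaurentPolynomial.T (psi α (F a).m)) * φ (del α β (F b).v)
        rw [map_mul, Wr.mul_v, ← map_mul φ, ← map_add]
        congr 1
        unfold del
        rw [Finset.mul_sum, ← Finset.sum_add_distrib]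
        refine Finset.sum_congr rfl (fun i _ => ?_)
        rw [Pi.add_apply, Pi.smul_apply, smul_eq_mul, map_add, map_mul, PhiL_of]
        ring }
  have hδ : ∀ t ∈ insert v T, c.δ t ≠ 0 := fun t ht => hθ _ (Finset.mem_image_of_mem _ ht)
  have hv0 : c.δ v ≠ 0 := hδ v (Finset.mem_insert_self _ _)
  have hx : Subgroup.closure (Set.range x) = ⊤ := by
    have h1 : Subgroup.closure (Set.range (FreeGroup.of : ι → FreeGroup ι)) = ⊤ :=
      FreeGroup.closure_range_of ι
    have h2 := congrArg (Subgroup.map (pn ι 2)) h1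
    rw [MonoidHom.map_closure, ← Set.range_comp, ← MonoidHom.range_eq_map] at h2
    have h3 : (pn ι 2).range = ⊤ := MonoidHom.range_eq_top.mpr (QuotientGroup.mk'_surjective _)
    rw [h3] at h2
    exact h2
  have hgen := gen c hvc hv0 x hx (comm_dq2 ι)
  let eqv := (Fintype.equivFin ((ι ⊕ (ι × ι)) ⊕ (ι ⊕ ι) ⊕ Unit)).symm
  have hr : Set.range (YY c v x ∘ eqv) = Set.range (YY c v x) := by
    rw [Set.range_comp, eqv.surjective.range_eq, Set.image_univ]
  refine ⟨YY c v x ∘ eqv, v, hv1, ?_, ?_⟩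
  · intro h
    rw [hr]
    exact hgen h
  · intro t ht hcon
    rw [hr] at hcon
    exact hδ t (Finset.mem_insert_of_mem ht) (YY_stab c hvc hv0 x hcon)

end Pool.Agent.H54R3.Sep
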