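import Mathlib
import Pool.Agent.H54R3.AffA
import Pool.Agent.H54R3.TaskSEP
import Pool.Agent.H577R3.Defs4

set_option autoImplicit false

/-! weights, specialisation, action -/

namespace Pool.Agent.H54R3.Aff

open Pool.Agent.Helper777.Prof Pool.Agent.H577R3
open scoped LaurentPolynomial

/-- weights -/
theorem weights {K Λ : Type} [Group K] [Group Λ] [Finite Λ] {n : ℕ} (κ : K →* Λ)
    (Q : Fin n → K → Λ → ℤ) (S : Finset K) (k0 : K)
    (hQ : ∀ i g h x, Q i (g * h) x = Q i g x + Q i h ((κ g)⁻¹ * x))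
    (hsep : ∀ g ∈ S, ∀ g' ∈ S, κ g = κ g' → (∀ i x, Q i g x = Q i g' x) → g = g')
    (hasym : ∀ l l' : Λ, (∀ i x, Q i k0 (l * x) = Q i k0 (l' * x)) → l = l') :
    ∃ (a : K → Λ → ℤ) (β : Fin n → Λ → ℤ),
      (∀ g h l, a (g * h) l = a g l + a h ((κ g)⁻¹ * l)) ∧
      (∀ l, ∀ i i', ∀ g ∈ S, ∀ g' ∈ S,
        a g l + β i ((κ g)⁻¹ * l) = a g' l + β i' ((κ g')⁻¹ * l) → i = i' ∧ g = g') ∧
      (∀ l l', a k0 l = a k0 l' → l = l') := by
  classical
  haveI := Fintype.ofFinite Λ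
  let F : ((Fin n × Λ) → ℤ) → ((Fin n × Λ) →₀ ℤ) := Finsupp.equivFunOnFinite.symm
  let vec1 : Λ × (Fin n × K) × (Fin n × K) → ((Fin n × Λ) →₀ ℤ) × ((Fin n × Λ) →₀ ℤ) := fun u =>
    (F (fun j => Q j.1 u.2.1.2 (u.1 * j.2⁻¹) - Q j.1 u.2.2.2 (u.1 * j.2⁻¹)),
      Finsupp.single (u.2.1.1, (κ u.2.1.2)⁻¹ * u.1) 1 - Finsupp.single (u.2.2.1, (κ u.2.2.2)⁻¹ * u.1) 1)
  let vec2 : Λ × Λ → ((Fin n × Λ) →₀ ℤ) × ((Fin n × Λ) →₀ ℤ) := fun u =>
    (F (fun j => Q j.1 k0 (u.1 * j.2⁻¹) - Q j.1 k0 (u.2 * j.2⁻¹)), 0)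
  let P1 : Finset (Λ × (Fin n × K) × (Fin n × K)) :=
    (Finset.univ ×ˢ ((Finset.univ ×ˢ S) ×ˢ (Finset.univ ×ˢ S))).filter (fun u => u.2.1 ≠ u.2.2)
  let P2 : Finset (Λ × Λ) := Finset.univ.filter (fun u => u.1 ≠ u.2)
  obtain ⟨α, β, hαβ⟩ := Sep.exists_weights (P1.image vec1 ∪ P2.image vec2) (by
    intro u hu
    rcases Finset.mem_union.mp hu with hu | hu
    · obtain ⟨⟨l, ⟨i, g⟩, ⟨i', g'⟩⟩, hu1, rfl⟩ := Finset.mem_image.mp hu
      simp only [P1, Finset.mem_filter, Finset.mem_product, Finset.mem_univ, true_and] at hu1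
      obtain ⟨⟨hg, hg'⟩, hne⟩ := hu1
      intro h0
      apply hne
      have h1 : ∀ j : Fin n × Λ, Q j.1 g (l * j.2⁻¹) - Q j.1 g' (l * j.2⁻¹) = 0 := fun j =>
        DFunLike.congr_fun (congrArg Prod.fst h0) j
      have h2 : Finsupp.single (i, (κ g)⁻¹ * l) (1 : ℤ) = Finsupp.single (i', (κ g')⁻¹ * l) 1 :=
        sub_eq_zero.mp (congrArg Prod.snd h0)
      have h3 := Finsupp.single_left_injective (one_ne_zero (α := ℤ)) h2
      simp only [Prod.mk.injEq] at h3
      have h4 : κ g = κ g' := inv_injective (mul_right_cancel h3.2)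
      have h5 : g = g' := hsep g hg g' hg' h4 (fun i x => by
        have := h1 (i, x⁻¹ * l)
        simp only [mul_inv_rev, inv_inv, mul_inv_cancel_left] at this
        exact sub_eq_zero.mp this)
      rw [h3.1, h5]
    · obtain ⟨⟨l, l'⟩, hu1, rfl⟩ := Finset.mem_image.mp hu
      simp only [P2, Finset.mem_filter, Finset.mem_univ, true_and] at hu1
      intro h0
      apply hu1
      have h1 : ∀ j : Fin n × Λ, Q j.1 k0 (l * j.2⁻¹) - Q j.1 k0 (l' * j.2⁻¹) = 0 := fun j =>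
        DFunLike.congr_fun (congrArg Prod.fst h0) j
      apply hasym
      intro i x
      have := h1 (i, x⁻¹)
      simp only [inv_inv] at this
      exact sub_eq_zero.mp this)
  refine ⟨fun g l => ∑ j : Fin n × Λ, α j * Q j.1 g (l * j.2⁻¹), fun i l => β (i, l), ?_, ?_, ?_⟩
  · intro g h l
    simp only
    rw [← Finset.sum_add_distrib]
    refine Finset.sum_congr rfl (fun j _ => ?_)
    rw [hQ, mul_add, mul_assoc]
  · intro l i i' g hg g' hg' heq
    by_contra hne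
    have hmem : vec1 (l, (i, g), (i', g')) ∈ P1.image vec1 ∪ P2.image vec2 := by
      refine Finset.mem_union_left _ (Finset.mem_image_of_mem vec1 ?_)
      simp only [P1, Finset.mem_filter, Finset.mem_product, Finset.mem_univ, true_and]
      refine ⟨⟨hg, hg'⟩, ?_⟩
      intro h
      apply hne
      simpa only [Prod.mk.injEq] using h
    apply hαβ _ hmem
    have e1 : ∑ j, α j * (vec1 (l, (i, g), (i', g'))).1 j =
        (∑ j : Fin n × Λ, α j * Q j.1 g (l * j.2⁻¹)) - ∑ j : Fin n × Λ, α j * Q j.1 g' (l * j.2⁻¹) := by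
      rw [← Finset.sum_sub_distrib]
      refine Finset.sum_congr rfl (fun j _ => ?_)
      change α j * (Q j.1 g (l * j.2⁻¹) - Q j.1 g' (l * j.2⁻¹)) = _
      ring
    have e2 : ∀ k : Fin n × Λ, ∑ j, β j * (Finsupp.single k (1 : ℤ)) j = β k := by
      intro k
      rw [Finset.sum_eq_single k]
      · simp
      · intro b _ hb
        rw [Finsupp.single_eq_of_ne hb]; simp
      · intro h; exact absurd (Finset.mem_univ _) h
    have e3 : ∑ j, β j * (vec1 (l, (i, g), (i', g'))).2 j = β (i, (κ g)⁻¹ * l) - β (i', (κ g')⁻¹ * l) := by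
      rw [← e2 (i, (κ g)⁻¹ * l), ← e2 (i', (κ g')⁻¹ * l), ← Finset.sum_sub_distrib]
      refine Finset.sum_congr rfl (fun j _ => ?_)
      simp only [vec1, Finsupp.coe_sub, Pi.sub_apply, mul_sub]
    rw [e1, e3]
    simp only at heq
    linarith
  · intro l l' heq
    by_contra hne
    have hmem : vec2 (l, l') ∈ P1.image vec1 ∪ P2.image vec2 := by
      refine Finset.mem_union_right _ (Finset.mem_image_of_mem vec2 ?_)
      simp only [P2, Finset.mem_filter, Finset.mem_univ, true_and]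
      exact hne
    apply hαβ _ hmem
    have e1 : ∑ j, α j * (vec2 (l, l')).1 j =
        (∑ j : Fin n × Λ, α j * Q j.1 k0 (l * j.2⁻¹)) - ∑ j : Fin n × Λ, α j * Q j.1 k0 (l' * j.2⁻¹) := by
      rw [← Finset.sum_sub_distrib]
      refine Finset.sum_congr rfl (fun j _ => ?_)
      change α j * (Q j.1 k0 (l * j.2⁻¹) - Q j.1 k0 (l' * j.2⁻¹)) = _
      ring
    rw [e1]
    simp only at heq
    simp [vec2, heq]

/-- specialisation to a finite field -/
theorem spec {K Λ : Type} [Group K] [Finite Λ] {n : ℕ} (e : Fin n → K → Λ → ℤ) (a0 : Λ → ℤ)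
    (ha0 : Function.Injective a0) (S : Finset K)
    (hinj : ∀ l, ∀ i i', ∀ g ∈ S, ∀ g' ∈ S, e i g l = e i' g' l → i = i' ∧ g = g')
    (X : Finset (Fin n → MonoidAlgebra ℤ K)) (hX : ∀ x ∈ X, x ≠ 0)
    (hXS : ∀ x ∈ X, ∀ i g, (x i).coeff g ≠ 0 → g ∈ S) :
    ∃ (p : ℕ) (_ : Fact p.Prime) (θ : (ZMod p)ˣ),
      (∀ x ∈ X, ∀ l : Λ, ∑ i, pair (fun g => ((θ ^ e i g l : (ZMod p)ˣ) : ZMod p)) (x i) ≠ 0) ∧
      Function.Injective (fun l => ((θ ^ a0 l : (ZMod p)ˣ) : ZMod p)) := by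
  classical
  haveI := Fintype.ofFinite Λ
  let W : (Fin n → MonoidAlgebra ℤ K) → Λ → ℤ[T;T⁻¹] := fun x l =>
    ∑ i, pair (fun g => (LaurentPolynomial.T (e i g l) : ℤ[T;T⁻¹])) (x i)
  have hW : ∀ x ∈ X, ∀ l, W x l ≠ 0 := by
    intro x hx l hcon
    obtain ⟨i0, g0, h0⟩ : ∃ i0 g0, (x i0).coeff g0 ≠ 0 := by
      by_contra hc
      push Not at hc
      apply hX x hx
      funext i
      ext g
      simpa using hc i g
    have h1 : (W x l).coeff (e i0 g0 l) = ∑ i, ∑ g ∈ (x i).coeff.support,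
        if e i g l = e i0 g0 l then (x i).coeff g else 0 := by
      simp only [W]
      rw [AddMonoidAlgebra.coeff_sum, Finsupp.finsetSum_apply]
      refine Finset.sum_congr rfl (fun i _ => ?_)
      rw [pair_sum, AddMonoidAlgebra.coeff_sum, Finsupp.finsetSum_apply]
      refine Finset.sum_congr rfl (fun g _ => ?_)
      rw [AddMonoidAlgebra.coeff_smul, Finsupp.smul_apply, LaurentPolynomial.T_apply]
      split_ifs <;> simp
    rw [hcon] at h1
    rw [Finset.sum_eq_single i0, Finset.sum_eq_single g0, if_pos rfl] at h1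
    · exact h0 (by simpa using h1.symm)
    · intro g hg hne
      rw [if_neg]
      intro hk
      exact hne (hinj l i0 i0 g (hXS x hx i0 g (Finsupp.mem_support_iff.mp hg)) g0 (hXS x hx i0 g0 h0) hk).2
    · intro hg
      simp at hg
      simp [hg]
    · intro i _ hne
      refine Finset.sum_eq_zero (fun g hg => ?_)
      rw [if_neg]
      intro hk
      exact hne (hinj l i i0 g (hXS x hx i g (Finsupp.mem_support_iff.mp hg)) g0 (hXS x hx i0 g0 h0) hk).1
    · intro h; exact absurd (Finset.mem_univ _) h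
  let S1 : Finset ℤ[T;T⁻¹] := (X ×ˢ (Finset.univ : Finset Λ)).image (fun u => W u.1 u.2)
  let S2 : Finset ℤ[T;T⁻¹] := ((Finset.univ : Finset (Λ × Λ)).filter (fun u => u.1 ≠ u.2)).image
    (fun u => LaurentPolynomial.T (a0 u.1) - LaurentPolynomial.T (a0 u.2))
  obtain ⟨p, hp, θ, hθ⟩ := Sep.stepB (S1 ∪ S2) (by
    intro f hf
    rcases Finset.mem_union.mp hf with hf | hf
    · obtain ⟨⟨x, l⟩, hu, rfl⟩ := Finset.mem_image.mp hf
      exact hW x (Finset.mem_product.mp hu).1 l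
    · obtain ⟨⟨l, l'⟩, hu, rfl⟩ := Finset.mem_image.mp hf
      simp only [Finset.mem_filter, Finset.mem_univ, true_and] at hu
      intro h0
      have h1 := congrArg (fun f : ℤ[T;T⁻¹] => f.coeff (a0 l)) (sub_eq_zero.mp h0)
      simp only [LaurentPolynomial.T_apply] at h1
      rw [if_pos trivial, if_neg] at h1
      · exact one_ne_zero h1
      · intro h; exact hu (ha0 h.symm))
  refine ⟨p, ⟨hp⟩, θ, ?_, ?_⟩
  · intro x hx l
    have h1 := hθ (W x l) (Finset.mem_union_left _ (Finset.mem_image.mpr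
      ⟨(x, l), Finset.mem_product.mpr ⟨hx, Finset.mem_univ _⟩, rfl⟩))
    intro h0
    apply h1
    rw [← h0]
    simp only [W]
    rw [map_sum]
    refine Finset.sum_congr rfl (fun i _ => ?_)
    have h2 := pair_map ((LaurentPolynomial.eval₂ (Int.castRingHom (ZMod p)) θ : ℤ[T;T⁻¹] →+* ZMod p) : ℤ[T;T⁻¹] →+ ZMod p)
      (fun g => (LaurentPolynomial.T (e i g l) : ℤ[T;T⁻¹])) (x i)
    refine (h2.trans ?_)
    congr 1
    funext g
    exact LaurentPolynomial.eval₂_T _ _ _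
  · intro l l' hll
    by_contra hne
    have h1 := hθ (LaurentPolynomial.T (a0 l) - LaurentPolynomial.T (a0 l'))
      (Finset.mem_union_right _ (Finset.mem_image.mpr ⟨(l, l'), by simpa using hne, rfl⟩))
    apply h1
    rw [map_sub, LaurentPolynomial.eval₂_T, LaurentPolynomial.eval₂_T]
    exact sub_eq_zero.mpr hll

/-- the action -/
theorem action {H K Λ : Type} [Group H] [Group K] [Group Λ] {n p : ℕ}
    (f : H →* Wr ℤ K (Fin n)) (κ : K →* Λ) (e : Fin n → K → Λ → ℤ) (a : K → Λ → ℤ)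
    (ha : ∀ g h l, a (g * h) l = a g l + a h ((κ g)⁻¹ * l))
    (he : ∀ i g h l, e i (g * h) l = a g l + e i h ((κ g)⁻¹ * l)) (θ : (ZMod p)ˣ) :
    ∃ act : H →* Equiv.Perm (Λ → ZMod p), ∀ h z l, act h z l =
      ((θ ^ a (f h).m l : (ZMod p)ˣ) : ZMod p) * z ((κ (f h).m)⁻¹ * l) +
        ∑ i, pair (fun g => ((θ ^ e i g l : (ZMod p)ˣ) : ZMod p)) ((f h).v i) := by
  have ha1 : ∀ l, a 1 l = 0 := by
    intro l
    have := ha 1 1 l
    rw [mul_one, map_one, inv_one, one_mul] at this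
    linarith
  have hpm : ∀ (c : ZMod p) (φ : K → ZMod p) (x : MonoidAlgebra ℤ K),
      c * pair φ x = pair (fun g => c * φ g) x := fun c φ x => pair_map (AddMonoidHom.mulLeft c) φ x
  let F : H →* Function.End (Λ → ZMod p) :=
    { toFun := fun h z l => ((θ ^ a (f h).m l : (ZMod p)ˣ) : ZMod p) * z ((κ (f h).m)⁻¹ * l) +
        ∑ i, pair (fun g => ((θ ^ e i g l : (ZMod p)ˣ) : ZMod p)) ((f h).v i)
      map_one' := by
        funext z l
        simp only [map_one, Wr.one_m, Wr.one_v, Pi.zero_apply, pair_zero, Finset.sum_const_zero,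
          add_zero, ha1, zpow_zero, Units.val_one, one_mul, inv_one]
        rfl
      map_mul' := by
        intro h h'
        funext z l
        change _ = ((θ ^ a (f h).m l : (ZMod p)ˣ) : ZMod p) *
          (((θ ^ a (f h').m ((κ (f h).m)⁻¹ * l) : (ZMod p)ˣ) : ZMod p) *
            z ((κ (f h').m)⁻¹ * ((κ (f h).m)⁻¹ * l)) +
            ∑ i, pair (fun g => ((θ ^ e i g ((κ (f h).m)⁻¹ * l) : (ZMod p)ˣ) : ZMod p)) ((f h').v i)) +
          ∑ i, pair (fun g => ((θ ^ e i g l : (ZMod p)ˣ) : ZMod p)) ((f h).v i)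
        simp only [map_mul, Wr.mul_m, Wr.mul_v, Pi.add_apply, Pi.smul_apply, smul_eq_mul, pair_add,
          pair_of_mul, Finset.sum_add_distrib, ha, zpow_add, Units.val_mul, he, mul_inv_rev]
        rw [mul_add, Finset.mul_sum]
        simp only [hpm, mul_assoc]
        ring }
  exact ⟨F.toHomPerm, fun h z l => rfl⟩

end Pool.Agent.H54R3.Aff
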