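import Mathlib

set_option autoImplicit false

/-! the derived series of a free group is strictly decreasing -/

namespace Pool.Agent.H54R3.Aff

/-- a perfect free group is trivial -/
lemma free_perfect {G : Type} [Group G] [IsFreeGroup G] (h : commutator G = ⊤) : ∀ g : G, g = 1 := by
  have he : IsEmpty (IsFreeGroup.Generators G) := by
    by_contra hne
    rw [not_isEmpty_iff] at hne
    obtain ⟨a⟩ := hne
    let φ : G →* Multiplicative ℤ := IsFreeGroup.lift (fun _ => Multiplicative.ofAdd 1)
    have h1 : φ (IsFreeGroup.of a) = Multiplicative.ofAdd 1 := IsFreeGroup.lift_of _ _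
    have h2 : commutator G ≤ φ.ker := Abelianization.commutator_subset_ker φ
    rw [h] at h2
    have h3 : φ (IsFreeGroup.of a) = 1 := h2 (Subgroup.mem_top _)
    rw [h1] at h3
    have h4 : (1 : ℤ) = 0 := congrArg (Multiplicative.toAdd : Multiplicative ℤ → ℤ) h3
    exact one_ne_zero h4
  intro g
  exact (IsFreeGroup.mulEquiv G).symm.injective (Subsingleton.elim _ _)

lemma not_solvable_free (n : ℕ) (hn : 2 ≤ n) : ¬ Group.IsSolvable (FreeGroup (Fin n)) := by
  intro hs
  let φ : FreeGroup (Fin n) →* Equiv.Perm (Fin 5) :=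
    FreeGroup.lift (fun i => if (i : ℕ) = 0 then finRotate 5 else Equiv.swap 0 (finRotate 5 0))
  have hsurj : Function.Surjective φ := by
    rw [← MonoidHom.range_eq_top, eq_top_iff,
      ← Equiv.Perm.closure_cycle_adjacent_swap (isCycle_finRotate (n := 3)) support_finRotate 0,
      Subgroup.closure_le]
    rintro x (rfl | rfl)
    · exact ⟨FreeGroup.of ⟨0, by omega⟩, by simp [φ]⟩
    · exact ⟨FreeGroup.of ⟨1, by omega⟩, by simp [φ]⟩
  exact Equiv.Perm.not_isSolvable_fin_5 (Group.isSolvable_of_surjective hsurj)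

lemma exists_last (n m : ℕ) (hn : 2 ≤ n) : ∃ w ∈ derivedSeries (FreeGroup (Fin n)) m,
    w ∉ derivedSeries (FreeGroup (Fin n)) (m + 1) := by
  by_contra hcon
  push Not at hcon
  have h1 : commutator (derivedSeries (FreeGroup (Fin n)) m) = ⊤ := by
    rw [eq_top_iff]
    rintro ⟨w, hw⟩ -
    have h2 := hcon w hw
    rw [derivedSeries_succ, ← Subgroup.map_subtype_commutator] at h2
    obtain ⟨u, hu, hu2⟩ := h2
    have : u = ⟨w, hw⟩ := Subtype.ext hu2
    rwa [← this]
  have h2 := free_perfect h1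
  apply not_solvable_free n hn
  refine ⟨⟨m, ?_⟩⟩
  rw [eq_bot_iff]
  intro w hw
  exact congrArg Subtype.val (h2 ⟨w, hw⟩)

end Pool.Agent.H54R3.Aff
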