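import Mathlib
import Pool.Agent.H577R3.Defs2
import Pool.Agent.H577R3.Bi

set_option autoImplicit false

/-! Transfer of clauses between universally equivalent groups -/

namespace Pool.Agent.H54R3.Rig

open FirstOrder FirstOrder.Language Pool.Agent.H577R3

/-- Two groups satisfy the same universal sentences of the language of groups. -/
def UnivEq (G M : Type) [Group G] [Group M] : Prop :=
  ∀ φ : Bi.Lgrp.Sentence, BoundedFormula.IsUniversal φ →
    ((@Sentence.Realize Bi.Lgrp G (Bi.grpStr G) φ) ↔ (@Sentence.Realize Bi.Lgrp M (Bi.grpStr M) φ))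

/-- term of a letter -/
def letT {N : ℕ} (q : Fin N × Bool) : Bi.Lgrp.Term (Empty ⊕ Fin N) :=
  if q.2 then Term.var (Sum.inr q.1) else Term.func (Bi.GFun.inv : Bi.Lgrp.Functions 1) ![Term.var (Sum.inr q.1)]

/-- term of a word -/
def wT {N : ℕ} : List (Fin N × Bool) → Bi.Lgrp.Term (Empty ⊕ Fin N)
  | [] => Term.func (Bi.GFun.one : Bi.Lgrp.Functions 0) ![]
  | q :: l => Term.func (Bi.GFun.mul : Bi.Lgrp.Functions 2) ![letT q, wT l]

section
variable {G : Type} [Group G] {N : ℕ}

lemma letT_realize (v : Fin N → G) (q : Fin N × Bool) :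
    @Term.realize Bi.Lgrp G (Bi.grpStr G) _ (Sum.elim (default : Empty → G) v) (letT q) =
      cond q.2 (v q.1) (v q.1)⁻¹ := by
  obtain ⟨i, b⟩ := q
  cases b
  · rfl
  · rfl

lemma wT_realize (v : Fin N → G) (l : List (Fin N × Bool)) :
    @Term.realize Bi.Lgrp G (Bi.grpStr G) _ (Sum.elim (default : Empty → G) v) (wT l) =
      FreeGroup.lift v (FreeGroup.mk l) := by
  induction l with
  | nil =>
    rw [FreeGroup.lift_mk]
    rfl
  | cons q l ih =>
    rw [FreeGroup.lift_mk, List.map_cons, List.prod_cons]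
    rw [FreeGroup.lift_mk] at ih
    rw [← ih, ← letT_realize]
    rfl

/-- the quantifier free formula `¬ (⋀ q ≠ 1)` -/
def fmQ : List (FreeGroup (Fin N)) → Bi.Lgrp.BoundedFormula Empty N
  | [] => ⊥
  | q :: Q => ((Term.bdEqual (wT q.toWord) (wT [])).not).imp (fmQ Q)

/-- the quantifier free formula `¬ (⋀ p = 1 ∧ ⋀ q ≠ 1)` -/
def fm : List (FreeGroup (Fin N)) → List (FreeGroup (Fin N)) → Bi.Lgrp.BoundedFormula Empty N
  | [], Q => fmQ Q
  | p :: P, Q => (Term.bdEqual (wT p.toWord) (wT [])).imp (fm P Q)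

lemma fmQ_qf (Q : List (FreeGroup (Fin N))) : (fmQ Q).IsQF := by
  induction Q with
  | nil => exact BoundedFormula.isQF_bot
  | cons q Q ih => exact ((BoundedFormula.IsAtomic.equal _ _).isQF.not).imp ih

lemma fm_qf (P Q : List (FreeGroup (Fin N))) : (fm P Q).IsQF := by
  induction P with
  | nil => exact fmQ_qf Q
  | cons p P ih => exact (BoundedFormula.IsAtomic.equal _ _).isQF.imp ih

lemma eq_realize (v : Fin N → G) (w : FreeGroup (Fin N)) :
    (@BoundedFormula.Realize Bi.Lgrp G (Bi.grpStr G) Empty N (Term.bdEqual (wT w.toWord) (wT [])) default v) ↔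
      FreeGroup.lift v w = 1 := by
  let _ := Bi.grpStr G
  rw [BoundedFormula.realize_bdEqual, wT_realize, wT_realize, FreeGroup.mk_toWord, FreeGroup.lift_mk]
  rfl

lemma fmQ_realize (v : Fin N → G) (Q : List (FreeGroup (Fin N))) :
    (@BoundedFormula.Realize Bi.Lgrp G (Bi.grpStr G) Empty N (fmQ Q) default v) ↔
      ((∀ q ∈ Q, FreeGroup.lift v q ≠ 1) → False) := by
  induction Q with
  | nil => 
    constructor
    · intro h; exact absurd h (fun h => h)
    · intro h; exact absurd (fun q hq => absurd hq (by simp)) h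
  | cons q Q ih =>
    let _ := Bi.grpStr G
    change ((Term.bdEqual (wT q.toWord) (wT [])).not.imp (fmQ Q)).Realize default v ↔ _
    rw [BoundedFormula.realize_imp, BoundedFormula.realize_not, eq_realize]
    constructor
    · intro h hQ
      exact ih.mp (h (hQ q (by simp))) (fun p hp => hQ p (by simp [hp]))
    · intro h hq
      refine ih.mpr (fun hQ => h (fun p hp => ?_))
      rcases List.mem_cons.mp hp with rfl | hp
      · exact hq
      · exact hQ p hp

lemma fm_realize (v : Fin N → G) (P Q : List (FreeGroup (Fin N))) :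
    (@BoundedFormula.Realize Bi.Lgrp G (Bi.grpStr G) Empty N (fm P Q) default v) ↔
      ((∀ p ∈ P, FreeGroup.lift v p = 1) → (∀ q ∈ Q, FreeGroup.lift v q ≠ 1) → False) := by
  induction P with
  | nil =>
    constructor
    · intro h _; exact (fmQ_realize v Q).mp h
    · intro h; exact (fmQ_realize v Q).mpr (h (by simp))
  | cons p P ih =>
    let _ := Bi.grpStr G
    change ((Term.bdEqual (wT p.toWord) (wT [])).imp (fm P Q)).Realize default v ↔ _
    rw [BoundedFormula.realize_imp, eq_realize]
    constructor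
    · intro h hP
      exact ih.mp (h (hP p (by simp))) (fun q hq => hP q (by simp [hq]))
    · intro h hp
      refine ih.mpr (fun hP => h (fun q hq => ?_))
      rcases List.mem_cons.mp hq with rfl | hq
      · exact hp
      · exact hP q hq

end

lemma alls_universal {L : FirstOrder.Language.{0,0}} : ∀ {N : ℕ} (φ : L.BoundedFormula Empty N), φ.IsUniversal →
    BoundedFormula.IsUniversal (φ.alls)
  | 0, _, h => h
  | N + 1, φ, h => alls_universal φ.all h.all

/-- transfer of clauses -/
theorem transfer {G M : Type} [Group G] [Group M] (h : UnivEq G M) {N : ℕ}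
    (P Q : List (FreeGroup (Fin N)))
    (hM : ∀ v : Fin N → M, (∀ p ∈ P, FreeGroup.lift v p = 1) → (∀ q ∈ Q, FreeGroup.lift v q ≠ 1) → False) :
    ∀ v : Fin N → G, (∀ p ∈ P, FreeGroup.lift v p = 1) → (∀ q ∈ Q, FreeGroup.lift v q ≠ 1) → False := by
  have h1 := h ((fm P Q).alls) (alls_universal _ (fm_qf P Q).isUniversal)
  have hG : @Sentence.Realize Bi.Lgrp G (Bi.grpStr G) ((fm P Q).alls) := by
    rw [h1]
    let _ := Bi.grpStr M
    have h2 : ((fm P Q).alls).Realize (default : Empty → M) := by
      rw [BoundedFormula.realize_alls]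
      intro v
      exact (fm_realize v P Q).mpr (hM v)
    exact h2
  let _ := Bi.grpStr G
  have hG' : ((fm P Q).alls).Realize (default : Empty → G) := hG
  rw [BoundedFormula.realize_alls] at hG'
  intro v
  exact (fm_realize v P Q).mp (hG' v)

/-- transfer with an arbitrary finite index type -/
theorem transfer' {G M : Type} [Group G] [Group M] (h : UnivEq G M) {ι : Type} [Fintype ι] [DecidableEq ι]
    (P Q : List (FreeGroup ι))
    (hM : ∀ v : ι → M, (∀ p ∈ P, FreeGroup.lift v p = 1) → (∀ q ∈ Q, FreeGroup.lift v q ≠ 1) → False) :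
    ∀ v : ι → G, (∀ p ∈ P, FreeGroup.lift v p = 1) → (∀ q ∈ Q, FreeGroup.lift v q ≠ 1) → False := by
  let e := Fintype.equivFin ι
  have key : ∀ {K : Type} [Group K] (v : ι → K) (w : FreeGroup ι),
      FreeGroup.lift (v ∘ e.symm) (FreeGroup.map e w) = FreeGroup.lift v w := by
    intro K _ v w
    have : (FreeGroup.lift (v ∘ e.symm)).comp (FreeGroup.map e) = FreeGroup.lift v := by
      apply FreeGroup.ext_hom
      intro i
      simp
    exact DFunLike.congr_fun this w
  have key2 : ∀ {K : Type} [Group K] (v : Fin (Fintype.card ι) → K) (w : FreeGroup ι),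
      FreeGroup.lift v (FreeGroup.map e w) = FreeGroup.lift (v ∘ e) w := by
    intro K _ v w
    rw [← key (v ∘ e) w]
    congr 2
    funext i
    simp
  have ht := transfer h (P.map (FreeGroup.map e)) (Q.map (FreeGroup.map e)) (fun v hP hQ => by
    refine hM (v ∘ e) (fun p hp => ?_) (fun q hq => ?_)
    · rw [← key2]; exact hP _ (List.mem_map_of_mem hp)
    · rw [← key2]; exact hQ _ (List.mem_map_of_mem hq))
  intro v hP hQ
  refine ht (v ∘ e.symm) (fun p hp => ?_) (fun q hq => ?_)
  · obtain ⟨p', hp', rfl⟩ := List.mem_map.mp hp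
    rw [key]; exact hP p' hp'
  · obtain ⟨q', hq', rfl⟩ := List.mem_map.mp hq
    rw [key]; exact hQ q' hq'

end Pool.Agent.H54R3.Rig
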