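import Mathlib
import Pool.Agent.H577R3.Defs2
import Pool.Agent.H54R3.SepA

set_option autoImplicit false

namespace Pool.Agent.H54R3.MDQ

open Pool.Agent.Helper777.Prof Pool.Agent.H577R3 Pool.Agent.H54R3.Sep

lemma wr_v (k M ι : Type) [CommRing k] [Group M] (g a : Wr k M ι) (ha : a.m = 1) :
    (g * a * g⁻¹).v = MonoidAlgebra.of k M g.m • a.v := by
  rw [Wr.mul_v, Wr.mul_v, Wr.mul_m, ha, mul_one, Wr.inv_v, smul_neg, smul_smul, ← map_mul,
    mul_inv_cancel, map_one, one_smul]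
  abel

theorem md_dq (n d : ℕ) : ∃ π : Dq (Fin n) (d + 1) →* Dq (Fin n) d,
    (∀ w, π (pn (Fin n) (d + 1) w) = pn (Fin n) d w) ∧ Nonempty (MD π n) := by
  obtain ⟨f, hf, hfm⟩ := dq_embed (ι := Fin n) d
  let π : Dq (Fin n) (d + 1) →* Dq (Fin n) d := ⟨⟨fun t => (f t).m, by rw [map_one]; rfl⟩,
    fun a b => by change (f (a * b)).m = _; rw [map_mul]; rfl⟩
  refine ⟨π, ?_, ⟨⟨fun g => (f g).v, ?_, ?_, ?_⟩⟩⟩
  · intro w
    change (f (pn (Fin n) (d + 1) w)).m = _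
    rw [hfm, mag_m]
  · intro a b ha _
    have ha' : (f a).m = 1 := ha
    rw [map_mul, Wr.mul_v, ha', map_one, one_smul]
  · intro g a ha
    have ha' : (f a).m = 1 := ha
    rw [map_mul, map_mul, map_inv, wr_v _ _ _ _ _ ha']
    rfl
  · intro a ha hv
    have ha' : (f a).m = 1 := ha
    apply hf
    rw [map_one]
    exact Wr.ext hv ha'

theorem md_zm (n : ℕ) : ∃ π : Dq (Fin n) 2 →* Zm n,
    (∀ i, π (gens n 2 i) = zb i) ∧ Nonempty (MD π n) := by
  obtain ⟨π1, hπ1, ⟨D⟩⟩ := md_dq n 1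
  let e0 : Multiplicative (Fin n →₀ ℤ) →* Zm n :=
    AddMonoidHom.toMultiplicative (Finsupp.coeFnAddHom : (Fin n →₀ ℤ) →+ (Fin n → ℤ))
  let E : Dq (Fin n) 1 →* Zm n := e0.comp (ex1 (Fin n))
  have hE : Function.Injective E := by
    intro a b hab
    apply ex1_inj
    apply Multiplicative.toAdd.injective
    exact DFunLike.coe_injective (congrArg Multiplicative.toAdd hab)
  let Φ : MonoidAlgebra ℤ (Dq (Fin n) 1) →+* MonoidAlgebra ℤ (Zm n) := MonoidAlgebra.mapDomainRingHom ℤ E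
  have hΦ : Function.Injective Φ := MonoidAlgebra.mapDomain_injective hE
  refine ⟨E.comp π1, ?_, ⟨⟨fun g i => Φ (D.μ g i), ?_, ?_, ?_⟩⟩⟩
  · intro i
    change E (π1 (pn (Fin n) 2 (FreeGroup.of i))) = _
    rw [hπ1]
    change e0 (ex1 (Fin n) (pn (Fin n) 1 (FreeGroup.of i))) = _
    rw [ex1_pn, ex0_of]
    change Multiplicative.ofAdd ((Finsupp.single i (1 : ℤ) : Fin n →₀ ℤ) : Fin n → ℤ) = _
    rw [Finsupp.single_eq_pi_single]
  · intro a b ha hb
    have ha' : π1 a = 1 := hE (by rw [map_one]; exact ha)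
    have hb' : π1 b = 1 := hE (by rw [map_one]; exact hb)
    funext i
    change Φ (D.μ (a * b) i) = Φ (D.μ a i) + Φ (D.μ b i)
    rw [D.mul a b ha' hb', Pi.add_apply, map_add]
  · intro g a ha
    have ha' : π1 a = 1 := hE (by rw [map_one]; exact ha)
    funext i
    change Φ (D.μ (g * a * g⁻¹) i) = MonoidAlgebra.of ℤ (Zm n) (E (π1 g)) * Φ (D.μ a i)
    rw [D.conj g a ha', Pi.smul_apply, smul_eq_mul, map_mul]
    congr 1
    simp [Φ]
  · intro a ha h0
    have ha' : π1 a = 1 := hE (by rw [map_one]; exact ha)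
    apply D.inj a ha'
    funext i
    apply hΦ
    rw [show Φ (D.μ a i) = 0 from congrFun h0 i]
    simp

end Pool.Agent.H54R3.MDQ
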