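import Mathlib
import Pool.Agent.H577R3.Defs2
import Pool.Agent.H54R3.TaskMDQ

set_option autoImplicit false

/-! facts about `MD` -/

namespace Pool.Agent.H54R3.Rig

open Pool.Agent.H577R3 Pool.Agent.Helper777.Prof

section
variable {G H : Type} [Group G] [Group H] {π : G →* H} {k : ℕ} (D : MD π k)
include D

lemma mu_one : D.μ 1 = 0 := by
  have := D.mul 1 1 (map_one π) (map_one π)
  rw [mul_one] at this
  simpa using this

lemma mu_inv {a : G} (ha : π a = 1) : D.μ a⁻¹ = - D.μ a := by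
  have h1 := D.mul a⁻¹ a (by rw [map_inv, ha, inv_one]) ha
  rw [inv_mul_cancel, mu_one D] at h1
  exact eq_neg_of_add_eq_zero_left h1.symm

lemma mu_inj {a b : G} (ha : π a = 1) (hb : π b = 1) (h : D.μ a = D.μ b) : a = b := by
  have h1 := D.mul a b⁻¹ ha (by rw [map_inv, hb, inv_one])
  rw [mu_inv D hb, h, add_neg_cancel] at h1
  have h2 := D.inj _ (by rw [map_mul, map_inv, ha, hb]; simp) h1
  exact mul_inv_eq_one.mp h2

lemma mu_pow {a : G} (ha : π a = 1) (n : ℕ) : D.μ (a ^ n) = n • D.μ a := by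
  induction n with
  | zero => rw [pow_zero, zero_smul, mu_one D]
  | succ n ih => rw [pow_succ, D.mul _ _ (by rw [map_pow, ha, one_pow]) ha, ih, succ_nsmul]

lemma mu_zpow {a : G} (ha : π a = 1) (n : ℤ) : D.μ (a ^ n) = n • D.μ a := by
  obtain ⟨m, rfl | rfl⟩ := n.eq_nat_or_neg
  · rw [zpow_natCast, mu_pow D ha, natCast_zsmul]
  · rw [zpow_neg, zpow_natCast, mu_inv D (by rw [map_pow, ha, one_pow]), mu_pow D ha, neg_smul,
      natCast_zsmul]

/-- elements of the kernel commute -/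
lemma ker_comm {a b : G} (ha : π a = 1) (hb : π b = 1) : a * b = b * a := by
  have h1 := D.conj a b hb
  rw [ha, map_one, one_smul] at h1
  have h2 := mu_inj D (by rw [map_mul, map_mul, map_inv, ha, hb]; simp) hb h1
  exact mul_inv_eq_iff_eq_mul.mp h2

lemma mu_conj_zpow {a g : G} (ha : π a = 1) (n : ℤ) :
    D.μ (g * a ^ n * g⁻¹) = (n • MonoidAlgebra.of ℤ H (π g)) • D.μ a := by
  rw [D.conj g _ (by rw [map_zpow, ha, one_zpow]), mu_zpow D ha]
  funext i
  simp only [Pi.smul_apply, smul_eq_mul]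
  rw [mul_smul_comm, smul_mul_assoc]

lemma mu_list {a : G} (ha : π a = 1) {r : ℕ} (g : Fin r → G) (n : Fin r → ℤ) :
    π (List.ofFn (fun i => g i * a ^ n i * (g i)⁻¹)).prod = 1 ∧
    D.μ (List.ofFn (fun i => g i * a ^ n i * (g i)⁻¹)).prod =
      (∑ i, n i • MonoidAlgebra.of ℤ H (π (g i))) • D.μ a := by
  induction r with
  | zero =>
    refine ⟨by simp, ?_⟩
    simp [mu_one D]
  | succ r ih =>
    obtain ⟨h1, h2⟩ := ih (fun i => g i.succ) (fun i => n i.succ)
    rw [List.ofFn_succ, List.prod_cons]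
    have h3 : π (g 0 * a ^ n 0 * (g 0)⁻¹) = 1 := by
      rw [map_mul, map_mul, map_zpow, ha, map_inv]; simp
    refine ⟨by rw [map_mul, h1, h3, one_mul], ?_⟩
    rw [D.mul _ _ h3 h1, h2, mu_conj_zpow D ha, Fin.sum_univ_succ, add_smul]

/-- centralizers -/
lemma cent [NoZeroDivisors (MonoidAlgebra ℤ H)] {c : G} (hc : π c = 1) (hc1 : c ≠ 1) {a : G}
    (h : a * c = c * a) : π a = 1 := by
  have h1 := D.conj a c hc
  have h2 : a * c * a⁻¹ = c := by rw [h]; group
  rw [h2] at h1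
  have h3 : D.μ c ≠ 0 := fun h0 => hc1 (D.inj c hc h0)
  obtain ⟨i, hi⟩ := Function.ne_iff.mp h3
  have h4 := congrFun h1 i
  rw [Pi.smul_apply, smul_eq_mul] at h4
  have h5 : (MonoidAlgebra.of ℤ H (π a) - 1) * D.μ c i = 0 := by
    rw [sub_mul, one_mul, ← h4, sub_self]
  rcases mul_eq_zero.mp h5 with h6 | h6
  · apply MonoidAlgebra.of_injective (R := ℤ)
    rw [map_one]
    exact sub_eq_zero.mp h6
  · exact absurd h6 hi

/-- torsion-freeness -/
lemma tf [NoZeroDivisors (MonoidAlgebra ℤ H)] {a : G} (ha : π a = 1) (ha1 : a ≠ 1) {r : ℕ}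
    (g : Fin r → G) (n : Fin r → ℤ) (hn : ∃ i, n i ≠ 0)
    (hg : ∀ i j, i ≠ j → π (g i) ≠ π (g j)) :
    (List.ofFn (fun i => g i * a ^ n i * (g i)⁻¹)).prod ≠ 1 := by
  intro h
  have h1 := (mu_list D ha g n).2
  rw [h, mu_one D] at h1
  have h3 : D.μ a ≠ 0 := fun h0 => ha1 (D.inj a ha h0)
  obtain ⟨i, hi⟩ := Function.ne_iff.mp h3
  have h4 := congrFun h1 i
  rw [Pi.smul_apply, smul_eq_mul] at h4
  rcases mul_eq_zero.mp h4.symm with h5 | h5
  · obtain ⟨j, hj⟩ := hn
    have h6 := congrArg (fun x : MonoidAlgebra ℤ H => x.coeff (π (g j))) h5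
    simp only [MonoidAlgebra.coeff_sum, Finsupp.finsetSum_apply] at h6
    rw [Finset.sum_eq_single j] at h6
    · apply hj
      simpa using h6
    · intro l _ hl
      rw [MonoidAlgebra.coeff_smul, Finsupp.smul_apply, MonoidAlgebra.of_apply, MonoidAlgebra.coeff_single,
        Finsupp.single_eq_of_ne (fun h => hg l j hl h.symm), smul_zero]
    · intro hn; exact absurd (Finset.mem_univ _) hn
  · exact hi h5

end

end Pool.Agent.H54R3.Rig
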