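import Mathlib

set_option autoImplicit false

/-! Lemma C (easy direction) for MP_c1ff29_an (helper943). -/

open MeasureTheory Set
open scoped Topology

namespace Pool.Agent.H54R3.StepC

noncomputable def bmp (t : ℝ) : ℝ := (max 0 (1 - t ^ 2)) ^ 3
noncomputable def bmp1 (t : ℝ) : ℝ := -6 * t * (max 0 (1 - t ^ 2)) ^ 2
noncomputable def bmp2 (t : ℝ) : ℝ :=
  24 * t ^ 2 * (max 0 (1 - t ^ 2)) - 6 * (max 0 (1 - t ^ 2)) ^ 2
def C2T (G G1 G2 : ℝ → ℝ) : Prop :=
  (∀ t, HasDerivAt G (G1 t) t) ∧ (∀ t, HasDerivAt G1 (G2 t) t) ∧ Continuous G2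
def FBox (δ ρ : ℝ) : Set (Fin 3 → ℝ) := {s | 0 < s 0 ∧ s 0 < δ ∧ |s 1| < ρ ∧ |s 2| < ρ}

lemma pospow_hasDeriv (n : ℕ) (t : ℝ) :
    HasDerivAt (fun t : ℝ => (max 0 t) ^ (n + 2)) ((n + 2) * (max 0 t) ^ (n + 1)) t := by
  have hpow : ∀ t : ℝ, HasDerivAt (fun t : ℝ => t ^ (n + 2)) ((n + 2) * t ^ (n + 1)) t := by
    intro t
    have := hasDerivAt_pow (n + 2) t
    push_cast at this
    exact this
  rcases lt_trichotomy t 0 with h | h | h
  · have h1 : (fun t : ℝ => (max 0 t) ^ (n + 2)) =ᶠ[𝓝 t] fun _ => 0 := by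
      filter_upwards [Iio_mem_nhds h] with x hx
      rw [max_eq_left (le_of_lt hx), zero_pow (by omega)]
    rw [max_eq_left h.le, zero_pow (by omega), mul_zero]
    exact (hasDerivAt_const t (0:ℝ)).congr_of_eventuallyEq h1
  · subst h
    rw [max_self, zero_pow (by omega), mul_zero]
    have h1 : HasDerivWithinAt (fun t : ℝ => (max 0 t) ^ (n + 2)) 0 (Iic 0) 0 := by
      refine (hasDerivWithinAt_const (0:ℝ) (Iic 0) (0:ℝ)).congr (fun x hx => ?_) ?_
      · rw [max_eq_left hx, zero_pow (by omega)]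
      · rw [max_self, zero_pow (by omega)]
    have h2 : HasDerivWithinAt (fun t : ℝ => (max 0 t) ^ (n + 2)) 0 (Ici 0) 0 := by
      have h3 := (hpow 0).hasDerivWithinAt (s := Ici 0)
      rw [zero_pow (by omega), mul_zero] at h3
      refine h3.congr (fun x hx => ?_) ?_
      · rw [max_eq_right hx]
      · rw [max_self]
    have h3 := h1.union h2
    rw [Iic_union_Ici] at h3
    exact hasDerivWithinAt_univ.mp h3
  · have h1 : (fun t : ℝ => (max 0 t) ^ (n + 2)) =ᶠ[𝓝 t] fun t => t ^ (n + 2) := by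
      filter_upwards [Ioi_mem_nhds h] with x hx
      rw [max_eq_right (le_of_lt hx)]
    rw [max_eq_right h.le]
    exact (hpow t).congr_of_eventuallyEq h1

lemma C2T_cube {g g1 g2 : ℝ → ℝ} (h : C2T g g1 g2) :
    C2T (fun t => (max 0 (g t)) ^ 3) (fun t => 3 * (max 0 (g t)) ^ 2 * g1 t)
      (fun t => 6 * (max 0 (g t)) * g1 t ^ 2 + 3 * (max 0 (g t)) ^ 2 * g2 t) := by
  obtain ⟨h1, h2, h3⟩ := h
  have hc : Continuous g := continuous_iff_continuousAt.2 fun x => (h1 x).continuousAt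
  have hc1 : Continuous g1 := continuous_iff_continuousAt.2 fun x => (h2 x).continuousAt
  refine ⟨fun t => ?_, fun t => ?_, by fun_prop⟩
  · have := (pospow_hasDeriv 1 (g t)).comp t (h1 t)
    norm_num at this
    exact this
  · have e1 := (pospow_hasDeriv 0 (g t)).comp t (h1 t)
    have e2 := (e1.const_mul 3).mul (h2 t)
    norm_num at e2
    convert! e2 using 1
    ring

lemma C2T_mul {g g1 g2 f f1 f2 : ℝ → ℝ} (h : C2T g g1 g2) (k : C2T f f1 f2) :
    C2T (fun t => g t * f t) (fun t => g1 t * f t + g t * f1 t)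
      (fun t => g2 t * f t + 2 * (g1 t * f1 t) + g t * f2 t) := by
  obtain ⟨h1, h2, h3⟩ := h
  obtain ⟨k1, k2, k3⟩ := k
  have hc : Continuous g := continuous_iff_continuousAt.2 fun x => (h1 x).continuousAt
  have hc1 : Continuous g1 := continuous_iff_continuousAt.2 fun x => (h2 x).continuousAt
  have kc : Continuous f := continuous_iff_continuousAt.2 fun x => (k1 x).continuousAt
  have kc1 : Continuous f1 := continuous_iff_continuousAt.2 fun x => (k2 x).continuousAt
  refine ⟨fun t => (h1 t).mul (k1 t), fun t => ?_, by fun_prop⟩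
  have := ((h2 t).mul (k1 t)).add ((h1 t).mul (k2 t))
  convert! this using 1
  ring

lemma C2T_quad (a b c : ℝ) : C2T (fun t => a + b * t + c * t ^ 2) (fun t => b + 2 * c * t) (fun _ => 2 * c) := by
  refine ⟨fun t => ?_, fun t => ?_, continuous_const⟩
  · have := ((hasDerivAt_const t a).add ((hasDerivAt_id t).const_mul b)).add ((hasDerivAt_pow 2 t).const_mul c)
    convert! this using 1
    push_cast; ring
  · have := (hasDerivAt_const t b).add ((hasDerivAt_id t).const_mul (2 * c))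
    convert! this using 1
    ring

lemma C2T_congr {g g1 g2 f f1 f2 : ℝ → ℝ} (h : C2T g g1 g2) (e : ∀ t, f t = g t) (e1 : ∀ t, f1 t = g1 t)
    (e2 : ∀ t, f2 t = g2 t) : C2T f f1 f2 := by
  rw [show f = g from funext e, show f1 = g1 from funext e1, show f2 = g2 from funext e2]
  exact h

/-- scaled bump -/
lemma C2T_bump (x : ℝ) {r : ℝ} (hr : r ≠ 0) :
    C2T (fun t => bmp ((t - x) / r)) (fun t => bmp1 ((t - x) / r) / r) (fun t => bmp2 ((t - x) / r) / r ^ 2) := by
  have h := C2T_cube (C2T_quad (1 - x ^ 2 / r ^ 2) (2 * x / r ^ 2) (-1 / r ^ 2))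
  have e : ∀ t : ℝ, (1 - x ^ 2 / r ^ 2) + (2 * x / r ^ 2) * t + (-1 / r ^ 2) * t ^ 2 = 1 - ((t - x) / r) ^ 2 := by
    intro t; field_simp; ring
  refine C2T_congr h (fun t => ?_) (fun t => ?_) (fun t => ?_)
  · simp only [e, bmp]
  · simp only [e, bmp1]; field_simp; ring
  · simp only [e, bmp2]; field_simp; ring

lemma bmp_nonneg (t : ℝ) : 0 ≤ bmp t := by unfold bmp; positivity
lemma bmp_pos {t : ℝ} (h : |t| < 1) : 0 < bmp t := by
  unfold bmp
  have h1 : t ^ 2 < 1 := by rw [← sq_abs]; nlinarith [abs_nonneg t]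
  have : 0 < max 0 (1 - t ^ 2) := lt_max_of_lt_right (by linarith)
  positivity
lemma bmp_zero {t : ℝ} (h : 1 ≤ |t|) : bmp t = 0 := by
  unfold bmp
  have h1 : 1 ≤ t ^ 2 := by rw [← sq_abs]; nlinarith [abs_nonneg t]
  rw [max_eq_left (by linarith)]; norm_num
lemma bmp2_zero {t : ℝ} (h : 1 ≤ |t|) : bmp2 t = 0 := by
  unfold bmp2
  have h1 : 1 ≤ t ^ 2 := by rw [← sq_abs]; nlinarith [abs_nonneg t]
  rw [max_eq_left (by linarith)]; norm_num
lemma bmp2_ge (t : ℝ) : - 6 * bmp t ≤ bmp2 t := by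
  rcases le_total 1 |t| with h | h
  · rw [bmp_zero h, bmp2_zero h]; norm_num
  · have h1 : t ^ 2 ≤ 1 := by rw [← sq_abs]; nlinarith [abs_nonneg t]
    unfold bmp bmp2
    rw [max_eq_right (by linarith)]
    have h2 : 0 ≤ (1 - t ^ 2) * t ^ 2 * (24 - 6 * (1 - t ^ 2)) := by
      have : 0 ≤ t ^ 2 := sq_nonneg t
      have h3 : 0 ≤ 1 - t ^ 2 := by linarith
      have h4 : 0 ≤ 24 - 6 * (1 - t ^ 2) := by linarith
      positivity
    nlinarith [h2]

/-- radial test function -/
noncomputable def GG (k d a : ℝ) : ℝ := (1 + k * a) * (max 0 (1 - a / d)) ^ 3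
noncomputable def GG1 (k d a : ℝ) : ℝ := k * (max 0 (1 - a / d)) ^ 3 - 3 / d * (1 + k * a) * (max 0 (1 - a / d)) ^ 2
noncomputable def GG2 (k d a : ℝ) : ℝ :=
  -(6 * k / d) * (max 0 (1 - a / d)) ^ 2 + 6 / d ^ 2 * (1 + k * a) * max 0 (1 - a / d)

lemma C2T_GG (k : ℝ) {d : ℝ} (hd : d ≠ 0) : C2T (GG k d) (GG1 k d) (GG2 k d) := by
  have h := C2T_mul (C2T_quad 1 k 0) (C2T_cube (C2T_quad 1 (-1 / d) 0))
  have e : ∀ t : ℝ, 1 + (-1 / d) * t + 0 * t ^ 2 = 1 - t / d := by intro t; ring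
  refine C2T_congr h (fun t => ?_) (fun t => ?_) (fun t => ?_)
  · simp only [e, GG]; ring
  · simp only [e, GG1]; ring
  · simp only [e, GG2]; ring

lemma GG_zero {k d a : ℝ} (hd : 0 < d) (h : d ≤ a) : GG k d a = 0 ∧ GG1 k d a = 0 ∧ GG2 k d a = 0 := by
  have h1 : max 0 (1 - a / d) = 0 := max_eq_left (by
    have : 1 ≤ a / d := by rw [le_div_iff₀ hd]; linarith
    linarith)
  unfold GG GG1 GG2
  rw [h1]
  refine ⟨by ring, by ring, by ring⟩

/-- the bracket -/
noncomputable def br (k d K α a : ℝ) : ℝ :=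
  6 / d ^ 2 * (-2 - α * d + 2 * k * a) - K * (1 + k * a) * (1 - a / d) ^ 2

lemma GG2_sub {k d K α a : ℝ} (hd : 0 < d) (hk : k = α + 3 / d) (ha : a ≤ d) :
    GG2 k d a - K * GG k d a = (1 - a / d) * br k d K α a := by
  have h1 : max 0 (1 - a / d) = 1 - a / d := max_eq_right (by
    have : a / d ≤ 1 := by rw [div_le_one hd]; exact ha
    linarith)
  unfold GG GG2 br
  rw [h1, hk]
  field_simp
  ring

lemma br_mono {k d K α : ℝ} (hd : 0 < d) (hk0 : 0 < k) (hK : 0 ≤ K) (hKd : K * d ^ 2 ≤ 12)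
    {x y : ℝ} (hx : 0 ≤ x) (hxy : x ≤ y) (hy : y ≤ d) : br k d K α x ≤ br k d K α y := by
  unfold br
  have h1 : 0 ≤ 1 - y / d := by
    have : y / d ≤ 1 := by rw [div_le_one hd]; exact hy
    linarith
  have h2 : 1 - y / d ≤ 1 - x / d := by
    have : x / d ≤ y / d := by gcongr
    linarith
  have h3 : 1 - x / d ≤ 1 := by
    have : 0 ≤ x / d := by positivity
    linarith
  have h4 : (1 + k * y) * (1 - y / d) ^ 2 - (1 + k * x) * (1 - x / d) ^ 2 ≤ k * (y - x) := by
    have e : (1 + k * y) * (1 - y / d) ^ 2 - (1 + k * x) * (1 - x / d) ^ 2 =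
        (1 + k * x) * ((1 - y / d) ^ 2 - (1 - x / d) ^ 2) + k * (y - x) * (1 - y / d) ^ 2 := by ring
    have e1 : (1 - y / d) ^ 2 - (1 - x / d) ^ 2 ≤ 0 := by nlinarith
    have e2 : (1 - y / d) ^ 2 ≤ 1 := by nlinarith
    have e3 : 0 ≤ 1 + k * x := by positivity
    have e4 : 0 ≤ k * (y - x) := mul_nonneg hk0.le (by linarith)
    rw [e]
    nlinarith [mul_nonpos_of_nonneg_of_nonpos e3 e1, mul_le_mul_of_nonneg_left e2 e4]
  have h5 : K ≤ 12 / d ^ 2 := by rw [le_div_iff₀ (by positivity)]; exact hKd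
  have h6 : 0 ≤ k * (y - x) := mul_nonneg hk0.le (by linarith)
  have h7 : K * (k * (y - x)) ≤ 12 / d ^ 2 * (k * (y - x)) := by gcongr
  have h8 : K * ((1 + k * y) * (1 - y / d) ^ 2 - (1 + k * x) * (1 - x / d) ^ 2) ≤ K * (k * (y - x)) := by gcongr
  have e : 6 / d ^ 2 * (-2 - α * d + 2 * k * y) - K * (1 + k * y) * (1 - y / d) ^ 2 -
      (6 / d ^ 2 * (-2 - α * d + 2 * k * x) - K * (1 + k * x) * (1 - x / d) ^ 2) =
      12 / d ^ 2 * (k * (y - x)) - K * ((1 + k * y) * (1 - y / d) ^ 2 - (1 + k * x) * (1 - x / d) ^ 2) := by ring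
  linarith

lemma exists_a0 {k d K α : ℝ} (hd : 0 < d) (hα : 0 < α) (hk : k = α + 3 / d) (hK : 0 ≤ K)
    (hKd : K * d ^ 2 ≤ 12) : ∃ a0, 0 < a0 ∧ a0 < d ∧ (∀ a, 0 ≤ a → a ≤ a0 → br k d K α a ≤ 0) ∧
      (∀ a, a0 ≤ a → a ≤ d → 0 ≤ br k d K α a) := by
  have hk0 : 0 < k := by rw [hk]; positivity
  have h0 : br k d K α 0 < 0 := by
    unfold br
    have : 0 < 6 / d ^ 2 := by positivity
    have h2 : 6 / d ^ 2 * (-2 - α * d + 2 * k * 0) < 0 := mul_neg_of_pos_of_neg this (by nlinarith)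
    have h3 : 0 ≤ K * (1 + k * 0) * (1 - 0 / d) ^ 2 := by
      rw [mul_zero, add_zero, mul_one]; positivity
    linarith
  have h1 : 0 < br k d K α d := by
    unfold br
    rw [div_self hd.ne', sub_self, hk]
    have e : -2 - α * d + 2 * (α + 3 / d) * d = 4 + α * d := by field_simp; ring
    rw [e]
    have : 0 < 6 / d ^ 2 := by positivity
    have h2 : 0 < 6 / d ^ 2 * (4 + α * d) := by positivity
    nlinarith
  have hcont : ContinuousOn (br k d K α) (Icc 0 d) := by unfold br; fun_prop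
  obtain ⟨a0, ⟨ha0, ha0d⟩, hbr⟩ := intermediate_value_Icc hd.le hcont ⟨h0.le, h1.le⟩
  refine ⟨a0, lt_of_le_of_ne ha0 ?_, lt_of_le_of_ne ha0d ?_, ?_, ?_⟩
  · rintro rfl; rw [hbr] at h0; exact lt_irrefl _ h0
  · rintro rfl; rw [hbr] at h1; exact lt_irrefl _ h1
  · intro a ha haa
    rw [← hbr]
    exact br_mono hd hk0 hK hKd ha haa ha0d
  · intro a haa had
    rw [← hbr]
    exact br_mono hd hk0 hK hKd ha0 haa had

/-- the one dimensional integral -/
lemma int_pos {α β d δ K k : ℝ} (hα : 0 < α) (hβ : α < β) (hd : 0 < d) (hdδ : d < δ) (hK : 0 ≤ K)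
    (hk : k = α + 3 / d) (hsmall : K * (d * (Real.exp (β * d) * (4 + α * d))) < β - α) :
    0 < ∫ a in Ioo 0 δ, Real.exp (β * a) * (GG2 k d a - K * GG k d a) := by
  have hk0 : 0 < k := by rw [hk]; positivity
  have hC := C2T_GG k hd.ne'
  obtain ⟨h1, h2, h3⟩ := hC
  have hc : Continuous (GG k d) := continuous_iff_continuousAt.2 fun x => (h1 x).continuousAt
  have hc1 : Continuous (GG1 k d) := continuous_iff_continuousAt.2 fun x => (h2 x).continuousAt
  have hδ : 0 ≤ δ := by linarith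
  rw [← integral_Ioc_eq_integral_Ioo, ← intervalIntegral.integral_of_le hδ]
  have hprim : ∫ a in (0:ℝ)..δ, Real.exp (β * a) * (GG2 k d a - β ^ 2 * GG k d a) = β - α := by
    have hder : ∀ a ∈ Set.uIcc (0:ℝ) δ, HasDerivAt (fun a => Real.exp (β * a) * (GG1 k d a - β * GG k d a))
        (Real.exp (β * a) * (GG2 k d a - β ^ 2 * GG k d a)) a := by
      intro a _
      have e1 : HasDerivAt (fun a => Real.exp (β * a)) (Real.exp (β * a) * β) a := by
        have := ((hasDerivAt_id a).const_mul β).exp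
        simpa using this
      have e2 := e1.mul ((h2 a).sub ((h1 a).const_mul β))
      convert! e2 using 1
      simp only [Pi.sub_apply]
      ring
    rw [intervalIntegral.integral_eq_sub_of_hasDerivAt hder (Continuous.intervalIntegrable (by fun_prop) _ _)]
    obtain ⟨z1, z2, z3⟩ := GG_zero (k := k) hd hdδ.le
    rw [z1, z2]
    have e0 : max 0 (1 - (0:ℝ) / d) = 1 := by
      rw [zero_div, sub_zero]; exact max_eq_right zero_le_one
    have g0 : GG k d 0 = 1 := by unfold GG; rw [e0]; ring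
    have g1 : GG1 k d 0 = α := by unfold GG1; rw [e0, hk]; ring
    rw [g0, g1, mul_zero β, Real.exp_zero]
    ring
  have hsplit : ∫ a in (0:ℝ)..δ, Real.exp (β * a) * (GG2 k d a - K * GG k d a) =
      (β - α) + (β ^ 2 - K) * ∫ a in (0:ℝ)..δ, Real.exp (β * a) * GG k d a := by
    rw [← hprim, ← intervalIntegral.integral_const_mul, ← intervalIntegral.integral_add
      (Continuous.intervalIntegrable (by fun_prop) _ _) (Continuous.intervalIntegrable (by fun_prop) _ _)]
    refine intervalIntegral.integral_congr fun a _ => ?_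
    ring
  rw [hsplit]
  have hI : ∫ a in (0:ℝ)..δ, Real.exp (β * a) * GG k d a = ∫ a in (0:ℝ)..d, Real.exp (β * a) * GG k d a := by
    rw [← intervalIntegral.integral_add_adjacent_intervals (b := d)
      (Continuous.intervalIntegrable (by fun_prop) _ _) (Continuous.intervalIntegrable (by fun_prop) _ _)]
    have : ∫ a in d..δ, Real.exp (β * a) * GG k d a = ∫ a in d..δ, (0:ℝ) := by
      refine intervalIntegral.integral_congr fun a ha => ?_
      rw [Set.uIcc_of_le hdδ.le] at ha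
      rw [(GG_zero (k := k) hd ha.1).1, mul_zero]
    rw [this, intervalIntegral.integral_zero, add_zero]
  have hnn : 0 ≤ ∫ a in (0:ℝ)..d, Real.exp (β * a) * GG k d a := by
    refine intervalIntegral.integral_nonneg hd.le (fun a ha => ?_)
    have : 0 ≤ 1 + k * a := by have := ha.1; positivity
    unfold GG
    positivity
  have hle : ∫ a in (0:ℝ)..d, Real.exp (β * a) * GG k d a ≤ d * (Real.exp (β * d) * (4 + α * d)) := by
    have h5 : ∫ a in (0:ℝ)..d, Real.exp (β * a) * GG k d a ≤ ∫ a in (0:ℝ)..d, Real.exp (β * d) * (4 + α * d) := by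
      refine intervalIntegral.integral_mono_on hd.le (Continuous.intervalIntegrable (by fun_prop) _ _)
        (Continuous.intervalIntegrable (by fun_prop) _ _) (fun a ha => ?_)
      have hβ0 : 0 < β := by linarith
      have e1 : Real.exp (β * a) ≤ Real.exp (β * d) := Real.exp_le_exp.mpr (by nlinarith [ha.2])
      have e2 : GG k d a ≤ 4 + α * d := by
        unfold GG
        have e3 : max 0 (1 - a / d) ≤ 1 := max_le zero_le_one (by
          have : 0 ≤ a / d := div_nonneg ha.1 hd.le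
          linarith)
        have e4 : (max 0 (1 - a / d)) ^ 3 ≤ 1 := pow_le_one₀ (le_max_left _ _) e3
        have e5 : 1 + k * a ≤ 4 + α * d := by
          have : k * a ≤ k * d := by nlinarith [ha.2]
          have e6 : k * d = α * d + 3 := by rw [hk]; field_simp
          linarith
        have e7 : 0 ≤ 1 + k * a := by have := ha.1; positivity
        calc (1 + k * a) * (max 0 (1 - a / d)) ^ 3 ≤ (1 + k * a) * 1 := by gcongr
          _ ≤ 4 + α * d := by linarith
      have e8 : 0 ≤ GG k d a := by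
        have : 0 ≤ 1 + k * a := by have := ha.1; positivity
        unfold GG
        positivity
      exact mul_le_mul e1 e2 e8 (Real.exp_pos _).le
    rw [intervalIntegral.integral_const, smul_eq_mul, sub_zero] at h5
    exact h5
  rw [hI]
  set I := ∫ a in (0:ℝ)..d, Real.exp (β * a) * GG k d a
  have h6 : K * I ≤ K * (d * (Real.exp (β * d) * (4 + α * d))) := by gcongr
  have h7 : 0 ≤ β ^ 2 * I := by positivity
  nlinarith

end Pool.Agent.H54R3.StepC
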