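import Mathlib
import Pool.Agent.H54R3.StepC0

set_option autoImplicit false

/-! Lemma C (easy direction) for MP_c1ff29_an (helper943). -/

open MeasureTheory Set
open scoped Topology

namespace Pool.Agent.H54R3.StepC

lemma FBox_open (δ ρ : ℝ) : IsOpen (FBox δ ρ) := by
  have h : FBox δ ρ = {s : Fin 3 → ℝ | 0 < s 0} ∩ ({s | s 0 < δ} ∩ ({s | |s 1| < ρ} ∩ {s | |s 2| < ρ})) := by
    ext s; simp [FBox]
  rw [h]
  exact (isOpen_lt continuous_const (continuous_apply 0)).inter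
    ((isOpen_lt (continuous_apply 0) continuous_const).inter
      ((isOpen_lt (continuous_apply 1).abs continuous_const).inter
        (isOpen_lt (continuous_apply 2).abs continuous_const)))

lemma FBox_fin (δ ρ : ℝ) : volume (FBox δ ρ) < ⊤ := by
  refine lt_of_le_of_lt (measure_mono (t := Icc ![0, -ρ, -ρ] ![δ, ρ, ρ]) ?_) isCompact_Icc.measure_lt_top
  intro s hs
  obtain ⟨h1, h2, h3, h4⟩ := hs
  rw [abs_lt] at h3 h4
  constructor
  · intro i
    fin_cases i
    · exact h1.le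
    · exact h3.1.le
    · exact h4.1.le
  · intro i
    fin_cases i
    · exact h2.le
    · exact h3.2.le
    · exact h4.2.le

lemma vec_eta (s : Fin 3 → ℝ) : ![s 0, s 1, s 2] = s := by
  ext i; fin_cases i <;> rfl

lemma line_concave {δ ρ : ℝ} {f : (Fin 3 → ℝ) → ℝ} (hf : ConcaveOn ℝ (FBox δ ρ) f) {b c : ℝ}
    (hb : |b| < ρ) (hc : |c| < ρ) : ConcaveOn ℝ (Ioo 0 δ) (fun x => f ![x, b, c]) := by
  refine ⟨convex_Ioo 0 δ, fun x hx y hy t u ht hu htu => ?_⟩
  have h1 := hf.2 (x := ![x, b, c]) ⟨hx.1, hx.2, hb, hc⟩ (y := ![y, b, c]) ⟨hy.1, hy.2, hb, hc⟩ ht hu htu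
  have e : t • ![x, b, c] + u • ![y, b, c] = ![t • x + u • y, b, c] := by
    ext i
    fin_cases i
    · simp
    · change t * b + u * b = b
      rw [← add_mul, htu, one_mul]
    · change t * c + u * c = c
      rw [← add_mul, htu, one_mul]
  rw [e] at h1
  exact h1

lemma slope_line {φ : ℝ → ℝ} {δ x0 h β : ℝ} (hφ : ConcaveOn ℝ (Ioo 0 δ) φ) (h0 : 0 < h)
    (hx0 : 0 < x0) (hx0h : x0 + h < δ) (hβ : β * h < φ (x0 + h) - φ x0) :
    ∀ a a', 0 < a → a ≤ a' → a' ≤ x0 → β * (a' - a) ≤ φ a' - φ a := by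
  intro a a' ha haa ha'
  rcases eq_or_lt_of_le haa with rfl | haa
  · simp
  have hmem : x0 + h ∈ Ioo 0 δ := ⟨by linarith, hx0h⟩
  have hmema : a ∈ Ioo 0 δ := ⟨ha, by linarith⟩
  have hmema' : a' ∈ Ioo 0 δ := ⟨by linarith, by linarith⟩
  have hmemx : x0 ∈ Ioo 0 δ := ⟨hx0, by linarith⟩
  have h1 : β < (φ (x0 + h) - φ x0) / (x0 + h - x0) := by
    rw [lt_div_iff₀ (by linarith)]; linarith
  have key : β ≤ (φ a' - φ a) / (a' - a) := by
    rcases eq_or_lt_of_le ha' with rfl | ha'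
    · exact h1.le.trans (hφ.slope_anti_adjacent hmema hmem haa (by linarith))
    · exact h1.le.trans ((hφ.slope_anti_adjacent hmema' hmem ha' (by linarith)).trans
        (hφ.slope_anti_adjacent hmema hmemx haa ha'))
  rwa [le_div_iff₀ (by linarith)] at key

lemma U_bound {δ ρ : ℝ} {U : (Fin 3 → ℝ) → ℝ} (hpos : ∀ s ∈ FBox δ ρ, 0 < U s)
    (hconc : ConcaveOn ℝ (FBox δ ρ) (fun s => Real.log (U s))) {d ρ' : ℝ} (hd : 0 < d) (hdδ : d < δ)
    (hρ' : ρ' < ρ) : ∃ M, ∀ s ∈ FBox δ ρ, s 0 ≤ d → |s 1| ≤ ρ' → |s 2| ≤ ρ' → U s ≤ M := by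
  have hcont := hconc.continuousOn (FBox_open δ ρ)
  set τ := (δ - d) / 4 with hτ
  have hτ0 : 0 < τ := by rw [hτ]; linarith
  have hK : IsCompact (Icc ![τ, -ρ', -ρ'] ![d + 2 * τ, ρ', ρ']) := isCompact_Icc
  have hsub : Icc ![τ, -ρ', -ρ'] ![d + 2 * τ, ρ', ρ'] ⊆ FBox δ ρ := by
    intro s hs
    have a0 : τ ≤ s 0 := hs.1 0
    have a0' : s 0 ≤ d + 2 * τ := hs.2 0
    have a1 : -ρ' ≤ s 1 := hs.1 1
    have a1' : s 1 ≤ ρ' := hs.2 1
    have a2 : -ρ' ≤ s 2 := hs.1 2
    have a2' : s 2 ≤ ρ' := hs.2 2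
    exact ⟨by linarith, by linarith, lt_of_le_of_lt (abs_le.mpr ⟨a1, a1'⟩) hρ',
      lt_of_le_of_lt (abs_le.mpr ⟨a2, a2'⟩) hρ'⟩
  obtain ⟨Mf, hMf⟩ := hK.exists_bound_of_continuousOn (hcont.mono hsub)
  refine ⟨Real.exp (3 * Mf), fun s hs h0 h1 h2 => ?_⟩
  have hs0 := hs.1
  have hmem : ∀ x, τ ≤ x → x ≤ d + 2 * τ → ![x, s 1, s 2] ∈ Icc ![τ, -ρ', -ρ'] ![d + 2 * τ, ρ', ρ'] := by
    intro x hx hx'
    rw [abs_le] at h1 h2
    constructor
    · intro i
      fin_cases i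
      · exact hx
      · exact h1.1
      · exact h2.1
    · intro i
      fin_cases i
      · exact hx'
      · exact h1.2
      · exact h2.2
  have b1 := hMf _ (hmem (s 0 + τ) (by linarith) (by linarith))
  have b2 := hMf _ (hmem (s 0 + 2 * τ) (by linarith) (by linarith))
  have hl0 := (line_concave hconc hs.2.2.1 hs.2.2.2).2
  have hl := hl0 (show s 0 ∈ Ioo 0 δ from ⟨hs0, by linarith⟩)
    (show s 0 + 2 * τ ∈ Ioo 0 δ from ⟨by linarith, by linarith⟩) (show (0:ℝ) ≤ 1 / 2 by norm_num)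
    (show (0:ℝ) ≤ 1 / 2 by norm_num) (by norm_num)
  simp only [smul_eq_mul] at hl
  have e : 1 / 2 * s 0 + 1 / 2 * (s 0 + 2 * τ) = s 0 + τ := by ring
  rw [e, vec_eta] at hl
  rw [Real.norm_eq_abs, abs_le] at b1 b2
  have h3 : Real.log (U s) ≤ 3 * Mf := by linarith [b1.2, b2.1]
  calc U s = Real.exp (Real.log (U s)) := (Real.exp_log (hpos s hs)).symm
    _ ≤ _ := Real.exp_le_exp.mpr h3

lemma integrableOn_bdd {n : ℕ} {S : Set (Fin n → ℝ)} (hS : IsOpen S) (hfin : volume S < ⊤)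
    {F : (Fin n → ℝ) → ℝ} (hF : ContinuousOn F S) {M : ℝ} (hM : ∀ s ∈ S, |F s| ≤ M) :
    IntegrableOn F S volume := by
  haveI : IsFiniteMeasure (volume.restrict S) := ⟨by rwa [Measure.restrict_apply_univ]⟩
  refine Integrable.mono' (integrable_const M) (hF.aestronglyMeasurable hS.measurableSet) ?_
  rw [ae_restrict_iff' hS.measurableSet]
  exact Filter.Eventually.of_forall (fun s hs => by rw [Real.norm_eq_abs]; exact hM s hs)

/-- the slice -/
def DB (ρ : ℝ) : Set (Fin 2 → ℝ) := {y | |y 0| < ρ ∧ |y 1| < ρ}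

lemma DB_open (ρ : ℝ) : IsOpen (DB ρ) :=
  (isOpen_lt (continuous_apply 0).abs continuous_const).inter
    (isOpen_lt (continuous_apply 1).abs continuous_const)

lemma DB_fin (ρ : ℝ) : volume (DB ρ) < ⊤ := by
  refine lt_of_le_of_lt (measure_mono (t := Icc ![-ρ, -ρ] ![ρ, ρ]) ?_) isCompact_Icc.measure_lt_top
  intro s hs
  obtain ⟨h3, h4⟩ := hs
  rw [abs_lt] at h3 h4
  constructor
  · intro i
    fin_cases i
    · exact h3.1.le
    · exact h4.1.le
  · intro i
    fin_cases i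
    · exact h3.2.le
    · exact h4.2.le

lemma fubini (δ ρ : ℝ) (Φ : ℝ → ℝ) (Ψ : (Fin 2 → ℝ) → ℝ) :
    ∫ s in FBox δ ρ, Φ (s 0) * Ψ (fun j => s j.succ) = (∫ a in Ioo 0 δ, Φ a) * ∫ y in DB ρ, Ψ y := by
  have hmp := volume_preserving_piFinSuccAbove (fun _ : Fin 3 => ℝ) 0
  have hpre : FBox δ ρ = (MeasurableEquiv.piFinSuccAbove (fun _ : Fin 3 => ℝ) 0) ⁻¹' (Ioo 0 δ ×ˢ DB ρ) := by
    ext s
    constructor
    · rintro ⟨h1, h2, h3, h4⟩
      exact ⟨⟨h1, h2⟩, h3, h4⟩
    · rintro ⟨⟨h1, h2⟩, h3, h4⟩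
      exact ⟨h1, h2, h3, h4⟩
  have h1 := hmp.setIntegral_preimage_emb (MeasurableEquiv.measurableEmbedding _)
    (fun z => Φ z.1 * Ψ z.2) (Ioo 0 δ ×ˢ DB ρ)
  rw [← hpre] at h1
  rw [Measure.volume_eq_prod] at h1
  rw [setIntegral_prod_mul] at h1
  exact h1

lemma fin_ineq {E V e X Y B C S : ℝ} (h : E * (V * e) * (X * Y * (B * C)) ≤ S * (X * Y * (B * C))) :
    E * (X * Y) * (V * e * (B * C)) ≤ S * (X * Y * (B * C)) := by
  calc E * (X * Y) * (V * e * (B * C)) = E * (V * e) * (X * Y * (B * C)) := by ring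
    _ ≤ _ := h

theorem easy_dir {δ ρ α lam : ℝ} (hδ : 0 < δ) (hρ : 0 < ρ) (hα : 0 < α)
    (U : (Fin 3 → ℝ) → ℝ) (hpos : ∀ s ∈ FBox δ ρ, 0 < U s)
    (hconc : ConcaveOn ℝ (FBox δ ρ) (fun s => Real.log (U s)))
    (hw : ∀ (G G1 G2 η η1 η2 θ θ1 θ2 : ℝ → ℝ) (δ' ρ' : ℝ), 0 < δ' → δ' < δ → 0 < ρ' → ρ' < ρ →
      C2T G G1 G2 → C2T η η1 η2 → C2T θ θ1 θ2 → G1 0 = α * G 0 →
      (∀ t, δ' ≤ t → G t = 0) → (∀ t, ρ' ≤ |t| → η t = 0) → (∀ t, ρ' ≤ |t| → θ t = 0) →
      ∫ s in FBox δ ρ, U s * (G2 (s 0) * η (s 1) * θ (s 2) + G (s 0) * η2 (s 1) * θ (s 2)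
        + G (s 0) * η (s 1) * θ2 (s 2) + lam * (G (s 0) * η (s 1) * θ (s 2))) = 0) :
    ∀ s ∈ FBox δ ρ, ∀ h, 0 < h → s 0 + h < δ →
      U (s + Pi.single 0 h) ≤ Real.exp (α * h) * U s := by
  intro p hp h hh hph
  by_contra hcon
  push Not at hcon
  have hcont := hconc.continuousOn (FBox_open δ ρ)
  obtain ⟨hp0, hp0δ, hp1, hp2⟩ := hp
  have hp : p ∈ FBox δ ρ := ⟨hp0, hp0δ, hp1, hp2⟩
  have hshift : p + Pi.single 0 h = ![p 0 + h, p 1, p 2] := by
    ext i; fin_cases i <;> simp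
  have hq : ![p 0 + h, p 1, p 2] ∈ FBox δ ρ := ⟨by change 0 < p 0 + h; linarith, hph, hp1, hp2⟩
  rw [hshift] at hcon
  have hUp := hpos p hp
  have hUq := hpos _ hq
  have hlog : α * h + Real.log (U p) < Real.log (U ![p 0 + h, p 1, p 2]) := by
    have h1 := Real.log_lt_log (by positivity) hcon
    rwa [Real.log_mul (Real.exp_pos _).ne' hUp.ne', Real.log_exp] at h1
  have hβex : α < (Real.log (U ![p 0 + h, p 1, p 2]) - Real.log (U p)) / h := by
    rw [lt_div_iff₀ hh]; linarith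
  obtain ⟨β, hαβ, hβ1⟩ := exists_between hβex
  rw [lt_div_iff₀ hh] at hβ1
  -- continuity
  have hca : ∀ x, ![x, p 1, p 2] ∈ FBox δ ρ → ContinuousAt (fun y : ℝ × ℝ => Real.log (U ![x, y.1, y.2])) (p 1, p 2) := by
    intro x hx
    have h1 : ContinuousAt (fun s => Real.log (U s)) ![x, p 1, p 2] := hcont.continuousAt ((FBox_open δ ρ).mem_nhds hx)
    have h2 : Continuous (fun y : ℝ × ℝ => (![x, y.1, y.2] : Fin 3 → ℝ)) := by
      refine continuous_pi (fun i => ?_)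
      fin_cases i
      · exact continuous_const
      · exact continuous_fst
      · exact continuous_snd
    exact ContinuousAt.comp (f := fun y : ℝ × ℝ => (![x, y.1, y.2] : Fin 3 → ℝ)) (x := (p 1, p 2)) h1 h2.continuousAt
  have hev : ∀ᶠ y : ℝ × ℝ in 𝓝 (p 1, p 2),
      β * h < Real.log (U ![p 0 + h, y.1, y.2]) - Real.log (U ![p 0, y.1, y.2]) := by
    have h1 := (hca _ hq).sub (hca (p 0) (by rw [vec_eta]; exact hp))
    refine h1.eventually_const_lt ?_
    simp only [Pi.sub_apply]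
    rw [vec_eta]
    exact hβ1
  obtain ⟨ε, hε, hball⟩ := Metric.eventually_nhds_iff.mp hev
  obtain ⟨r, hr0, hrε, hr1, hr2⟩ : ∃ r : ℝ, 0 < r ∧ r < ε ∧ |p 1| + r < ρ ∧ |p 2| + r < ρ := by
    refine ⟨min (ε / 2) (min ((ρ - |p 1|) / 2) ((ρ - |p 2|) / 2)), ?_, ?_, ?_, ?_⟩
    · refine lt_min (by linarith) (lt_min (by linarith) (by linarith))
    · exact lt_of_le_of_lt (min_le_left _ _) (by linarith)
    · have := (min_le_right (ε / 2) (min ((ρ - |p 1|) / 2) ((ρ - |p 2|) / 2))).trans (min_le_left _ _)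
      linarith
    · have := (min_le_right (ε / 2) (min ((ρ - |p 1|) / 2) ((ρ - |p 2|) / 2))).trans (min_le_right _ _)
      linarith
  have hball' : ∀ b c, |b - p 1| < r → |c - p 2| < r →
      β * h < Real.log (U ![p 0 + h, b, c]) - Real.log (U ![p 0, b, c]) := by
    intro b c hb hc
    refine hball (y := (b, c)) ?_
    rw [Prod.dist_eq, Real.dist_eq, Real.dist_eq]
    exact max_lt (by linarith) (by linarith)
  -- monotonicity
  have hmono : ∀ b c, |b - p 1| < r → |c - p 2| < r → ∀ a a', 0 < a → a ≤ a' → a' ≤ p 0 →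
      Real.exp (β * (a' - a)) * U ![a, b, c] ≤ U ![a', b, c] := by
    intro b c hb hc a a' ha haa ha'
    have hbρ : |b| < ρ := by
      have : |b| ≤ |b - p 1| + |p 1| := by
        calc |b| = |(b - p 1) + p 1| := by ring_nf
          _ ≤ _ := abs_add_le _ _
      linarith
    have hcρ : |c| < ρ := by
      have : |c| ≤ |c - p 2| + |p 2| := by
        calc |c| = |(c - p 2) + p 2| := by ring_nf
          _ ≤ _ := abs_add_le _ _
      linarith
    have h1 := slope_line (line_concave hconc hbρ hcρ) hh hp0 hph (hball' b c hb hc) a a' ha haa ha'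
    have m1 : ![a, b, c] ∈ FBox δ ρ := ⟨ha, by change a < δ; linarith, hbρ, hcρ⟩
    have m2 : ![a', b, c] ∈ FBox δ ρ := ⟨by change 0 < a'; linarith, by change a' < δ; linarith, hbρ, hcρ⟩
    calc Real.exp (β * (a' - a)) * U ![a, b, c] = Real.exp (β * (a' - a) + Real.log (U ![a, b, c])) := by
          rw [Real.exp_add, Real.exp_log (hpos _ m1)]
      _ ≤ Real.exp (Real.log (U ![a', b, c])) := Real.exp_le_exp.mpr (by linarith)
      _ = U ![a', b, c] := Real.exp_log (hpos _ m2)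
  -- choice of constants
  set K : ℝ := |lam| + 12 / r ^ 2 with hKdef
  have hK : 0 ≤ K := by positivity
  obtain ⟨d, hd0, hdp, hKd, hsmall⟩ : ∃ d : ℝ, 0 < d ∧ d < p 0 ∧ K * d ^ 2 ≤ 12 ∧
      K * (d * (Real.exp (β * d) * (4 + α * d))) < β - α := by
    have c1 : Continuous (fun d : ℝ => K * (d * (Real.exp (β * d) * (4 + α * d)))) := by fun_prop
    have c2 : Continuous (fun d : ℝ => K * d ^ 2) := by fun_prop
    have e1 : ∀ᶠ d in 𝓝 (0:ℝ), K * (d * (Real.exp (β * d) * (4 + α * d))) < β - α := by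
      refine c1.continuousAt.eventually_lt_const ?_
      simp only [mul_zero, zero_mul]; linarith
    have e2 : ∀ᶠ d in 𝓝 (0:ℝ), K * d ^ 2 < 12 := by
      refine c2.continuousAt.eventually_lt_const ?_
      norm_num
    have e3 : ∀ᶠ d in 𝓝 (0:ℝ), d < p 0 := eventually_lt_nhds hp0
    have e4 := (e1.and (e2.and e3)).filter_mono (nhdsWithin_le_nhds (s := Ioi (0:ℝ)))
    obtain ⟨d, ⟨h1, h2, h3⟩, h4⟩ := (e4.and self_mem_nhdsWithin).exists
    exact ⟨d, h4, h3, h2.le, h1⟩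
  have hdδ : d < δ := by linarith
  set k : ℝ := α + 3 / d with hk
  have hk0 : 0 < k := by positivity
  obtain ⟨a0, ha00, ha0d, hbr1, hbr2⟩ := exists_a0 hd0 hα hk hK hKd
  set ρ' : ℝ := max |p 1| |p 2| + r with hρ'def
  have hρ'0 : 0 < ρ' := by positivity
  have hρ' : ρ' < ρ := by
    rw [hρ'def]
    rcases le_total |p 1| |p 2| with h1 | h1
    · rw [max_eq_right h1]; exact hr2
    · rw [max_eq_left h1]; exact hr1
  have hfar1 : ∀ t, ρ' ≤ |t| → 1 ≤ |(t - p 1) / r| := by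
    intro t ht
    rw [abs_div, abs_of_pos hr0, le_div_iff₀ hr0, one_mul]
    have h1 : |t| ≤ |t - p 1| + |p 1| := by
      calc |t| = |(t - p 1) + p 1| := by ring_nf
        _ ≤ _ := abs_add_le _ _
    have h2 := le_max_left |p 1| |p 2|
    linarith
  have hfar2 : ∀ t, ρ' ≤ |t| → 1 ≤ |(t - p 2) / r| := by
    intro t ht
    rw [abs_div, abs_of_pos hr0, le_div_iff₀ hr0, one_mul]
    have h1 : |t| ≤ |t - p 2| + |p 2| := by
      calc |t| = |(t - p 2) + p 2| := by ring_nf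
        _ ≤ _ := abs_add_le _ _
    have h2 := le_max_right |p 1| |p 2|
    linarith
  have hGG := C2T_GG k hd0.ne'
  have hη := C2T_bump (p 1) hr0.ne'
  have hθ := C2T_bump (p 2) hr0.ne'
  have e0 : max 0 (1 - (0:ℝ) / d) = 1 := by
    rw [zero_div, sub_zero]; exact max_eq_right zero_le_one
  have hid := hw (GG k d) (GG1 k d) (GG2 k d) _ _ _ _ _ _ d ρ' hd0 hdδ hρ'0 hρ' hGG hη hθ
    (by unfold GG GG1; rw [e0, hk]; ring) (fun t ht => (GG_zero hd0 ht).1)
    (fun t ht => bmp_zero (hfar1 t ht)) (fun t ht => bmp_zero (hfar2 t ht))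
  have hGc : Continuous (GG k d) := continuous_iff_continuousAt.2 fun x => (hGG.1 x).continuousAt
  have hG2c : Continuous (GG2 k d) := hGG.2.2
  have hbc : Continuous bmp := by unfold bmp; fun_prop
  have hb2c : Continuous bmp2 := by unfold bmp2; fun_prop
  -- the lower bound
  let Φ : ℝ → ℝ := fun a => Real.exp (β * a) * (GG2 k d a - K * GG k d a)
  let Ψ : (Fin 2 → ℝ) → ℝ := fun y => U ![a0, y 0, y 1] * Real.exp (-(β * a0)) *
    (bmp ((y 0 - p 1) / r) * bmp ((y 1 - p 2) / r))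
  have hΦpos : 0 < ∫ a in Ioo 0 δ, Φ a := int_pos hα hαβ hd0 hdδ hK hk hsmall
  obtain ⟨M, hM⟩ := U_bound hpos hconc hd0 hdδ hρ'
  have hM0 : 0 ≤ M := by
    have h1 : ![a0, p 1, p 2] ∈ FBox δ ρ := ⟨ha00, by change a0 < δ; linarith, hp1, hp2⟩
    have h2 := hM _ h1 (by change a0 ≤ d; linarith) (by change |p 1| ≤ ρ'; linarith [le_max_left |p 1| |p 2|])
      (by change |p 2| ≤ ρ'; linarith [le_max_right |p 1| |p 2|])
    exact (hpos _ h1).le.trans h2
  have hbmp1 : ∀ t, bmp t ≤ 1 := by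
    intro t
    unfold bmp
    refine pow_le_one₀ (le_max_left _ _) (max_le zero_le_one (by nlinarith [sq_nonneg t]))
  have hUc : ContinuousOn U (FBox δ ρ) := by
    refine (hcont.rexp).congr (fun s hs => ?_)
    exact (Real.exp_log (hpos s hs)).symm
  have hmemD : ∀ y ∈ DB ρ, ![a0, y 0, y 1] ∈ FBox δ ρ := fun y hy =>
    ⟨ha00, by change a0 < δ; linarith, hy.1, hy.2⟩
  have hΨc : ContinuousOn Ψ (DB ρ) := by
    have h1 : ContinuousOn (fun y : Fin 2 → ℝ => U ![a0, y 0, y 1]) (DB ρ) := by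
      refine hUc.comp (Continuous.continuousOn ?_) hmemD
      refine continuous_pi (fun i => ?_)
      fin_cases i
      · exact continuous_const
      · exact continuous_apply 0
      · exact continuous_apply 1
    have h2 : Continuous (fun y : Fin 2 → ℝ => bmp ((y 0 - p 1) / r) * bmp ((y 1 - p 2) / r)) := by
      fun_prop
    exact (h1.mul continuousOn_const).mul h2.continuousOn
  have hΨnn : ∀ y ∈ DB ρ, 0 ≤ Ψ y := by
    intro y hy
    have := hpos _ (hmemD y hy)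
    have h1 := bmp_nonneg ((y 0 - p 1) / r)
    have h2 := bmp_nonneg ((y 1 - p 2) / r)
    simp only [Ψ]
    positivity
  have hΨB : ∀ y ∈ DB ρ, |Ψ y| ≤ M * Real.exp (-(β * a0)) := by
    intro y hy
    rw [abs_of_nonneg (hΨnn y hy)]
    by_cases h1 : ρ' ≤ |y 0|
    · simp only [Ψ]
      rw [bmp_zero (hfar1 _ h1)]
      have : 0 ≤ M * Real.exp (-(β * a0)) := by positivity
      linarith
    by_cases h2 : ρ' ≤ |y 1|
    · simp only [Ψ]
      rw [bmp_zero (hfar2 _ h2)]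
      have : 0 ≤ M * Real.exp (-(β * a0)) := by positivity
      linarith
    push Not at h1 h2
    have h3 := hM _ (hmemD y hy) (by change a0 ≤ d; linarith) h1.le h2.le
    have h4 := hpos _ (hmemD y hy)
    have h5 : bmp ((y 0 - p 1) / r) * bmp ((y 1 - p 2) / r) ≤ 1 :=
      mul_le_one₀ (hbmp1 _) (bmp_nonneg _) (hbmp1 _)
    have h6 := bmp_nonneg ((y 0 - p 1) / r)
    have h7 := bmp_nonneg ((y 1 - p 2) / r)
    calc Ψ y ≤ (M * Real.exp (-(β * a0))) * 1 := by
          simp only [Ψ]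
          gcongr
      _ = _ := mul_one _
  have hΨint : IntegrableOn Ψ (DB ρ) volume := integrableOn_bdd (DB_open ρ) (DB_fin ρ) hΨc hΨB
  have hΨpos : 0 < ∫ y in DB ρ, Ψ y := by
    rw [setIntegral_pos_iff_support_of_nonneg_ae
      ((ae_restrict_iff' (DB_open ρ).measurableSet).mpr (Filter.Eventually.of_forall hΨnn)) hΨint]
    have hO : IsOpen ({y : Fin 2 → ℝ | |y 0 - p 1| < r} ∩ {y : Fin 2 → ℝ | |y 1 - p 2| < r}) := by
      refine IsOpen.inter (isOpen_lt ?_ continuous_const) (isOpen_lt ?_ continuous_const) <;> fun_prop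
    refine lt_of_lt_of_le (hO.measure_pos volume ⟨![p 1, p 2], by simp [hr0]⟩) (measure_mono ?_)
    intro y hy
    have hy1 : |y 0 - p 1| < r := hy.1
    have hy2 : |y 1 - p 2| < r := hy.2
    have hyD : y ∈ DB ρ := by
      constructor
      · have : |y 0| ≤ |y 0 - p 1| + |p 1| := by
          calc |y 0| = |(y 0 - p 1) + p 1| := by ring_nf
            _ ≤ _ := abs_add_le _ _
        linarith
      · have : |y 1| ≤ |y 1 - p 2| + |p 2| := by
          calc |y 1| = |(y 1 - p 2) + p 2| := by ring_nf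
            _ ≤ _ := abs_add_le _ _
        linarith
    refine ⟨?_, hyD⟩
    have h1 := hpos _ (hmemD y hyD)
    have h2 : 0 < bmp ((y 0 - p 1) / r) := bmp_pos (by rw [abs_div, abs_of_pos hr0, div_lt_one hr0]; exact hy.1)
    have h3 : 0 < bmp ((y 1 - p 2) / r) := bmp_pos (by rw [abs_div, abs_of_pos hr0, div_lt_one hr0]; exact hy.2)
    rw [Function.mem_support]
    simp only [Ψ]
    positivity
  have hfub := fubini δ ρ Φ Ψ
  have hLpos : 0 < ∫ s in FBox δ ρ, Φ (s 0) * Ψ (fun j => s j.succ) := by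
    rw [hfub]; positivity
  -- bounds of continuous functions on the box
  have hΦc : Continuous Φ := by simp only [Φ]; fun_prop
  obtain ⟨CΦ, hCΦ⟩ := isCompact_Icc.exists_bound_of_continuousOn (s := Icc 0 δ) hΦc.continuousOn
  have hCΦ0 : 0 ≤ CΦ := (norm_nonneg _).trans (hCΦ 0 ⟨le_rfl, hδ.le⟩)
  have hsucc : ∀ s ∈ FBox δ ρ, (fun j : Fin 2 => s j.succ) ∈ DB ρ := fun s hs => ⟨hs.2.2.1, hs.2.2.2⟩
  have hLint : IntegrableOn (fun s => Φ (s 0) * Ψ (fun j => s j.succ)) (FBox δ ρ) volume := by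
    refine integrableOn_bdd (FBox_open δ ρ) (FBox_fin δ ρ) ?_ (M := CΦ * (M * Real.exp (-(β * a0)))) ?_
    · refine ContinuousOn.mul (hΦc.comp (continuous_apply 0)).continuousOn ?_
      exact hΨc.comp (continuous_pi (fun j => continuous_apply _)).continuousOn hsucc
    · intro s hs
      rw [abs_mul]
      have h1 := hCΦ (s 0) ⟨hs.1.le, hs.2.1.le⟩
      rw [Real.norm_eq_abs] at h1
      have h2 := hΨB _ (hsucc s hs)
      gcongr
  let T : (Fin 3 → ℝ) → ℝ := fun s => GG2 k d (s 0) * bmp ((s 1 - p 1) / r) * bmp ((s 2 - p 2) / r)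
    + GG k d (s 0) * (bmp2 ((s 1 - p 1) / r) / r ^ 2) * bmp ((s 2 - p 2) / r)
    + GG k d (s 0) * bmp ((s 1 - p 1) / r) * (bmp2 ((s 2 - p 2) / r) / r ^ 2)
    + lam * (GG k d (s 0) * bmp ((s 1 - p 1) / r) * bmp ((s 2 - p 2) / r))
  have hTc : Continuous T := by simp only [T]; fun_prop
  obtain ⟨CT, hCT⟩ := (isCompact_Icc (a := (![0, -ρ, -ρ] : Fin 3 → ℝ)) (b := ![δ, ρ, ρ])).exists_bound_of_continuousOn hTc.continuousOn
  have hT0 : ∀ s, d ≤ s 0 ∨ ρ' ≤ |s 1| ∨ ρ' ≤ |s 2| → T s = 0 := by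
    rintro s (h1 | h1 | h1)
    · obtain ⟨z1, z2, z3⟩ := GG_zero (k := k) hd0 h1
      simp only [T]; rw [z1, z3]; ring
    · simp only [T]; rw [bmp_zero (hfar1 _ h1), bmp2_zero (hfar1 _ h1)]; ring
    · simp only [T]; rw [bmp_zero (hfar2 _ h1), bmp2_zero (hfar2 _ h1)]; ring
  have hCT0 : 0 ≤ CT := (norm_nonneg _).trans (hCT ![0, 0, 0] ⟨by
      intro i; fin_cases i
      · exact le_rfl
      · change -ρ ≤ 0; linarith
      · change -ρ ≤ 0; linarith, by
      intro i; fin_cases i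
      · exact hδ.le
      · exact hρ.le
      · exact hρ.le⟩)
  have hUTint : IntegrableOn (fun s => U s * T s) (FBox δ ρ) volume := by
    refine integrableOn_bdd (FBox_open δ ρ) (FBox_fin δ ρ) (hUc.mul hTc.continuousOn) (M := M * CT) ?_
    intro s hs
    by_cases hz : d ≤ s 0 ∨ ρ' ≤ |s 1| ∨ ρ' ≤ |s 2|
    · rw [hT0 s hz, mul_zero, abs_zero]; positivity
    · push Not at hz
      have h1 := hM s hs hz.1.le hz.2.1.le hz.2.2.le
      have h2 := hpos s hs
      have h3 : ‖T s‖ ≤ CT := by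
        obtain ⟨h1, h2, h3, h4⟩ := hs
        rw [abs_lt] at h3 h4
        apply hCT
        constructor
        · intro i
          fin_cases i
          · exact h1.le
          · exact h3.1.le
          · exact h4.1.le
        · intro i
          fin_cases i
          · exact h2.le
          · exact h3.2.le
          · exact h4.2.le
      rw [Real.norm_eq_abs] at h3
      rw [abs_mul, abs_of_pos h2]
      gcongr
  -- comparison
  have hcmp : ∀ s ∈ FBox δ ρ, Φ (s 0) * Ψ (fun j => s j.succ) ≤ U s * T s := by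
    intro s hs
    have hUs := hpos s hs
    by_cases hz0 : d ≤ s 0
    · rw [hT0 s (Or.inl hz0)]
      obtain ⟨z1, z2, z3⟩ := GG_zero (k := k) hd0 hz0
      simp only [Φ]; rw [z1, z3]; apply le_of_eq; ring
    push Not at hz0
    by_cases hz1 : 1 ≤ |(s 1 - p 1) / r|
    · apply le_of_eq
      have e1 : Ψ (fun j => s j.succ) = 0 := by
        simp only [Ψ]
        change _ * _ * (bmp ((s 1 - p 1) / r) * _) = 0
        rw [bmp_zero hz1]; ring
      have e2 : T s = 0 := by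
        simp only [T]; rw [bmp_zero hz1, bmp2_zero hz1]; ring
      rw [e1, e2, mul_zero, mul_zero]
    by_cases hz2 : 1 ≤ |(s 2 - p 2) / r|
    · apply le_of_eq
      have e1 : Ψ (fun j => s j.succ) = 0 := by
        simp only [Ψ]
        change _ * _ * (_ * bmp ((s 2 - p 2) / r)) = 0
        rw [bmp_zero hz2]; ring
      have e2 : T s = 0 := by
        simp only [T]; rw [bmp_zero hz2, bmp2_zero hz2]; ring
      rw [e1, e2, mul_zero, mul_zero]
    push Not at hz1 hz2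
    rw [abs_div, abs_of_pos hr0, div_lt_one hr0] at hz1 hz2
    set B := bmp ((s 1 - p 1) / r) with hB
    set C := bmp ((s 2 - p 2) / r) with hC
    have hB0 : 0 ≤ B := bmp_nonneg _
    have hC0 : 0 ≤ C := bmp_nonneg _
    have hs0 : 0 < s 0 := hs.1
    have hG0 : 0 ≤ GG k d (s 0) := by
      have : 0 ≤ 1 + k * s 0 := by positivity
      unfold GG
      positivity
    have hX : T s ≥ (GG2 k d (s 0) - K * GG k d (s 0)) * (B * C) := by
      have h1 := bmp2_ge ((s 1 - p 1) / r)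
      have h2 := bmp2_ge ((s 2 - p 2) / r)
      have h1' : -(6 / r ^ 2) * B ≤ bmp2 ((s 1 - p 1) / r) / r ^ 2 := by
        rw [le_div_iff₀ (by positivity)]
        have : -(6 / r ^ 2) * B * r ^ 2 = -6 * B := by field_simp
        rw [this]; exact h1
      have h2' : -(6 / r ^ 2) * C ≤ bmp2 ((s 2 - p 2) / r) / r ^ 2 := by
        rw [le_div_iff₀ (by positivity)]
        have : -(6 / r ^ 2) * C * r ^ 2 = -6 * C := by field_simp
        rw [this]; exact h2
      have h3 : -|lam| ≤ lam := neg_abs_le lam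
      have t1 : GG k d (s 0) * (-(6 / r ^ 2) * B) * C ≤ GG k d (s 0) * (bmp2 ((s 1 - p 1) / r) / r ^ 2) * C := by
        gcongr
      have t2 : GG k d (s 0) * B * (-(6 / r ^ 2) * C) ≤ GG k d (s 0) * B * (bmp2 ((s 2 - p 2) / r) / r ^ 2) := by
        gcongr
      have t3 : -|lam| * (GG k d (s 0) * B * C) ≤ lam * (GG k d (s 0) * B * C) := by
        gcongr
      have e : (GG2 k d (s 0) - K * GG k d (s 0)) * (B * C) = GG2 k d (s 0) * B * C +
          GG k d (s 0) * (-(6 / r ^ 2) * B) * C + GG k d (s 0) * B * (-(6 / r ^ 2) * C) +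
          -|lam| * (GG k d (s 0) * B * C) := by rw [hKdef]; ring
      rw [e]
      simp only [T]
      linarith
    have hge : U s * ((GG2 k d (s 0) - K * GG k d (s 0)) * (B * C)) ≤ U s * T s := by gcongr
    refine le_trans ?_ hge
    rw [GG2_sub hd0 hk hz0.le]
    simp only [Φ]
    rw [GG2_sub hd0 hk hz0.le]
    have hΨs : Ψ (fun j => s j.succ) = U ![a0, s 1, s 2] * Real.exp (-(β * a0)) * (B * C) := rfl
    rw [hΨs]
    have hm : 0 ≤ 1 - s 0 / d := by
      have : s 0 / d ≤ 1 := by rw [div_le_one hd0]; exact hz0.le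
      linarith
    rcases le_total (s 0) a0 with h1 | h1
    · have h2 := hbr1 (s 0) hs0.le h1
      have h3 := hmono (s 1) (s 2) hz1 hz2 (s 0) a0 hs0 h1 (by linarith)
      rw [vec_eta] at h3
      have h4 : U s ≤ Real.exp (β * s 0) * (U ![a0, s 1, s 2] * Real.exp (-(β * a0))) := by
        have e : Real.exp (β * s 0) * (U ![a0, s 1, s 2] * Real.exp (-(β * a0))) =
            Real.exp (-(β * (a0 - s 0))) * U ![a0, s 1, s 2] := by
          rw [show -(β * (a0 - s 0)) = β * s 0 + -(β * a0) by ring, Real.exp_add]; ring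
        rw [e]
        calc U s = Real.exp (-(β * (a0 - s 0))) * (Real.exp (β * (a0 - s 0)) * U s) := by
              rw [← mul_assoc, ← Real.exp_add, neg_add_cancel, Real.exp_zero, one_mul]
          _ ≤ _ := by gcongr
      have h5 : (1 - s 0 / d) * br k d K α (s 0) * (B * C) ≤ 0 :=
        mul_nonpos_of_nonpos_of_nonneg (mul_nonpos_of_nonneg_of_nonpos hm h2) (mul_nonneg hB0 hC0)
      exact fin_ineq (mul_le_mul_of_nonpos_right h4 h5)
    · have h2 := hbr2 (s 0) h1 hz0.le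
      have h3 := hmono (s 1) (s 2) hz1 hz2 a0 (s 0) ha00 h1 (by linarith)
      rw [vec_eta] at h3
      have h4 : Real.exp (β * s 0) * (U ![a0, s 1, s 2] * Real.exp (-(β * a0))) ≤ U s := by
        have e : Real.exp (β * s 0) * (U ![a0, s 1, s 2] * Real.exp (-(β * a0))) =
            Real.exp (β * (s 0 - a0)) * U ![a0, s 1, s 2] := by
          rw [show β * (s 0 - a0) = β * s 0 + -(β * a0) by ring, Real.exp_add]; ring
        rw [e]; exact h3
      have h5 : 0 ≤ (1 - s 0 / d) * br k d K α (s 0) * (B * C) :=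
        mul_nonneg (mul_nonneg hm h2) (mul_nonneg hB0 hC0)
      exact fin_ineq (mul_le_mul_of_nonneg_right h4 h5)
  have hfinal := setIntegral_mono_on hLint hUTint (FBox_open δ ρ).measurableSet hcmp
  have hid' : ∫ s in FBox δ ρ, U s * T s = 0 := hid
  rw [hid'] at hfinal
  linarith

end Pool.Agent.H54R3.StepC
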