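import Mathlib
import Pool.Agent.H577R3.Defs4
import Pool.Agent.H54R3.AffA
import Pool.Agent.H54R3.AffB
import Pool.Agent.H54R3.AffC

set_option autoImplicit false

namespace Pool.Agent.H54R3.Aff

open Pool.Agent.Helper777.Prof Pool.Agent.H577R3

lemma der_dq (ι : Type) (m : ℕ) : derivedSeries (Dq ι m) m = ⊥ := by
  rw [eq_bot_iff]
  have hs : Function.Surjective (QuotientGroup.mk' (derivedSeries (FreeGroup ι) m)) :=
    QuotientGroup.mk'_surjective _
  rw [← map_derivedSeries_eq hs, Subgroup.map_le_iff_le_comap]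
  intro w hw
  exact (QuotientGroup.eq_one_iff w).mpr hw

lemma kill {G ι : Type} [Group G] {m : ℕ} (φ : G →* Dq ι m) {g : G} (hg : g ∈ derivedSeries G m) :
    φ g = 1 := by
  have h1 : φ g ∈ derivedSeries (Dq ι m) m :=
    map_derivedSeries_le_derivedSeries φ m (Subgroup.mem_map_of_mem φ hg)
  rw [der_dq] at h1
  exact Subgroup.mem_bot.mp h1

/-- TASK AFF -/
theorem aff_ex (n d : ℕ) (hn : 2 ≤ n) (T : Finset (Dq (Fin n) (d + 2))) (hT : 1 ∉ T) :
    AffEx n d T := by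
  classical
  obtain ⟨f, hf, hfm⟩ := dq_embed (ι := Fin n) (d + 1)
  obtain ⟨w1, hw1, hw1'⟩ := exists_last n (d + 1) hn
  obtain ⟨w2, hw2, hw2'⟩ := exists_last n d hn
  let pr : Dq (Fin n) (d + 2) →* Dq (Fin n) (d + 1) := ⟨⟨fun t => (f t).m, by rw [map_one]; rfl⟩,
    fun a b => by change (f (a * b)).m = _; rw [map_mul]; rfl⟩
  let v : Dq (Fin n) (d + 2) := pn (Fin n) (d + 2) w1
  let b : Dq (Fin n) (d + 2) := pn (Fin n) (d + 2) w2
  have hv : v ∈ derivedSeries (Dq (Fin n) (d + 2)) (d + 1) :=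
    map_derivedSeries_le_derivedSeries _ _ (Subgroup.mem_map_of_mem _ hw1)
  have hv1 : v ≠ 1 := fun h => hw1' ((QuotientGroup.eq_one_iff w1).mp h)
  have hb : b ∈ derivedSeries (Dq (Fin n) (d + 2)) d :=
    map_derivedSeries_le_derivedSeries _ _ (Subgroup.mem_map_of_mem _ hw2)
  have hprb : pr b = pn (Fin n) (d + 1) w2 := by
    change (f (pn (Fin n) (d + 1 + 1) w2)).m = _
    rw [hfm, mag_m]
  have hprb1 : pr b ≠ 1 := by
    rw [hprb]
    exact fun h => hw2' ((QuotientGroup.eq_one_iff w2).mp h)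
  have hb1 : b ∉ derivedSeries (Dq (Fin n) (d + 2)) (d + 1) := fun h => hprb1 (kill pr h)
  have hprbd : pr b ∈ derivedSeries (Dq (Fin n) (d + 1)) d :=
    map_derivedSeries_le_derivedSeries pr d (Subgroup.mem_map_of_mem pr hb)
  -- the fundamental formula
  have hfv : ∀ h : Dq (Fin n) (d + 2), h ≠ 1 → (f h).v ≠ 0 := by
    intro h hh h0
    apply hh
    apply hf
    rw [map_one]
    obtain ⟨w, rfl⟩ := QuotientGroup.mk'_surjective _ h
    have h1 : f (pn (Fin n) (d + 1 + 1) w) = mag (pn (Fin n) (d + 1)) w := hfm w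
    have h2 := Sep.DD_mag (pn (Fin n) (d + 1)) w
    rw [← h1] at h2
    unfold Sep.DD at h2
    change (f (pn (Fin n) (d + 1 + 1) w)).v = 0 at h0
    rw [h0] at h2
    simp only [Pi.zero_apply, zero_mul, Finset.sum_const_zero, zero_sub, neg_eq_zero, sub_eq_zero] at h2
    rw [← map_one (MonoidAlgebra.of ℤ (Dq (Fin n) (d + 1)))] at h2
    exact Wr.ext h0 (MonoidAlgebra.of_injective h2)
  let X : Finset (Fin n → MonoidAlgebra ℤ (Dq (Fin n) (d + 1))) := (insert v T).image (fun h => (f h).v)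
  have hX : ∀ x ∈ X, x ≠ 0 := by
    intro x hx
    obtain ⟨h, hh, rfl⟩ := Finset.mem_image.mp hx
    apply hfv
    rcases Finset.mem_insert.mp hh with rfl | hh
    · exact hv1
    · intro h1
      rw [h1] at hh
      exact hT hh
  let S : Finset (Dq (Fin n) (d + 1)) := X.biUnion (fun x => Finset.univ.biUnion (fun i => (x i).coeff.support))
  have hXS : ∀ x ∈ X, ∀ i g, (x i).coeff g ≠ 0 → g ∈ S := by
    intro x hx i g hg
    exact Finset.mem_biUnion.mpr ⟨x, hx, Finset.mem_biUnion.mpr ⟨i, Finset.mem_univ i, Finsupp.mem_support_iff.mpr hg⟩⟩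
  obtain ⟨Λ, hΛ, hΛf, κ, Q, hQ, hsep, hκ, hasym⟩ := fin_data n d S (pr b) hprbd hprb1
  obtain ⟨a, β, ha, hβ, ha0⟩ := weights κ Q S (pr b) hQ hsep hasym
  let e : Fin n → Dq (Fin n) (d + 1) → Λ → ℤ := fun i g l => a g l + β i ((κ g)⁻¹ * l)
  have he : ∀ i g h l, e i (g * h) l = a g l + e i h ((κ g)⁻¹ * l) := by
    intro i g h l
    simp only [e]
    rw [ha, map_mul, mul_inv_rev, mul_assoc]
    ring
  obtain ⟨p, hp, θ, hθ1, hθ2⟩ := spec e (fun l => a (pr b) l) (fun l l' h => ha0 l l' h) S hβ X hX hXS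
  obtain ⟨act, hact⟩ := action f κ e a ha he θ
  have ha1 : ∀ l, a 1 l = 0 := by
    intro l
    have := ha 1 1 l
    rw [mul_one, map_one, inv_one, one_mul] at this
    linarith
  have hker : ∀ β ∈ derivedSeries (Dq (Fin n) (d + 2)) (d + 1), (f β).m = 1 := fun β hβ => kill pr hβ
  have hker2 : ∀ β ∈ derivedSeries (Dq (Fin n) (d + 2)) d, κ (f β).m = 1 := fun β hβ =>
    hκ _ (map_derivedSeries_le_derivedSeries pr d (Subgroup.mem_map_of_mem pr hβ))
  have hact1 : ∀ β ∈ derivedSeries (Dq (Fin n) (d + 2)) (d + 1), ∀ z, act β z = z +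
      (fun l => ∑ i, pair (fun g => ((θ ^ e i g l : (ZMod p)ˣ) : ZMod p)) ((f β).v i)) := by
    intro β hβ z
    funext l
    rw [hact, hker β hβ, ha1, map_one, inv_one, one_mul, zpow_zero, Units.val_one, one_mul]
    rfl
  have hact2 : ∀ β ∈ derivedSeries (Dq (Fin n) (d + 2)) d, ∀ z, act β z =
      (fun l => ((θ ^ a (f β).m l : (ZMod p)ˣ) : ZMod p)) * z +
      (fun l => ∑ i, pair (fun g => ((θ ^ e i g l : (ZMod p)ˣ) : ZMod p)) ((f β).v i)) := by
    intro β hβ z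
    funext l
    rw [hact, hker2 β hβ, inv_one, one_mul]
    rfl
  refine ⟨p, hp, Λ, hΛf, act, b, v, fun l => ((θ ^ a (pr b) l : (ZMod p)ˣ) : ZMod p),
    fun l => ∑ i, pair (fun g => ((θ ^ e i g l : (ZMod p)ˣ) : ZMod p)) ((f v).v i),
    hv, hv1, hb, hb1, ?_, fun β hβ => ⟨_, hact1 β hβ⟩, fun β hβ => ⟨_, _, hact2 β hβ⟩, hact1 v hv, ?_,
    ⟨_, hact2 b hb⟩, hθ2, ?_⟩
  · intro g z w
    funext l
    simp only [hact, Pi.add_apply, Pi.sub_apply, Pi.zero_apply]
    ring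
  · intro l
    exact hθ1 _ (Finset.mem_image_of_mem _ (Finset.mem_insert_self _ _)) l
  · intro t ht h0
    have h1 := congrFun h0 1
    rw [hact, Pi.zero_apply, Pi.zero_apply, mul_zero, zero_add] at h1
    exact hθ1 _ (Finset.mem_image_of_mem _ (Finset.mem_insert_of_mem ht)) 1 h1

end Pool.Agent.H54R3.Aff
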