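import Mathlib
import Pool.Agent.H469R10.HO.Final
import Pool.Agent.H902R3.PZ.Stmts
import Pool.Agent.H54R3.TaskPZO
import Pool.Agent.H5R3.TaskPZN

set_option autoImplicit false

/-!
MP_995735_nt (helper902): the glue `CoreP` (core with a polar term) from the contraction of helper469.
-/

open Finset

namespace Pool.Agent.H54R3.PZCoreP

open Pool.Agent.H469R10.HO Pool.Agent.H902R3.PZ

theorem coreP : CoreP := by
  intro γ hγ
  obtain ⟨m₁, lam₀, hlam8, hH⟩ := exists_hyp hoheisel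
  let M := max (max m₁ 2) ⌈lam₀⌉₊
  let m := 2 * M + 1
  have hmM : M ≤ m := by omega
  have hm1 : m₁ ≤ m := ((le_max_left _ _).trans (le_max_left _ _)).trans hmM
  have hm2 : 2 ≤ m := ((le_max_right _ _).trans (le_max_left _ _)).trans hmM
  have hm3 : lam₀ ≤ m := Nat.ceil_le.mp ((le_max_right _ _).trans hmM)
  have hmR : (2:ℝ) ≤ m := by exact_mod_cast hm2
  have hlam : lam₀ ≤ lamOf m := by unfold lamOf; linarith
  have hlampos : 0 < lamOf m := by unfold lamOf; linarith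
  obtain ⟨e, κ, CJ, CH, η, ρ, c₁, he0, he, hη, hρ0, hρ9, hfin, hc₁, hyp⟩ := hH m hm1 (lamOf m) hlam
  obtain ⟨cN, hcN, hN⟩ := Pool.Agent.H5R3.T469N.taskN m hm2 ((ρ / 2) ^ 2 / 4) (by positivity)
  obtain ⟨cP, hcP, hP⟩ := Pool.Agent.H180R3.P469.taskP m (by omega) η hη
  obtain ⟨K, hK0, hK⟩ := Pool.Agent.H5R3.PZN.taskN' m (lamOf m * γ) hm2
  set c : ℝ := min (min c₁ (min cN cP)) (min 1 ((ρ / 2) ^ 2 / (4 * K))) with hcdef
  have hc : 0 < c := lt_min (lt_min hc₁ (lt_min hcN hcP)) (lt_min one_pos (by positivity))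
  have hcc : c ≤ min c₁ (min cN cP) := min_le_left _ _
  have hc1 : c ≤ 1 := (min_le_right _ _).trans (min_le_left _ _)
  have hcK : c ≤ (ρ / 2) ^ 2 / (4 * K) := (min_le_right _ _).trans (min_le_right _ _)
  obtain ⟨B, h, hB2⟩ := hyp c hc (hcc.trans (min_le_left _ _))
  have hcN' : c ≤ cN := hcc.trans ((min_le_right _ _).trans (min_le_left _ _))
  have hcP' : c ≤ cP := hcc.trans ((min_le_right _ _).trans (min_le_right _ _))
  have hsource : ∀ J : ℕ, ∑ j ∈ range J, WW c j * (ss c m j + PP (rr m c (lamOf m * γ)) j) ^ 2 ≤ (ρ / 2) ^ 2 := by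
    intro J
    have h1 := hN c hc hcN' J
    have h2 := hK c hc hc1 c J
    have h3 : K * c ^ 2 / c = K * c := by field_simp
    rw [h3] at h2
    have h4 : K * c ≤ (ρ / 2) ^ 2 / 4 := by
      have h5 := mul_le_mul_of_nonneg_left hcK hK0.le
      have h6 : K * ((ρ / 2) ^ 2 / (4 * K)) = (ρ / 2) ^ 2 / 4 := by field_simp
      linarith
    calc ∑ j ∈ range J, WW c j * (ss c m j + PP (rr m c (lamOf m * γ)) j) ^ 2
        ≤ ∑ j ∈ range J, (2 * (WW c j * (ss c m j) ^ 2) + 2 * (WW c j * (PP (rr m c (lamOf m * γ)) j) ^ 2)) := by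
          apply sum_le_sum
          intro j _
          have := mul_nonneg (WW_pos h.hc h.hc1 j).le (sq_nonneg (ss c m j - PP (rr m c (lamOf m * γ)) j))
          nlinarith
      _ = 2 * ∑ j ∈ range J, WW c j * (ss c m j) ^ 2 + 2 * ∑ j ∈ range J, WW c j * (PP (rr m c (lamOf m * γ)) j) ^ 2 := by
          rw [sum_add_distrib, mul_sum, mul_sum]
      _ ≤ (ρ / 2) ^ 2 := by linarith
  obtain ⟨b, hb1, hb2, hb3⟩ := h.fixed Pool.Agent.H180R3.Q469.taskQ hρ0 hρ9 hfin
    (fun j => ss c m j + PP (rr m c (lamOf m * γ)) j) hsource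
  have hBh : ∀ j, ∀ p ∈ B j, 1 ≤ j ∧ p.Prime ∧ |uu c (lamOf m) p - xx j| ≤ 1 / 2 :=
    fun j p hp => ⟨(h.hB j p hp).1, (h.hB j p hp).2.1, (h.hB j p hp).2.2.trans he⟩
  refine ⟨m, c, c, bet c (lamOf m) B b, fun n => if n = 0 then b 0 - 1 else
    if Squarefree n then ∏ p ∈ n.primeFactors, bet c (lamOf m) B b p else 0, ⟨M, rfl⟩, hc, hc, ?_, ?_, ?_, ?_⟩
  · intro p hp
    have h0 := hP c hc hcP' B hBh hB2 b (fun j => by
      have h1 := hb1 (j + 1)
      rw [Finset.sum_range_succ] at h1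
      have h2 : 0 ≤ ∑ i ∈ range j, WW c i * b i ^ 2 :=
        Finset.sum_nonneg fun i _ => mul_nonneg (WW_pos h.hc h.hc1 i).le (sq_nonneg _)
      have h3 : ρ ^ 2 ≤ 1 := by nlinarith [sq_nonneg ρ]
      linarith) p hp
    refine h0.trans ?_
    have hp1 : (1:ℝ) ≤ p := by exact_mod_cast hp.one_lt.le
    refine mul_le_of_le_one_right (by positivity) ?_
    exact Real.rpow_le_one_of_one_le_of_nonpos hp1 (by rw [neg_nonpos]; positivity)
  · intro n hn
    simp only []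
    rw [if_neg (by omega)]
  · refine hb2.congr_cofinite ?_
    rw [Filter.EventuallyEq, Filter.eventually_cofinite]
    refine (Set.finite_singleton 0).subset ?_
    intro n hn
    by_contra h0
    apply hn
    have h0' : n ≠ 0 := h0
    simp only [alp, if_neg h0']
  · exact Pool.Agent.H54R3.PZO.taskO' c (lamOf m) m B b c (lamOf m * γ) hc h.hlam hm2 hBh h.hBne hb2 hb3 _
      (fun n => rfl)

end Pool.Agent.H54R3.PZCoreP
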