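import Mathlib
import Pool.Agent.H577R3.Defs2
import Pool.Agent.H577R3.Bi
import Pool.Agent.H54R3.RigA
import Pool.Agent.H54R3.RigB
import Pool.Agent.H54R3.RigD

set_option autoImplicit false

namespace Pool.Agent.H54R3.Rig

open Pool.Agent.H577R3 Pool.Agent.Helper777.Prof
open scoped commutatorElement

section clauses
variable {G M : Type} [Group G] [Group M] (h : UnivEq G M)
include h

/-- centralisers of commutators are abelian -/
lemma clA (hM : ∀ y z a b : M, ⁅y, z⁆ ≠ 1 → ⁅a, ⁅y, z⁆⁆ = 1 → ⁅b, ⁅y, z⁆⁆ = 1 → ⁅a, b⁆ = 1) :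
    ∀ y z a b : G, ⁅y, z⁆ ≠ 1 → ⁅a, ⁅y, z⁆⁆ = 1 → ⁅b, ⁅y, z⁆⁆ = 1 → ⁅a, b⁆ = 1 := by
  intro y z a b h1 h2 h3
  by_contra hcon
  refine transfer' h (ι := Fin 4)
    [⁅FreeGroup.of (2 : Fin 4), ⁅FreeGroup.of (0 : Fin 4), FreeGroup.of (1 : Fin 4)⁆⁆, ⁅FreeGroup.of (3 : Fin 4), ⁅FreeGroup.of (0 : Fin 4), FreeGroup.of (1 : Fin 4)⁆⁆]
    [⁅FreeGroup.of (0 : Fin 4), FreeGroup.of (1 : Fin 4)⁆, ⁅FreeGroup.of (2 : Fin 4), FreeGroup.of (3 : Fin 4)⁆] ?_ ![y, z, a, b] ?_ ?_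
  · intro v hP hQ
    simp only [List.mem_cons, List.not_mem_nil, or_false, forall_eq_or_imp, forall_eq,
      map_commutatorElement, FreeGroup.lift_apply_of] at hP hQ
    exact hQ.2 (hM _ _ _ _ hQ.1 hP.1 hP.2)
  · simp only [List.mem_cons, List.not_mem_nil, or_false, forall_eq_or_imp, forall_eq,
      map_commutatorElement, FreeGroup.lift_apply_of]
    exact ⟨h2, h3⟩
  · simp only [List.mem_cons, List.not_mem_nil, or_false, forall_eq_or_imp, forall_eq, ne_eq,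
      map_commutatorElement, FreeGroup.lift_apply_of]
    exact ⟨h1, hcon⟩

/-- centralisers of commutators are normal -/
lemma clB (hM : ∀ y z a g : M, ⁅y, z⁆ ≠ 1 → ⁅a, ⁅y, z⁆⁆ = 1 → ⁅g * a * g⁻¹, ⁅y, z⁆⁆ = 1) :
    ∀ y z a g : G, ⁅y, z⁆ ≠ 1 → ⁅a, ⁅y, z⁆⁆ = 1 → ⁅g * a * g⁻¹, ⁅y, z⁆⁆ = 1 := by
  intro y z a g h1 h2
  by_contra hcon
  refine transfer' h (ι := Fin 4)
    [⁅FreeGroup.of (2 : Fin 4), ⁅FreeGroup.of (0 : Fin 4), FreeGroup.of (1 : Fin 4)⁆⁆]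
    [⁅FreeGroup.of (0 : Fin 4), FreeGroup.of (1 : Fin 4)⁆, ⁅FreeGroup.of (3 : Fin 4) * FreeGroup.of (2 : Fin 4) * (FreeGroup.of (3 : Fin 4))⁻¹, ⁅FreeGroup.of (0 : Fin 4), FreeGroup.of (1 : Fin 4)⁆⁆] ?_ ![y, z, a, g] ?_ ?_
  · intro v hP hQ
    simp only [List.mem_cons, List.not_mem_nil, or_false, forall_eq_or_imp, forall_eq,
      map_commutatorElement, FreeGroup.lift_apply_of, map_mul, map_inv] at hP hQ
    exact hQ.2 (hM _ _ _ _ hQ.1 hP)
  · simp only [List.mem_cons, List.not_mem_nil, or_false, forall_eq_or_imp, forall_eq,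
      map_commutatorElement, FreeGroup.lift_apply_of]
    exact h2
  · simp only [List.mem_cons, List.not_mem_nil, or_false, forall_eq_or_imp, forall_eq, ne_eq,
      map_commutatorElement, FreeGroup.lift_apply_of, map_mul, map_inv]
    exact ⟨h1, hcon⟩

/-- metabelian -/
lemma clC (hM : ∀ y z u v : M, ⁅⁅u, v⁆, ⁅y, z⁆⁆ = 1) : ∀ y z u v : G, ⁅⁅u, v⁆, ⁅y, z⁆⁆ = 1 := by
  intro y z u v
  by_contra hcon
  refine transfer' h (ι := Fin 4) []
    [⁅⁅FreeGroup.of (2 : Fin 4), FreeGroup.of (3 : Fin 4)⁆, ⁅FreeGroup.of (0 : Fin 4), FreeGroup.of (1 : Fin 4)⁆⁆] ?_ ![y, z, u, v] ?_ ?_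
  · intro v hP hQ
    simp only [List.mem_cons, List.not_mem_nil, or_false, forall_eq,
      map_commutatorElement, FreeGroup.lift_apply_of] at hQ
    exact hQ (hM _ _ _ _)
  · simp
  · simp only [List.mem_cons, List.not_mem_nil, or_false, forall_eq, ne_eq,
      map_commutatorElement, FreeGroup.lift_apply_of]
    exact hcon

/-- isolated -/
lemma clD (j : ℕ) (hM : ∀ y z g : M, ⁅y, z⁆ ≠ 1 → ⁅g ^ j, ⁅y, z⁆⁆ = 1 → ⁅g, ⁅y, z⁆⁆ = 1) :
    ∀ y z g : G, ⁅y, z⁆ ≠ 1 → ⁅g ^ j, ⁅y, z⁆⁆ = 1 → ⁅g, ⁅y, z⁆⁆ = 1 := by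
  intro y z g h1 h2
  by_contra hcon
  refine transfer' h (ι := Fin 3) [⁅(FreeGroup.of (2 : Fin 3)) ^ j, ⁅FreeGroup.of (0 : Fin 3), FreeGroup.of (1 : Fin 3)⁆⁆]
    [⁅FreeGroup.of (0 : Fin 3), FreeGroup.of (1 : Fin 3)⁆, ⁅FreeGroup.of (2 : Fin 3), ⁅FreeGroup.of (0 : Fin 3), FreeGroup.of (1 : Fin 3)⁆⁆] ?_ ![y, z, g] ?_ ?_
  · intro v hP hQ
    simp only [List.mem_cons, List.not_mem_nil, or_false, forall_eq_or_imp, forall_eq,
      map_commutatorElement, FreeGroup.lift_apply_of, map_pow] at hP hQ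
    exact hQ.2 (hM _ _ _ hQ.1 hP)
  · simp only [List.mem_cons, List.not_mem_nil, or_false, forall_eq_or_imp, forall_eq,
      map_commutatorElement, FreeGroup.lift_apply_of, map_pow]
    exact h2
  · simp only [List.mem_cons, List.not_mem_nil, or_false, forall_eq_or_imp, forall_eq, ne_eq,
      map_commutatorElement, FreeGroup.lift_apply_of, map_pow]
    exact ⟨h1, hcon⟩

/-- torsion-freeness -/
lemma clE (r : ℕ) (n : Fin r → ℤ) (hM : ∀ (y z a : M) (g : Fin r → M), ⁅y, z⁆ ≠ 1 → ⁅a, ⁅y, z⁆⁆ = 1 →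
      (∀ i j, i ≠ j → ⁅g i * (g j)⁻¹, ⁅y, z⁆⁆ ≠ 1) →
      (List.ofFn (fun i => g i * a ^ n i * (g i)⁻¹)).prod = 1 → a = 1) :
    ∀ (y z a : G) (g : Fin r → G), ⁅y, z⁆ ≠ 1 → ⁅a, ⁅y, z⁆⁆ = 1 →
      (∀ i j, i ≠ j → ⁅g i * (g j)⁻¹, ⁅y, z⁆⁆ ≠ 1) →
      (List.ofFn (fun i => g i * a ^ n i * (g i)⁻¹)).prod = 1 → a = 1 := by
  classical
  intro y z a g h1 h2 h3 h4
  by_contra hcon
  let c : FreeGroup (Fin 3 ⊕ Fin r) := ⁅(FreeGroup.of (Sum.inl 0) : FreeGroup (Fin 3 ⊕ Fin r)), (FreeGroup.of (Sum.inl 1) : FreeGroup (Fin 3 ⊕ Fin r))⁆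
  let w : FreeGroup (Fin 3 ⊕ Fin r) := (List.ofFn (fun i : Fin r => (FreeGroup.of (Sum.inr i) : FreeGroup (Fin 3 ⊕ Fin r)) *
    (FreeGroup.of (Sum.inl 2) : FreeGroup (Fin 3 ⊕ Fin r)) ^ n i * (FreeGroup.of (Sum.inr i) : FreeGroup (Fin 3 ⊕ Fin r))⁻¹)).prod
  let prs : List (Fin r × Fin r) := (Finset.univ.filter (fun q : Fin r × Fin r => q.1 ≠ q.2)).toList
  have hprs : ∀ q : Fin r × Fin r, q ∈ prs ↔ q.1 ≠ q.2 := by
    intro q; simp [prs]
  let qs : List (FreeGroup (Fin 3 ⊕ Fin r)) := prs.map (fun q =>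
    ⁅(FreeGroup.of (Sum.inr q.1) : FreeGroup (Fin 3 ⊕ Fin r)) * (FreeGroup.of (Sum.inr q.2) : FreeGroup (Fin 3 ⊕ Fin r))⁻¹, c⁆)
  have ev : ∀ {K : Type} [Group K] (v : Fin 3 ⊕ Fin r → K), FreeGroup.lift v w =
      (List.ofFn (fun i : Fin r => v (Sum.inr i) * v (Sum.inl 2) ^ n i * (v (Sum.inr i))⁻¹)).prod := by
    intro K _ v
    simp only [w]
    rw [map_list_prod, List.map_ofFn]
    congr 2
    funext i
    simp [FreeGroup.lift_apply_of]
  have evc : ∀ {K : Type} [Group K] (v : Fin 3 ⊕ Fin r → K), FreeGroup.lift v c =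
      ⁅v (Sum.inl 0), v (Sum.inl 1)⁆ := by
    intro K _ v
    simp only [c, map_commutatorElement, FreeGroup.lift_apply_of]
  refine transfer' h (ι := Fin 3 ⊕ Fin r) [⁅(FreeGroup.of (Sum.inl 2) : FreeGroup (Fin 3 ⊕ Fin r)), c⁆, w]
    (c :: FreeGroup.of (Sum.inl 2) :: qs) ?_ (Sum.elim ![y, z, a] g) ?_ ?_
  · intro v hP hQ
    simp only [List.mem_cons, List.not_mem_nil, or_false, forall_eq_or_imp, forall_eq,
      map_commutatorElement, FreeGroup.lift_apply_of, ev, evc] at hP hQ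
    obtain ⟨hQ1, hQ2, hQ3⟩ := hQ
    apply hQ2
    refine hM (v (Sum.inl 0)) (v (Sum.inl 1)) _ (fun i => v (Sum.inr i)) hQ1 hP.1 ?_ hP.2
    intro i j hij
    have h5 := hQ3 _ (List.mem_map_of_mem ((hprs (i, j)).mpr hij))
    simpa only [map_commutatorElement, FreeGroup.lift_apply_of, map_mul, map_inv, evc] using h5
  · simp only [List.mem_cons, List.not_mem_nil, or_false, forall_eq_or_imp, forall_eq,
      map_commutatorElement, FreeGroup.lift_apply_of, ev, evc]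
    exact ⟨h2, h4⟩
  · simp only [List.mem_cons, forall_eq_or_imp, ne_eq, FreeGroup.lift_apply_of, evc]
    refine ⟨h1, hcon, ?_⟩
    intro q hq
    obtain ⟨⟨i, j⟩, hij, rfl⟩ := List.mem_map.mp hq
    simp only [map_commutatorElement, FreeGroup.lift_apply_of, map_mul, map_inv, evc]
    exact h3 i j ((hprs (i, j)).mp hij)

end clauses

/-- TASK RIG -/
theorem rig_struct (n : ℕ) (hn : 2 ≤ n) (G : Type) [Group G] (hfg : Group.FG G)
    (hna : ¬ ∀ a b : G, a * b = b * a) (h : UnivEq G (Dq (Fin n) 2)) :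
    ∃ (m k : ℕ) (π : G →* Zm m), 0 < m ∧ Function.Surjective π ∧ Nonempty (MD π k) ∧
      ∃ a, π a = 1 ∧ a ≠ 1 := by
  classical
  obtain ⟨π0, -, ⟨D⟩⟩ := MDQ.md_zm n
  have hcm : ∀ u v : Dq (Fin n) 2, π0 ⁅u, v⁆ = 1 := by
    intro u v
    rw [map_commutatorElement, commutatorElement_eq_one_iff_mul_comm, mul_comm]
  -- facts about the free metabelian group
  have c1 : ∀ y z a : Dq (Fin n) 2, ⁅y, z⁆ ≠ 1 → ⁅a, ⁅y, z⁆⁆ = 1 → π0 a = 1 := by
    intro y z a h1 h2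
    exact cent D (hcm y z) h1 (commutatorElement_eq_one_iff_mul_comm.mp h2)
  have c2 : ∀ y z a : Dq (Fin n) 2, π0 a = 1 → ⁅a, ⁅y, z⁆⁆ = 1 := by
    intro y z a h1
    exact commutatorElement_eq_one_iff_mul_comm.mpr (ker_comm D h1 (hcm y z))
  have MA : ∀ y z a b : Dq (Fin n) 2, ⁅y, z⁆ ≠ 1 → ⁅a, ⁅y, z⁆⁆ = 1 → ⁅b, ⁅y, z⁆⁆ = 1 → ⁅a, b⁆ = 1 := by
    intro y z a b h1 h2 h3
    exact commutatorElement_eq_one_iff_mul_comm.mpr (ker_comm D (c1 y z a h1 h2) (c1 y z b h1 h3))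
  have MB : ∀ y z a g : Dq (Fin n) 2, ⁅y, z⁆ ≠ 1 → ⁅a, ⁅y, z⁆⁆ = 1 → ⁅g * a * g⁻¹, ⁅y, z⁆⁆ = 1 := by
    intro y z a g h1 h2
    refine c2 y z _ ?_
    rw [map_mul, map_mul, map_inv, c1 y z a h1 h2]; simp
  have MC : ∀ y z u v : Dq (Fin n) 2, ⁅⁅u, v⁆, ⁅y, z⁆⁆ = 1 := fun y z u v => c2 y z _ (hcm u v)
  have MDd : ∀ j : ℕ, j ≠ 0 → ∀ y z g : Dq (Fin n) 2, ⁅y, z⁆ ≠ 1 → ⁅g ^ j, ⁅y, z⁆⁆ = 1 → ⁅g, ⁅y, z⁆⁆ = 1 := by
    intro j hj y z g h1 h2
    refine c2 y z _ ?_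
    have h3 := c1 y z _ h1 h2
    rw [map_pow] at h3
    have h4 : j • (π0 g).toAdd = 0 := congrArg Multiplicative.toAdd h3
    apply Multiplicative.toAdd.injective
    funext i
    have h5 := congrFun h4 i
    simp only [Pi.smul_apply, nsmul_eq_mul, Pi.zero_apply, mul_eq_zero, Nat.cast_eq_zero] at h5
    exact h5.resolve_left hj
  have ME : ∀ (r : ℕ) (n' : Fin r → ℤ), (∃ i, n' i ≠ 0) → ∀ (y z a : Dq (Fin n) 2) (g : Fin r → Dq (Fin n) 2),
      ⁅y, z⁆ ≠ 1 → ⁅a, ⁅y, z⁆⁆ = 1 → (∀ i j, i ≠ j → ⁅g i * (g j)⁻¹, ⁅y, z⁆⁆ ≠ 1) →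
      (List.ofFn (fun i => g i * a ^ n' i * (g i)⁻¹)).prod = 1 → a = 1 := by
    intro r n' hn' y z a g h1 h2 h3 h4
    by_contra ha
    refine tf D (c1 y z a h1 h2) ha g n' hn' ?_ h4
    intro i j hij heq
    apply h3 i j hij
    refine c2 y z _ ?_
    rw [map_mul, map_inv, heq, mul_inv_cancel]
  -- transfer to G
  have GA := clA h MA
  have GB := clB h MB
  have GC := clC h MC
  have GD := fun j hj => clD h j (MDd j hj)
  have GE := fun r n' hn' => clE h r n' (ME r n' hn')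
  push Not at hna
  obtain ⟨y, z, hyz⟩ := hna
  have hc1 : ⁅y, z⁆ ≠ 1 := fun h => hyz (commutatorElement_eq_one_iff_mul_comm.mp h)
  set c : G := ⁅y, z⁆ with hc
  let A : Subgroup G := Subgroup.centralizer {c}
  have hA : ∀ a, a ∈ A ↔ ⁅a, c⁆ = 1 := by
    intro a
    rw [commutatorElement_eq_one_iff_mul_comm, Subgroup.mem_centralizer_singleton_iff]
  have hAn : A.Normal := by
    refine ⟨fun a ha g => ?_⟩
    rw [hA] at ha ⊢
    exact GB y z a g hc1 ha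
  have hcA : ∀ u v : G, ⁅u, v⁆ ∈ A := fun u v => (hA _).mpr (GC y z u v)
  have hqc : ∀ a b : G ⧸ A, a * b = b * a := by
    intro a b
    obtain ⟨a, rfl⟩ := QuotientGroup.mk'_surjective A a
    obtain ⟨b, rfl⟩ := QuotientGroup.mk'_surjective A b
    rw [← commutatorElement_eq_one_iff_mul_comm, ← map_commutatorElement]
    exact (QuotientGroup.eq_one_iff _).mpr (hcA a b)
  letI : CommGroup (G ⧸ A) := { (inferInstance : Group (G ⧸ A)) with mul_comm := hqc }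
  haveI : Group.FG (G ⧸ A) := by
    haveI := hfg
    exact QuotientGroup.fg A
  haveI : Module.Finite ℤ (Additive (G ⧸ A)) := by
    rw [Module.Finite.iff_addGroup_fg]
    infer_instance
  haveI : Module.IsTorsionFree ℤ (Additive (G ⧸ A)) := by
    refine Module.IsTorsionFree.of_smul_eq_zero (fun r x hx => ?_)
    by_cases hr : r = 0
    · exact Or.inl hr
    right
    obtain ⟨g, hg⟩ := QuotientGroup.mk'_surjective A x.toMul
    have h1 : x.toMul ^ r = 1 := congrArg Additive.toMul hx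
    rw [← hg, ← map_zpow] at h1
    have h2 : g ^ r ∈ A := (QuotientGroup.eq_one_iff _).mp h1
    have h3 : g ^ r.natAbs ∈ A := by
      rcases Int.natAbs_eq r with h4 | h4
      · rw [h4, zpow_natCast] at h2; exact h2
      · rw [h4, zpow_neg, zpow_natCast] at h2; exact inv_mem_iff.mp h2
    have h4 : g ∈ A := by
      rw [hA] at h3 ⊢
      exact GD r.natAbs (Int.natAbs_ne_zero.mpr hr) y z g hc1 h3
    apply Additive.toMul.injective
    rw [← hg]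
    exact (QuotientGroup.eq_one_iff _).mpr h4
  haveI : Module.Free ℤ (Additive (G ⧸ A)) := Module.free_of_finite_type_torsion_free'
  let m := Module.finrank ℤ (Additive (G ⧸ A))
  let bs : Module.Basis (Fin m) ℤ (Additive (G ⧸ A)) := Module.finBasis ℤ (Additive (G ⧸ A))
  let π1 : G ⧸ A →* Zm m := AddMonoidHom.toMultiplicativeRight (bs.equivFun.toLinearMap.toAddMonoidHom)
  have hπ1 : Function.Bijective π1 := by
    constructor
    · intro u v huv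
      have h1 : bs.equivFun (Additive.ofMul u) = bs.equivFun (Additive.ofMul v) := congrArg Multiplicative.toAdd huv
      exact congrArg Additive.toMul (bs.equivFun.injective h1)
    · intro w
      obtain ⟨u, hu⟩ := bs.equivFun.surjective w.toAdd
      exact ⟨u.toMul, congrArg Multiplicative.ofAdd hu⟩
  let π : G →* Zm m := π1.comp (QuotientGroup.mk' A)
  have hπs : Function.Surjective π := hπ1.2.comp (QuotientGroup.mk'_surjective A)
  have hπ : ∀ g, π g = 1 ↔ g ∈ A := by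
    intro g
    change π1 (QuotientGroup.mk' A g) = 1 ↔ _
    rw [← map_one π1, hπ1.1.eq_iff]
    exact QuotientGroup.eq_one_iff _
  have hcomm : ∀ a b : G, π a = 1 → π b = 1 → a * b = b * a := by
    intro a b ha hb
    rw [hπ, hA] at ha hb
    exact commutatorElement_eq_one_iff_mul_comm.mp (GA y z a b hc1 ha hb)
  have hm : 0 < m := by
    rcases Nat.eq_zero_or_pos m with h0 | h0
    · exfalso
      have hz : ∀ v : Zm m, v = 1 := by
        intro v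
        apply Multiplicative.toAdd.injective
        funext i
        exact absurd i.isLt (by omega)
      exact hyz (hcomm y z (hz _) (hz _))
    · exact h0
  obtain ⟨k, hk⟩ := exists_md π hπs hcomm hfg (by
    intro r g n' a ha ha1 hg hn' hp
    rw [hπ, hA] at ha
    refine ha1 (GE r n' hn' y z a g hc1 ha ?_ hp)
    intro i j hij hgij
    apply hg i j hij
    rw [← hA, ← hπ, map_mul, map_inv, mul_inv_eq_one] at hgij
    exact hgij)
  exact ⟨m, k, π, hm, hπs, hk, c, (hπ c).mpr (hcA y z), hc1⟩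

end Pool.Agent.H54R3.Rig
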