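import Mathlib
import Pool.Agent.H577R3.Defs2
import Pool.Agent.H54R3.TaskSEP

set_option autoImplicit false

namespace Pool.Agent.H54R3.Sep

open Pool.Agent.Helper777.Prof Pool.Agent.H577R3

theorem sep_dq2' (n : ℕ) (hn : 2 ≤ n) : ∃ L : ℕ, SepProp (Dq (Fin n) 2) L :=
  sep_dq2 n hn

lemma fix_stab' {M : Type} [Group M] {p : ℕ} [Fact p.Prime] (c : Cr M (ZMod p)) {v : M}
    (hχ : c.χ v = 1) (h0 : c.δ v ≠ 0) (u : M) : fix c v u ∈ c.stab := by
  change c.δ (fix c v u) = 0
  have h1 := c.mul (v ^ kf c v u) (fix c v u)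
  rw [← fix_mul, c.pow hχ, map_pow, hχ, one_pow, one_mul] at h1
  have h2 : ((kf c v u : ℕ) : ZMod p) = c.δ u / c.δ v := by
    unfold kf
    rw [ZMod.natCast_val, ZMod.cast_id]
  rw [h2, div_mul_cancel₀ _ h0] at h1
  linear_combination -h1

theorem sep_zm (m : ℕ) (hm : 0 < m) : ∃ L, SepProp (Zm m) L := by
  classical
  refine ⟨Fintype.card (Fin m ⊕ Unit), fun T hT => ?_⟩
  let i0 : Fin m := ⟨0, hm⟩
  set v : Zm m := zb i0 with hv
  have hv1 : v ≠ 1 := by
    intro h
    have := congrFun (congrArg Multiplicative.toAdd h) i0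
    simp [v, zb] at this
  let toF : Zm m → (Fin m →₀ ℤ) := fun h => Finsupp.equivFunOnFinite.symm h.toAdd
  obtain ⟨α, β, hαβ⟩ := exists_weights ((insert v T).image (fun h => (toF h, (0 : Fin m →₀ ℤ)))) (by
    intro u hu
    obtain ⟨t, ht, rfl⟩ := Finset.mem_image.mp hu
    have ht1 : t ≠ 1 := by
      rcases Finset.mem_insert.mp ht with rfl | ht
      · exact hv1
      · rintro rfl; exact hT ht
    intro h0
    apply ht1
    have h1 : toF t = 0 := congrArg Prod.fst h0
    have h2 : t.toAdd = 0 := by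
      funext j
      have := congrArg (fun f : Fin m →₀ ℤ => f j) h1
      simpa [toF] using this
    exact Multiplicative.toAdd.injective h2)
  let wt : Zm m → ℤ := fun h => ∑ j, α j * h.toAdd j
  have hwt : ∀ t ∈ insert v T, wt t ≠ 0 := by
    intro t ht
    have := hαβ _ (Finset.mem_image_of_mem _ ht)
    simpa [wt, toF] using this
  have hwm : ∀ a b, wt (a * b) = wt a + wt b := by
    intro a b
    simp [wt, mul_add, Finset.sum_add_distrib]
  obtain ⟨p, hp1, hp⟩ := Nat.exists_infinite_primes ((∏ t ∈ insert v T, wt t).natAbs + 1)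
  have : Fact p.Prime := ⟨hp⟩
  have hcast : ((∏ t ∈ insert v T, wt t : ℤ) : ZMod p) ≠ 0 := by
    intro h
    rw [ZMod.intCast_zmod_eq_zero_iff_dvd] at h
    have h2 := Int.natAbs_dvd_natAbs.mpr h
    have h3 : 0 < (∏ t ∈ insert v T, wt t).natAbs :=
      Int.natAbs_pos.mpr (Finset.prod_ne_zero_iff.mpr hwt)
    have h4 := Nat.le_of_dvd h3 h2
    simp only [Int.natAbs_natCast] at h4
    omega
  push_cast at hcast
  rw [Finset.prod_ne_zero_iff] at hcast
  let c : Cr (Zm m) (ZMod p) :=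
    { χ := 1
      δ := fun t => ((wt t : ℤ) : ZMod p)
      mul := by
        intro a b
        rw [hwm]
        push_cast
        rw [MonoidHom.one_apply, one_mul] }
  have hχ : ∀ a, c.χ a = 1 := fun _ => rfl
  have hδ : ∀ t ∈ insert v T, c.δ t ≠ 0 := hcast
  have hv0 : c.δ v ≠ 0 := hδ v (Finset.mem_insert_self _ _)
  let Y0 : Fin m ⊕ Unit → Zm m := Sum.elim (fun i => fix c v (zb i)) (fun _ => v ^ p)
  let eqv := (Fintype.equivFin (Fin m ⊕ Unit)).symm
  have hr : Set.range (Y0 ∘ eqv) = Set.range Y0 := by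
    rw [Set.range_comp, eqv.surjective.range_eq, Set.image_univ]
  have hYs : Subgroup.closure (Set.range Y0) ≤ c.stab := by
    rw [Subgroup.closure_le]
    rintro _ ⟨j, rfl⟩
    rcases j with i | u
    · exact fix_stab' c (hχ _) hv0 _
    · change c.δ (v ^ p) = 0
      rw [c.pow (hχ _)]
      simp
  set K := Subgroup.closure (Set.range Y0) with hK
  have hY : ∀ j, Y0 j ∈ K := fun j => Subgroup.subset_closure ⟨j, rfl⟩
  have f1 : ∀ i, fix c v (zb i) ∈ K := fun i => hY (Sum.inl i)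
  have f5 : v ^ p ∈ K := hY (Sum.inr ())
  have htop : K ⊔ Subgroup.zpowers v = ⊤ := by
    have hz : ∀ i, zb i ∈ K ⊔ Subgroup.zpowers v := by
      intro i
      rw [fix_mul c v (zb i)]
      refine mul_mem (pow_mem ?_ _) ?_
      · exact (le_sup_right : _ ≤ K ⊔ Subgroup.zpowers v) (Subgroup.mem_zpowers v)
      · exact (le_sup_left : _ ≤ K ⊔ Subgroup.zpowers v) (f1 i)
    rw [eq_top_iff]
    intro h _
    have h1 : h = ∏ i, (zb i) ^ (h.toAdd i) := by
      apply Multiplicative.toAdd.injective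
      rw [toAdd_prod]
      funext j
      simp [zb, Finset.sum_apply, Pi.single_apply]
    rw [h1]
    exact Subgroup.prod_mem _ (fun i _ => Subgroup.zpow_mem _ (hz i) _)
  refine ⟨Y0 ∘ eqv, v, hv1, ?_, ?_⟩
  · intro h
    rw [hr]
    have hh : h ∈ K ⊔ Subgroup.zpowers v := htop ▸ Subgroup.mem_top h
    rw [Subgroup.mem_sup] at hh
    obtain ⟨y, hy, w, hw, rfl⟩ := hh
    obtain ⟨q, rfl⟩ := Subgroup.mem_zpowers_iff.mp hw
    have hp0 : (p : ℤ) ≠ 0 := by exact_mod_cast hp.ne_zero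
    refine ⟨(q % p).toNat, y * (v ^ p) ^ (q / p), ?_, ?_⟩
    · exact mul_mem hy (Subgroup.zpow_mem _ f5 _)
    · have h1 : ((q % p).toNat : ℤ) = q % p := Int.toNat_of_nonneg (Int.emod_nonneg _ hp0)
      rw [← zpow_natCast v ((q % p).toNat), h1, ← zpow_natCast v p, ← zpow_mul, mul_assoc,
        ← zpow_add, Int.mul_ediv_add_emod]
  · intro t ht hcon
    rw [hr] at hcon
    exact hδ t (Finset.mem_insert_of_mem ht) (hYs hcon)

end Pool.Agent.H54R3.Sep
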