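import Mathlib
import Pool.Agent.H577R3.Defs2
import Pool.Agent.Helper777.Prof.P_magnus_ker

set_option autoImplicit false

namespace Pool.Agent.H54R3.Uniq

open Pool.Agent.Helper777.Prof Pool.Agent.H577R3

variable {H : Type} [Group H]

lemma L_sum {B : Type} [AddCommGroup B] (φ : H → B) (x : MonoidAlgebra ℤ H) :
    magnus_ker_L φ x = ∑ g ∈ x.coeff.support, x.coeff g • φ g := by
  unfold magnus_ker_L
  change Finsupp.liftAddHom (fun m => (zmultiplesHom B) (φ m)) x.coeff = _
  rw [Finsupp.liftAddHom_apply]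
  rfl

/-- a functional killing everything except `h` detects the coefficient at `h` -/
lemma L_single {B : Type} [AddCommGroup B] (φ : H → B) (x : MonoidAlgebra ℤ H) (h : H)
    (hφ : ∀ g, x.coeff g ≠ 0 → g ≠ h → φ g = 0) :
    magnus_ker_L φ x = x.coeff h • φ h := by
  rw [L_sum]
  by_cases hh : x.coeff h = 0
  · rw [hh, zero_smul]
    refine Finset.sum_eq_zero (fun g hg => ?_)
    rw [hφ g (Finsupp.mem_support_iff.mp hg), smul_zero]
    rintro rfl
    exact (Finsupp.mem_support_iff.mp hg) hh
  · rw [Finset.sum_eq_single h]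
    · intro g hg hne
      rw [hφ g (Finsupp.mem_support_iff.mp hg) hne, smul_zero]
    · intro hn
      exact absurd (Finsupp.mem_support_iff.mpr hh) hn

lemma zpow_inj {u : H} (hu : ∀ j : ℕ, 0 < j → u ^ j ≠ 1) : Function.Injective (fun m : ℤ => u ^ m) := by
  have h1 : ¬ IsOfFinOrder u := by
    rw [isOfFinOrder_iff_pow_eq_one]
    rintro ⟨n, hn, h⟩
    exact hu n hn h
  exact injective_zpow_iff_not_isOfFinOrder.mpr h1

theorem uniq_int {H : Type} [Group H] {k : ℕ} (u : H) (hu : ∀ j : ℕ, 0 < j → u ^ j ≠ 1)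
    (z : Fin k → MonoidAlgebra ℤ H)
    (h : ∀ j : ℕ, ∃ f : Fin k → MonoidAlgebra ℤ H, z = MonoidAlgebra.of ℤ H (u ^ (j + 1)) • f - f) :
    z = 0 := by
  classical
  have hinj := zpow_inj hu
  funext i
  ext h0
  by_contra hne
  have hne' : (z i).coeff h0 ≠ 0 := by simpa using hne
  -- exponents of the support
  let r : H → ℤ := fun g => if hg : ∃ m : ℤ, g = u ^ m * h0 then hg.choose else 0
  obtain ⟨j, hj⟩ : ∃ j : ℕ, ∀ g ∈ (z i).coeff.support, (r g).natAbs < j + 1 := by
    refine ⟨(z i).coeff.support.sup (fun g => (r g).natAbs), fun g hg => ?_⟩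
    have := Finset.le_sup (f := fun g => (r g).natAbs) hg
    exact Nat.lt_succ_of_le this
  obtain ⟨f, hf⟩ := h j
  let w : H → ℤ := fun g => if ∃ m : ℤ, g = (u ^ (j + 1)) ^ m * h0 then 1 else 0
  have hw : (fun x => w (u ^ (j + 1) * x)) = w := by
    funext x
    simp only [w]
    congr 1
    apply propext
    constructor
    · rintro ⟨m, hm⟩
      refine ⟨m - 1, ?_⟩
      rw [zpow_sub_one, ← mul_right_inj (u ^ (j + 1)), hm]
      group
    · rintro ⟨m, hm⟩
      refine ⟨m + 1, ?_⟩
      rw [hm, zpow_add_one]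
      group
  have h1 : magnus_ker_L w (z i) = 0 := by
    rw [hf]
    simp only [Pi.sub_apply, Pi.smul_apply, smul_eq_mul, map_sub]
    rw [magnus_ker_L_mul, hw, sub_self]
  rw [L_single w (z i) h0] at h1
  · have : w h0 = 1 := by
      simp only [w]
      rw [if_pos ⟨0, by simp⟩]
    rw [this] at h1
    exact hne' (by simpa using h1)
  · intro g hg hgne
    simp only [w]
    rw [if_neg]
    rintro ⟨m, hm⟩
    have hg2 : ∃ m : ℤ, g = u ^ m * h0 := ⟨(j + 1) * m, by
      rw [hm, ← zpow_natCast, ← zpow_mul]; push_cast; rfl⟩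
    have hr : r g = (j + 1) * m := by
      have h3 : r g = hg2.choose := dif_pos hg2
      rw [h3]
      have h4 := hm.symm.trans hg2.choose_spec
      have h5 := mul_right_cancel h4
      rw [← zpow_natCast, ← zpow_mul] at h5
      have h6 := hinj h5
      push_cast at h6
      exact h6.symm
    have h7 := hj g (Finsupp.mem_support_iff.mpr hg)
    rw [hr, Int.natAbs_mul] at h7
    have h8 : ((j : ℤ) + 1).natAbs = j + 1 := by omega
    rw [h8] at h7
    have h9 : m.natAbs = 0 := by
      by_contra hm0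
      have : 1 ≤ m.natAbs := Nat.one_le_iff_ne_zero.mpr hm0
      nlinarith
    rw [Int.natAbs_eq_zero] at h9
    rw [h9, zpow_zero, one_mul] at hm
    exact hgne hm

theorem uniq_pow {H : Type} [Group H] {k : ℕ} (v : H) (hv : ∀ j : ℕ, 0 < j → v ^ j ≠ 1)
    (z : Fin k → MonoidAlgebra ℤ H)
    (h : ∀ a : ℕ, ∃ f : Fin k → MonoidAlgebra ℤ H, z = MonoidAlgebra.of ℤ H v • f - (a + 2) • f) :
    z = 0 := by
  classical
  have hinj := zpow_inj hv
  funext i
  ext h0
  by_contra hne
  have hne' : (z i).coeff h0 ≠ 0 := by simpa using hne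
  let Q : H → Prop := fun g => ∃ m : ℤ, g = v ^ m * h0
  let r : H → ℤ := fun g => if hg : ∃ m : ℤ, g = v ^ m * h0 then hg.choose else 0
  have hr : ∀ m : ℤ, r (v ^ m * h0) = m := by
    intro m
    have hg2 : ∃ m' : ℤ, v ^ m * h0 = v ^ m' * h0 := ⟨m, rfl⟩
    have h3 : r (v ^ m * h0) = hg2.choose := dif_pos hg2
    rw [h3]
    exact (hinj (mul_right_cancel hg2.choose_spec)).symm
  have hvQ : ∀ x, Q (v * x) ↔ Q x := by
    intro x
    constructor
    · rintro ⟨m, hm⟩
      refine ⟨m - 1, ?_⟩
      rw [zpow_sub_one, ← mul_right_inj v, hm]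
      group
    · rintro ⟨m, hm⟩
      exact ⟨m + 1, by rw [hm, ← mul_assoc, add_comm, zpow_add, zpow_one]⟩
  let N : ℕ := (z i).coeff.support.sup (fun g => (r g).natAbs)
  have hN : ∀ g ∈ (z i).coeff.support, (r g).natAbs ≤ N := fun g hg =>
    Finset.le_sup (f := fun g => (r g).natAbs) hg
  let P : Polynomial ℚ := ∑ g ∈ (z i).coeff.support,
    if Q g then Polynomial.C ((z i).coeff g : ℚ) * Polynomial.X ^ (r g + N).toNat else 0
  have hroot : ∀ a : ℕ, P.eval ((a : ℚ) + 2) = 0 := by
    intro a
    obtain ⟨f, hf⟩ := h a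
    have ha : ((a : ℚ) + 2) ≠ 0 := by positivity
    let w : H → ℚ := fun g => if Q g then ((a : ℚ) + 2) ^ (r g) else 0
    have hw : (fun x => w (v * x)) = fun x => ((a : ℚ) + 2) * w x := by
      funext x
      simp only [w]
      by_cases hx : Q x
      · rw [if_pos ((hvQ x).mpr hx), if_pos hx]
        obtain ⟨m, rfl⟩ := hx
        rw [hr, ← mul_assoc, show v * v ^ m = v ^ (m + 1) by rw [add_comm, zpow_add, zpow_one], hr,
          zpow_add_one₀ ha, mul_comm]
      · rw [if_neg (fun h' => hx ((hvQ x).mp h')), if_neg hx, mul_zero]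
    have h1 : magnus_ker_L w (z i) = 0 := by
      rw [hf]
      simp only [Pi.sub_apply, Pi.smul_apply, smul_eq_mul, map_sub]
      rw [magnus_ker_L_mul, hw, map_nsmul]
      rw [L_sum, L_sum, nsmul_eq_mul, Finset.mul_sum, sub_eq_zero]
      refine Finset.sum_congr rfl (fun g _ => ?_)
      push_cast
      rw [zsmul_eq_mul, zsmul_eq_mul]
      ring
    rw [L_sum] at h1
    have h2 : P.eval ((a : ℚ) + 2) = ((a : ℚ) + 2) ^ N * ∑ g ∈ (z i).coeff.support,
        (z i).coeff g • w g := by
      simp only [P]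
      rw [Polynomial.eval_finsetSum, Finset.mul_sum]
      refine Finset.sum_congr rfl (fun g hg => ?_)
      simp only [w]
      by_cases hQ : Q g
      · rw [if_pos hQ, if_pos hQ, Polynomial.eval_mul, Polynomial.eval_C, Polynomial.eval_pow,
          Polynomial.eval_X, zsmul_eq_mul]
        have h3 : ((r g + N).toNat : ℤ) = r g + N := by
          apply Int.toNat_of_nonneg
          have := hN g hg
          omega
        rw [← zpow_natCast, ← zpow_natCast, h3, zpow_add₀ ha]
        ring
      · rw [if_neg hQ, if_neg hQ, Polynomial.eval_zero, smul_zero, mul_zero]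
    rw [h2, h1, mul_zero]
  have hP0 : P = 0 := by
    apply Polynomial.eq_zero_of_infinite_isRoot
    refine Set.infinite_of_injective_forall_mem (f := fun a : ℕ => ((a : ℚ) + 2)) ?_ (fun a => hroot a)
    intro a b hab
    simpa using hab
  have hc : P.coeff N = (z i).coeff h0 := by
    simp only [P]
    rw [Polynomial.finsetSum_coeff, Finset.sum_eq_single h0]
    · have hQ0 : Q h0 := ⟨0, by simp⟩
      have hr0 : r h0 = 0 := by
        have := hr 0
        rwa [zpow_zero, one_mul] at this
      rw [if_pos hQ0, hr0, zero_add, Int.toNat_natCast, Polynomial.coeff_C_mul_X_pow, if_pos rfl]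
    · intro g hg hgne
      by_cases hQ : Q g
      · rw [if_pos hQ, Polynomial.coeff_C_mul_X_pow, if_neg]
        intro hcon
        apply hgne
        have h3 : ((r g + N).toNat : ℤ) = r g + N := by
          apply Int.toNat_of_nonneg
          have := hN g hg
          omega
        have h4 : r g = 0 := by omega
        obtain ⟨m, rfl⟩ := hQ
        rw [hr] at h4
        rw [h4, zpow_zero, one_mul]
      · rw [if_neg hQ, Polynomial.coeff_zero]
    · intro hn
      have : (z i).coeff h0 = 0 := by simpa using hn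
      exact absurd this hne'
  rw [hP0, Polynomial.coeff_zero] at hc
  exact hne' (by exact_mod_cast hc.symm)

theorem uniq_sum {H : Type} [Group H] {k L : ℕ} (hs : SepProp H L)
    (z : Fin k → MonoidAlgebra ℤ H)
    (h : ∀ (Y : Fin L → H) (v : H), v ≠ 1 →
      (∀ h : H, ∃ k : ℕ, ∃ y ∈ Subgroup.closure (Set.range Y), h = y * v ^ k) →
      ∃ e : Fin L → (Fin k → MonoidAlgebra ℤ H), z = ∑ i, (MonoidAlgebra.of ℤ H (Y i) • e i - e i)) :
    z = 0 := by
  classical
  funext i
  ext h0
  by_contra hne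
  have hne' : (z i).coeff h0 ≠ 0 := by simpa using hne
  obtain ⟨Y, v, hv, hgen, hT⟩ := hs (((z i).coeff.support.erase h0).image (fun g => g * h0⁻¹)) (by
    intro h1
    obtain ⟨g, hg, hg1⟩ := Finset.mem_image.mp h1
    exact (Finset.mem_erase.mp hg).1 (mul_inv_eq_one.mp hg1))
  obtain ⟨e, he⟩ := h Y v hv hgen
  let w : H → ℤ := fun g => if g * h0⁻¹ ∈ Subgroup.closure (Set.range Y) then 1 else 0
  have hw : ∀ j, (fun x => w (Y j * x)) = w := by
    intro j
    funext x
    simp only [w]
    congr 1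
    apply propext
    rw [mul_assoc]
    exact Subgroup.mul_mem_cancel_left _ (Subgroup.subset_closure ⟨j, rfl⟩)
  have h1 : magnus_ker_L w (z i) = 0 := by
    rw [he, Finset.sum_apply, map_sum]
    refine Finset.sum_eq_zero (fun j _ => ?_)
    simp only [Pi.sub_apply, Pi.smul_apply, smul_eq_mul, map_sub]
    rw [magnus_ker_L_mul, hw, sub_self]
  rw [L_single w (z i) h0] at h1
  · have : w h0 = 1 := by
      simp only [w]
      rw [if_pos (by simp [Subgroup.one_mem])]
    rw [this] at h1
    exact hne' (by simpa using h1)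
  · intro g hg hgne
    simp only [w]
    rw [if_neg]
    apply hT
    exact Finset.mem_image_of_mem _ (Finset.mem_erase.mpr ⟨hgne, Finsupp.mem_support_iff.mpr hg⟩)

end Pool.Agent.H54R3.Uniq
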